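import Pool.Agent.H631.DB.Stm1

/-!
Project DB, statement BDD (helper370).
-/

set_option autoImplicit false
set_option linter.unusedSectionVars false

namespace Pool.Agent.H631.DB.PBDD

open Classical Cardinal Pool.Agent.Helper669.Forcing Pool.Agent.H631.DB

theorem th_BDD : S_CCC → S_COH → S_BOUND → S_BDD := by
  intro hccc hcoh hbound M I T Γ hs p ψ
  refine mem_fimp.2 fun q _ hψ => ⟨q, le_rfl, ?_⟩
  choose X hX using fun k => exists_raw (hccc M I Γ) (hψ k)
  obtain ⟨j, hj⟩ := hs X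
  refine mem_fex.2 fun r hr => ⟨r, le_rfl, coh Γ j, hcoh M I Γ j _, fun t => ?_⟩
  obtain ⟨h1, m, h2⟩ := hj t
  exact hbound M I Γ j m (X t) h2 h1 (ψ t) r (down_IsFun _ _ (hψ t) _ hr) ((hX t).mono hr)

end Pool.Agent.H631.DB.PBDD
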