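import Pool.Agent.H631.DB.Stm2

/-!
# BDR: the random forcing is bounding (helper372)
-/

set_option autoImplicit false
set_option linter.unusedSectionVars false

namespace Pool.Agent.H631.DB.PBDR

open Cardinal MeasureTheory Pool.Agent.Helper669.Forcing Pool.Agent.H631.DB Filter Topology
open scoped ENNReal

theorem sg_le {M : Type} (S : Set M) : sg S ≤ (MeasurableSpace.pi : MeasurableSpace (M → unitInterval)) :=
  iSup₂_le fun i _ => (measurable_pi_apply i).comap_le

theorem exists_bound {M : Type} (g : (M → unitInterval) → ℕ) (hg : Measurable g) (ε : ℝ≥0∞)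
    (hε : 0 < ε) : ∃ m : ℕ, mu M {ω | m < g ω} ≤ ε := by
  have h1 : Tendsto (mu M ∘ fun m : ℕ => {ω | m < g ω}) atTop (𝓝 (mu M (⋂ m : ℕ, {ω | m < g ω}))) := by
    refine tendsto_measure_iInter_atTop (fun m => ?_) (fun m m' h ω hω => ?_) ⟨0, measure_ne_top _ _⟩
    · exact (measurableSet_lt measurable_const hg).nullMeasurableSet
    · exact lt_of_le_of_lt h hω
  have h2 : (⋂ m : ℕ, {ω | m < g ω}) = (∅ : Set (M → unitInterval)) := by
    ext ω
    simp only [Set.mem_iInter, Set.mem_setOf_eq, Set.mem_empty_iff_false, iff_false, not_forall]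
    exact ⟨g ω, lt_irrefl _⟩
  rw [h2, measure_empty] at h1
  obtain ⟨m, hm⟩ := (h1.eventually (ge_mem_nhds hε)).exists
  exact ⟨m, hm⟩

theorem th_BDR : S_CCCR → S_BDR := by
  intro _ hN M x p hp
  obtain ⟨S, g, -, hgm, hgx⟩ := hN M x p hp
  have hg : ∀ n, Measurable (g n) := fun n => by
    refine measurable_to_countable' fun v => ?_
    exact sg_le S _ (hgm n v)
  obtain ⟨ε, hε0, hε1⟩ := ENNReal.exists_pos_sum_of_countable' (one_ne_zero (α := ℝ≥0∞)) ℕ
  have hb : ∀ n, ∃ m : ℕ, mu M {ω | m < g n ω} ≤ ε n := fun n =>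
    exists_bound (g n) (hg n) (ε n) (hε0 n)
  choose h hh using hb
  refine ⟨h, ?_⟩
  rw [mem_fex]
  intro q hqp
  have hq0 : 0 < mu M q.1 := pos_iff_ne_zero.2 q.2.2
  have htail : Tendsto (fun i => ∑' k, ε (k + i)) atTop (𝓝 0) :=
    ENNReal.tendsto_sum_nat_add ε (hε1.trans ENNReal.one_lt_top).ne
  obtain ⟨N, hNN⟩ := (htail.eventually (gt_mem_nhds hq0)).exists
  set U : Set (M → unitInterval) := ⋃ k : ℕ, {ω | h (k + N) < g (k + N) ω} with hU
  have hUm : MeasurableSet U := MeasurableSet.iUnion fun k => measurableSet_lt measurable_const (hg _)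
  have hUle : mu M U < mu M q.1 := by
    refine lt_of_le_of_lt (measure_iUnion_le _) (lt_of_le_of_lt ?_ hNN)
    exact ENNReal.tsum_le_tsum fun k => hh (k + N)
  have hr0 : mu M (q.1 \ U) ≠ 0 := by
    have h1 : mu M q.1 - mu M U ≤ mu M (q.1 \ U) := le_measure_diff
    exact (lt_of_lt_of_le (tsub_pos_of_lt hUle) h1).ne'
  let r : RR M := ⟨q.1 \ U, q.2.1.diff hUm, hr0⟩
  refine ⟨r, Set.diff_subset, N, fun n => ?_⟩
  rw [mem_fimp]
  intro r' hr' hNn
  refine ⟨r', le_rfl, fun v => ?_⟩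
  rw [mem_fimp]
  intro s hs hsv
  refine ⟨s, le_rfl, ?_⟩
  show v ≤ h n
  have hNn' : N ≤ n := hNn
  -- a value of `g n` on `s`
  have hu : ∃ u, mu M (s.1 ∩ {ω | g n ω = u}) ≠ 0 := by
    by_contra hcon
    push Not at hcon
    have h1 : mu M (⋃ u, s.1 ∩ {ω | g n ω = u}) = 0 := measure_iUnion_null hcon
    refine s.2.2 (measure_mono_null (fun ω hω => ?_) h1)
    exact Set.mem_iUnion.2 ⟨g n ω, hω, rfl⟩
  obtain ⟨u, hu⟩ := hu
  have hum : MeasurableSet {ω | g n ω = u} := sg_le S _ (hgm n u)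
  let s' : RR M := ⟨s.1 ∩ {ω | g n ω = u}, s.2.1.inter hum, hu⟩
  have hs's : s' ≤ s := Set.inter_subset_left
  have hsr : s ≤ r := le_trans hs hr'
  have hrq : r ≤ q := Set.diff_subset
  have hs'p : s' ≤ p := hs's.trans (hsr.trans (hrq.trans hqp))
  have h1 : s' ∈ meets (x n u) := hgx s' hs'p n u fun ω hω => hω.2
  have h2 : s' ∈ meets (x n v) := down_meets _ s hsv s' hs's
  have h3 : s' ∈ IsFun x := down_IsFun x p hp s' hs'p
  have h4 : v = u := IsFun.unique h3 h2 h1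
  obtain ⟨ω, hω⟩ : (s.1 ∩ {ω | g n ω = u}).Nonempty := by
    by_contra hne
    rw [Set.not_nonempty_iff_eq_empty] at hne
    exact hu (by rw [hne, measure_empty])
  have h5 : ω ∉ U := (hsr hω.1).2
  have h6 : ¬ h n < g n ω := by
    intro h7
    apply h5
    rw [hU]
    refine Set.mem_iUnion.2 ⟨n - N, ?_⟩
    rw [Nat.sub_add_cancel hNn']
    exact h7
  have h8 : g n ω = u := hω.2
  rw [h4, ← h8]
  exact not_lt.1 h6

end Pool.Agent.H631.DB.PBDR
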