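import Pool.Agent.H631.DB.Stm1

/-!
The generic function at `j` dominates the functions named in the promises (helper214):
`th_BOUND : S_LONG → S_COH → S_BOUND`.
-/

set_option autoImplicit false

namespace Pool.Agent.H631.DB.PBOUND

open Pool.Agent.H631.DB Classical Pool.Agent.Helper669.Forcing

theorem bound {M I : Type} {Γ : Par M I} {j : I} {m : M} {X : Nm M I}
    (hreq : Γ.req j m = some X) (hX : Supp (below Γ j) X) {f : ℕ → ℕ → Set (PP Γ)} {q : PP Γ}
    (hf : q ∈ IsFun f) (hq : RawOf Γ q X f) : q ∈ LeBN FinI f (coh Γ j) := by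
  refine mem_fex.2 fun r hr => ?_
  let r1 : Cond M I := upd (PP.toC r) j ⟨((PP.toC r) j).stem, insert m ((PP.toC r) j).pr⟩
  have hr1j : r1 j = ⟨((PP.toC r) j).stem, insert m ((PP.toC r) j).pr⟩ := upd_same _ _ _
  have hr1 : le Γ Set.univ r1 (PP.toC r) := by
    intro i _
    by_cases hi : i = j
    · subst hi
      exact ext_same_stem (by rw [hr1j]) (by rw [hr1j]; exact Finset.subset_insert _ _)
    · exact ext_of_eq (upd_of_ne _ _ hi)
  have hr1r : (@LE.le (PP Γ) _ r1 r) := hr1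
  refine ⟨r1, hr1r, ⟨{n | n < (r1 j).stem.length}, Set.finite_lt_nat _⟩, fun n => ?_⟩
  refine mem_fimp.2 fun R2 hR2 hn => ⟨R2, le_rfl, fun v w => ?_⟩
  have hn' : (r1 j).stem.length ≤ n := not_lt.1 (show ¬ (n < (r1 j).stem.length) from hn)
  refine mem_fimp.2 fun R3 hR3 h => ⟨R3, le_rfl, ?_⟩
  show v ≤ w
  obtain ⟨s, hs, z, hz, hsz⟩ := h.2 R3 le_rfl
  obtain ⟨t, ht, v', hv'⟩ := Val.dense (Γ := Γ) low_univ (PP.toC s) X n
  have hts : (@LE.le (PP Γ) _ t s) := ht
  have htr1 : (@LE.le (PP Γ) _ t r1) := hts.trans (hs.trans (hR3.trans hR2))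
  have htq : (@LE.le (PP Γ) _ t q) := htr1.trans (hr1r.trans hr)
  have htz : le Γ Set.univ t (PP.toC z) := hts.trans hsz
  have hpre : ((PP.toC z) j).stem <+: (t j).stem := ext_stem (htz j (Set.mem_univ _))
  have hlt : n < (t j).stem.length := lt_of_lt_of_le hz.1 hpre.length_le
  have hgt : (t j).stem.getD n 0 = w := by
    rw [getD_prefix hpre hz.1]
    exact hz.2
  have h1 : (t : PP Γ) ∈ meets (f n v') := hq t htq _ _ hv'
  have h2 : (t : PP Γ) ∈ meets (f n v) := down_meets _ _ h.1 _ (hts.trans hs)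
  have h3 : v' = v := IsFun.unique (down_IsFun f _ hf _ htq) h1 h2
  have h4 : ext Γ j t r1 := htr1 j (Set.mem_univ _)
  rw [ext_iff] at h4
  have h5 := h4.2.2 m (by rw [hr1j]; exact Finset.mem_insert_self _ _) X hreq n hn' hlt t
    (le_refl' _ _) v' ((Val.iff_of_supp (low_below _) (Set.subset_univ _) hX).1 hv')
  rw [hgt, h3] at h5
  exact h5

theorem th_BOUND : S_LONG → S_COH → S_BOUND := by
  intro _ _ M I Γ j m X hreq hX f q hf hq
  exact bound hreq hX hf hq

end Pool.Agent.H631.DB.PBOUND
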