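import Pool.Agent.H631.DB.Stm1

/-!
# CAP: families of functions have raw names which occur at one step of the tower
-/

set_option autoImplicit false
set_option linter.unusedSectionVars false

namespace Pool.Agent.H631.DB.PCAP

open Cardinal Pool.Agent.Helper669.Forcing Pool.Agent.H631.DB

theorem same {M I : Type} {Γ : Par M I} {X : Nm M I} {f : ℕ → ℕ → Set (PP Γ)} {q : PP Γ}
    (hf : q ∈ IsFun f) (hX : RawOf Γ q X f) : q ∈ SameReal (evn Γ X) f := by
  intro n v w
  refine mem_fimp.2 fun t ht h => ?_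
  obtain ⟨t1, ht1, z, hz, htz⟩ := h.1 t le_rfl
  have ht1q : t1 ≤ q := ht1.trans ht
  have hz' : Val (le Γ Set.univ) (PP.toC z) X n v := hz
  have hle : le Γ Set.univ (PP.toC t1) (PP.toC z) := htz
  have h3 : t1 ∈ meets (f n v) := hX t1 ht1q n v (hz'.mono low_univ hle)
  have h4 : t1 ∈ meets (f n w) := down_meets _ _ h.2 _ ht1
  exact ⟨t1, ht1, IsFun.unique (down_IsFun f _ hf _ ht1q) h3 h4⟩

theorem th_CAP : S_CCC → S_CAP := by
  intro hccc M I A Y Γ U hU p f
  refine mem_fimp.2 fun q _ hf => ⟨q, le_rfl, ?_⟩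
  choose X hX using fun k => exists_raw (hccc M I Γ) (hf k)
  obtain ⟨a, ha⟩ := hU X
  refine mem_fex.2 fun r hr => ⟨r, le_rfl, a, fun k => ?_⟩
  refine mem_fex.2 fun s hs => ⟨s, le_rfl, X k, ha k, ?_⟩
  exact same (down_IsFun _ _ (hf k) _ (hs.trans hr)) ((hX k).mono (hs.trans hr))

end Pool.Agent.H631.DB.PCAP
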