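import Pool.Agent.H631.DB.Stm2

set_option autoImplicit false

namespace Pool.Agent.H631.DB.PCARD

open Cardinal Pool.Agent.H631.DB

theorem leB_iff {J : Set (Set ℕ)} (hJ : IsIdeal J) (x y : ℕ → ℕ) : LeB J x y ↔ LeJ J x y := by
  constructor
  · rintro ⟨S, hS⟩
    refine hJ.1 S.1 S.2 _ fun n hn => ?_
    by_contra h
    exact absurd (hS n h) (not_le.2 hn)
  · intro h
    exact ⟨⟨_, h⟩, fun n hn => not_lt.1 hn⟩

theorem leJ_refl {J : Set (Set ℕ)} (hJ : IsIdeal J) (f : ℕ → ℕ) : LeJ J f f := by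
  refine hJ.2.2.1 _ ?_
  have : {n | f n < f n} = ∅ := by
    ext n
    simp
  rw [this]
  exact Set.finite_empty

theorem not_leJ_succ {J : Set (Set ℕ)} (hJ : IsIdeal J) (g : ℕ → ℕ) :
    ¬ LeJ J (fun n => g n + 1) g := by
  intro h
  have h1 : {n | g n < g n + 1} = Set.univ := by
    ext n
    simp
  unfold LeJ at h
  rw [h1] at h
  exact hJ.2.2.2 h

/-- a family of the cardinality at most `#T` is indexed by `T` -/
theorem index {T : Type} {F : Set (ℕ → ℕ)} (hne : F.Nonempty) (h : #F ≤ #T) :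
    ∃ c : T → ℕ → ℕ, (∀ f ∈ F, ∃ t, c t = f) ∧ ∀ t, c t ∈ F := by
  obtain ⟨e⟩ := (Cardinal.le_def F T).1 h
  have : Nonempty F := hne.to_subtype
  refine ⟨fun t => (Function.invFun e t).1, fun f hf => ⟨e ⟨f, hf⟩, ?_⟩, fun t =>
    (Function.invFun e t).2⟩
  show (Function.invFun e (e ⟨f, hf⟩)).1 = f
  rw [Function.leftInverse_invFun e.injective]

theorem unbdd_iff {J : Set (Set ℕ)} (hJ : IsIdeal J) (T : Type) : Unbdd J T ↔ bnum J ≤ #T := by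
  constructor
  · rintro ⟨c, hc⟩
    have h1 : bnum J ≤ #(Set.range c) := by
      refine csInf_le' ⟨Set.range c, rfl, ?_⟩
      rintro ⟨g, hg⟩
      obtain ⟨t, ht⟩ := hc g
      exact ht ((leB_iff hJ _ _).2 (hg (c t) ⟨t, rfl⟩))
    exact h1.trans mk_range_le
  · intro h
    have hne : {κ : Cardinal.{0} | ∃ F : Set (ℕ → ℕ), #F = κ ∧
        ¬ ∃ g, ∀ f ∈ F, LeJ J f g}.Nonempty := by
      refine ⟨_, Set.univ, rfl, ?_⟩
      rintro ⟨g, hg⟩
      exact not_leJ_succ hJ g (hg _ (Set.mem_univ _))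
    obtain ⟨F, hF1, hF2⟩ := csInf_mem hne
    have hFne : F.Nonempty := by
      by_contra h0
      rw [Set.not_nonempty_iff_eq_empty] at h0
      exact hF2 ⟨fun _ => 0, fun f hf => by rw [h0] at hf; exact absurd hf (Set.notMem_empty f)⟩
    have h2 : #F ≤ #T := by
      rw [hF1]
      exact h
    obtain ⟨c, hc1, -⟩ := index hFne h2
    refine ⟨c, fun f => ?_⟩
    by_contra h3
    apply hF2
    refine ⟨f, fun f' hf' => ?_⟩
    obtain ⟨t, rfl⟩ := hc1 f' hf'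
    by_contra h4
    exact h3 ⟨t, fun h5 => h4 ((leB_iff hJ _ _).1 h5)⟩

theorem domin_iff {J : Set (Set ℕ)} (hJ : IsIdeal J) (T : Type) : Domin J T ↔ dnum J ≤ #T := by
  constructor
  · rintro ⟨c, hc⟩
    have h1 : dnum J ≤ #(Set.range c) := by
      refine csInf_le' ⟨Set.range c, rfl, fun f => ?_⟩
      obtain ⟨t, ht⟩ := hc f
      exact ⟨c t, ⟨t, rfl⟩, (leB_iff hJ _ _).1 ht⟩
    exact h1.trans mk_range_le
  · intro h
    have hne : {κ : Cardinal.{0} | ∃ F : Set (ℕ → ℕ), #F = κ ∧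
        ∀ f, ∃ g ∈ F, LeJ J f g}.Nonempty :=
      ⟨_, Set.univ, rfl, fun f => ⟨f, Set.mem_univ f, leJ_refl hJ f⟩⟩
    obtain ⟨F, hF1, hF2⟩ := csInf_mem hne
    have hFne : F.Nonempty := by
      obtain ⟨g, hg, -⟩ := hF2 fun _ => 0
      exact ⟨g, hg⟩
    have h2 : #F ≤ #T := by
      rw [hF1]
      exact h
    obtain ⟨c, hc1, -⟩ := index hFne h2
    refine ⟨c, fun f => ?_⟩
    obtain ⟨g, hg, hfg⟩ := hF2 f
    obtain ⟨t, rfl⟩ := hc1 g hg
    exact ⟨t, (leB_iff hJ _ _).2 hfg⟩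

theorem bddAll_iff (J : Set (Set ℕ)) (T : Type) : BddAll J T ↔ ¬ Unbdd J T := by
  unfold BddAll Unbdd
  push Not
  rfl

theorem notDom_iff (J : Set (Set ℕ)) (T : Type) : NotDom J T ↔ ¬ Domin J T := by
  unfold NotDom Domin
  push Not
  rfl

theorem fin_ideal : IsIdeal FinI := by
  refine ⟨fun S hS S' h => ?_, fun S hS S' hS' => ?_, fun S hS => hS, ?_⟩
  · have h1 : S.Finite := hS
    exact h1.subset h
  · have h1 : S.Finite := hS
    have h2 : S'.Finite := hS'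
    exact h1.union h2
  · intro h
    have h1 : (Set.univ : Set ℕ).Finite := h
    exact Set.infinite_univ h1

theorem th_CARD : S_CARD := by
  refine ⟨fun J hJ T => ⟨?_, unbdd_iff hJ T, ?_, domin_iff hJ T⟩, fin_ideal, fun J hJ => ⟨⟨?_, ?_, hJ.2.2.2⟩,
    ?_⟩, fun J hJ => ⟨⟨?_, ?_, ?_, ?_⟩, fun x y => ⟨?_, ?_⟩⟩⟩
  · rw [bddAll_iff, unbdd_iff hJ, not_le]
  · rw [notDom_iff, domin_iff hJ, not_le]
  · exact fun S hS S' hS' => ⟨S ∪ S', hJ.2.1 S hS S' hS', subset_rfl⟩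
  · exact fun F hF => ⟨F, hJ.2.2.1 F hF, subset_rfl⟩
  · ext S
    exact ⟨fun ⟨U, hU, h⟩ => hJ.1 U hU S h, fun h => ⟨S, h, subset_rfl⟩⟩
  · rintro S ⟨U, hU, h⟩ S' hS'
    exact ⟨U, hU, hS'.trans h⟩
  · rintro S ⟨U, hU, h⟩ S' ⟨U', hU', h'⟩
    obtain ⟨W, hW, hW'⟩ := hJ.1 U hU U' hU'
    exact ⟨W, hW, (Set.union_subset_union h h').trans hW'⟩
  · intro S hS
    exact hJ.2.1 S hS
  · rintro ⟨U, hU, h⟩
    have h1 : U = Set.univ := Set.univ_subset_iff.1 h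
    rw [h1] at hU
    exact hJ.2.2 hU
  · rintro ⟨S, hS⟩
    exact ⟨⟨S.1, S.1, S.2, subset_rfl⟩, hS⟩
  · rintro ⟨⟨S, U, hU, hSU⟩, hS⟩
    exact ⟨⟨U, hU⟩, fun n hn => hS n fun h => hn (hSU h)⟩

end Pool.Agent.H631.DB.PCARD
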