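import Pool.Agent.H631.DB.Stm1
import Pool.Graph.R_seed8.Helper126.Fact

/-!
# CCC: the countable chain condition
-/

set_option autoImplicit false
set_option linter.unusedSectionVars false

namespace Pool.Agent.H631.DB.PCCC

open Classical Pool.Agent.H631.DB

theorem uncountable_fiber {α β : Type} [Countable β] {A : Set α} (hA : ¬ A.Countable)
    (g : α → β) : ∃ b, ¬ {a ∈ A | g a = b}.Countable := by
  by_contra hcon
  push Not at hcon
  apply hA
  refine (Set.countable_iUnion hcon).mono fun a ha => ?_
  exact Set.mem_iUnion.2 ⟨g a, ha, rfl⟩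

variable {M I : Type}

/-- the merged condition -/
noncomputable def mrg (p q : Cond M I) : Cond M I :=
  ⟨fun i => ⟨if (p i).stem = [] then (q i).stem else (p i).stem, (p i).pr ∪ (q i).pr⟩,
    (p.2.union q.2).subset (by
      intro i hi
      by_contra hcon
      have h1 : p i = CV.top := by
        by_contra h
        exact hcon (Or.inl h)
      have h2 : q i = CV.top := by
        by_contra h
        exact hcon (Or.inr h)
      apply hi
      show (⟨if (p i).stem = [] then (q i).stem else (p i).stem, (p i).pr ∪ (q i).pr⟩ : CV M) =
        CV.top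
      rw [h1, h2]
      simp [CV.top])⟩

theorem mrg_stem (p q : Cond M I) (i : I) :
    (mrg p q i).stem = if (p i).stem = [] then (q i).stem else (p i).stem := rfl

theorem mrg_pr (p q : Cond M I) (i : I) : (mrg p q i).pr = (p i).pr ∪ (q i).pr := rfl

theorem th_CCC : S_CCC := by
  intro M I Γ A hA
  obtain ⟨A1, R, hA1A, hA1, -, hd1⟩ := Helper126.delta_system (fun a : Cond M I => a.supp) A hA
  obtain ⟨st, hA2⟩ := uncountable_fiber hA1 (fun a : Cond M I => fun j : R => (a j.1).stem)
  have hnt : {a ∈ A1 | (fun j : R => (a j.1).stem) = st}.Nontrivial := by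
    by_contra h
    exact hA2 (Set.not_nontrivial_iff.1 h).finite.countable
  obtain ⟨p, hp, q, hq, hne⟩ := hnt
  have hR : ∀ i ∈ R, (p i).stem = (q i).stem := fun i hi =>
    (congrFun hp.2 ⟨i, hi⟩).trans (congrFun hq.2 ⟨i, hi⟩).symm
  have hout : ∀ i ∉ R, p i = CV.top ∨ q i = CV.top := by
    intro i hi
    by_contra hcon
    push Not at hcon
    exact hi (hd1 p hp.1 q hq.1 hne i (Cond.mem_supp.2 hcon.1) (Cond.mem_supp.2 hcon.2))
  refine ⟨p, hA1A hp.1, q, hA1A hq.1, hne, mrg p q, fun j _ => ?_, fun j _ => ?_⟩
  · by_cases hj : j ∈ R
    · refine ext_same_stem ?_ ?_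
      · rw [mrg_stem]
        split_ifs with h
        · exact hR j hj
        · rfl
      · rw [mrg_pr]
        exact Finset.subset_union_left
    · rcases hout j hj with h | h
      · exact ext_top h
      · refine ext_same_stem ?_ ?_
        · rw [mrg_stem, h]
          split_ifs with h1
          · exact h1
          · rfl
        · rw [mrg_pr]
          exact Finset.subset_union_left
  · by_cases hj : j ∈ R
    · refine ext_same_stem ?_ ?_
      · rw [mrg_stem]
        split_ifs with h
        · rfl
        · exact (hR j hj).symm
      · rw [mrg_pr]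
        exact Finset.subset_union_right
    · rcases hout j hj with h | h
      · refine ext_same_stem ?_ ?_
        · rw [mrg_stem, h]
          simp
        · rw [mrg_pr]
          exact Finset.subset_union_right
      · exact ext_top h

end Pool.Agent.H631.DB.PCCC
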