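import Pool.Agent.H631.DB.Stm2

/-!
# CCCR (project DB of helper631): the random forcing is nonempty and ccc
-/

set_option autoImplicit false

namespace Pool.Agent.H631.DB.PCCCR

open MeasureTheory Pool.Agent.H631.DB

theorem th_CCCR : S_CCCR := by
  intro M
  constructor
  · refine ⟨⟨Set.univ, MeasurableSet.univ, ?_⟩⟩
    rw [measure_univ]
    exact one_ne_zero
  · intro A hA
    have h1 : Set.Countable {i : A | 0 < mu M ((i : RR M).1)} := by
      refine Measure.countable_meas_pos_of_disjoint_iUnion₀ (μ := mu M)
        (As := fun i : A => (i : RR M).1) (fun i => (i : RR M).2.1.nullMeasurableSet) ?_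
      intro i j hij
      by_contra hne
      have hne' : (i : RR M) ≠ (j : RR M) := fun h => hij (Subtype.ext h)
      refine hA i.1 i.2 j.1 j.2 hne' ⟨⟨(i : RR M).1 ∩ (j : RR M).1,
        (i : RR M).2.1.inter (j : RR M).2.1, fun h0 => hne h0⟩, ?_, ?_⟩
      · exact Set.inter_subset_left
      · exact Set.inter_subset_right
    have h2 : {i : A | 0 < mu M ((i : RR M).1)} = Set.univ := by
      ext i
      simp only [Set.mem_ofPred_eq, Set.mem_univ, iff_true]
      exact pos_iff_ne_zero.2 (i : RR M).2.2
    rw [h2, Set.countable_univ_iff] at h1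
    exact Set.countable_coe_iff.1 h1

end Pool.Agent.H631.DB.PCCCR
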