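import Pool.Agent.H631.DB.Stm1

/-!
# COH: the generic function with the coordinate `j` is a name of a function (helper977 for helper631)
-/

set_option autoImplicit false
set_option linter.unusedSectionVars false

namespace Pool.Agent.H631.DB.PCOH

open Cardinal Pool.Agent.Helper669.Forcing Pool.Agent.H631.DB

variable {M I : Type} {Γ : Par M I}

theorem getD_eq_of_common {a b c : Cond M I} {j : I} {n : ℕ} (h1 : le Γ Set.univ c a)
    (h2 : le Γ Set.univ c b) (ha : n < (a j).stem.length) (hb : n < (b j).stem.length) :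
    (a j).stem.getD n 0 = (b j).stem.getD n 0 := by
  rw [← getD_prefix (ext_stem (h1 j (Set.mem_univ _))) ha,
    ← getD_prefix (ext_stem (h2 j (Set.mem_univ _))) hb]

theorem th_COH : S_LONG → S_COH := by
  intro hL M I Γ j p
  refine ⟨fun n => ?_, fun n v v' => ?_⟩
  · refine mem_fex.2 fun r hr => ?_
    obtain ⟨r', hr', hlen, -⟩ := hL M I Γ j (n + 1) (PP.toC r)
    refine ⟨(r' : PP Γ), hr', (r' j).stem.getD n 0, ?_⟩
    exact meets_of_mem (P := PP Γ) (N := coh Γ j n _) (p := r') ⟨hlen, rfl⟩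
  · refine mem_fimp.2 fun r hr h => ⟨r, le_rfl, ?_⟩
    obtain ⟨s, hs, z, hz, hsz⟩ := h.1 r le_rfl
    obtain ⟨s', hs', z', hz', hsz'⟩ := h.2 s hs
    have h1 : le Γ Set.univ (PP.toC s') (PP.toC z) := hs'.trans hsz
    have h2 : le Γ Set.univ (PP.toC s') (PP.toC z') := hsz'
    show v = v'
    rw [← hz.2, ← hz'.2, getD_eq_of_common h1 h2 hz.1 hz'.1]

end Pool.Agent.H631.DB.PCOH
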