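import Pool.Agent.H631.DB.Lang

/-!
# The statements of the parts (random forcing, cardinals)
-/

set_option autoImplicit false
set_option linter.unusedSectionVars false

namespace Pool.Agent.H631.DB

open Cardinal MeasureTheory Pool.Agent.Helper669.Forcing

/-- UNIT2: over the trivial forcing the sentence has its plain meaning. Model:
Pool/Agent/H631/EV/UnitM.lean (same lemmas for other sentences; `IsFun R` over `Unit` says that `R` is
the graph of a function). -/
def S_UNIT2 : Prop := ∀ (J : Set (Set ℕ)) (T K A B D : Type) (p : Unit),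
  p ∈ Phi2Holds Unit J T K A B D ↔ Phi2For J T K A B D

/-- UNIT1: same for the first sentence. -/
def S_UNIT1 : Prop := ∀ (T D N : Type) (Ω : Fin 4 → Type) (r : ∀ t, N → Ω t → Prop) (p : Unit),
  p ∈ Phi1Holds Unit T D N Ω r ↔ Phi1For T D N Ω r

/-- CARD. `Unbdd` is the negation of `BddAll`, `Domin` is the negation of `NotDom`. -/
def S_CARD : Prop := (∀ J, IsIdeal J → ∀ T : Type,
    (BddAll J T ↔ #T < bnum J) ∧ (Unbdd J T ↔ bnum J ≤ #T) ∧
    (NotDom J T ↔ #T < dnum J) ∧ (Domin J T ↔ dnum J ≤ #T)) ∧
  (IsIdeal FinI) ∧ (∀ J, IsIdeal J → IsBase J ∧ gen J = J) ∧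
  ∀ J, IsBase J → IsIdeal (gen J) ∧ ∀ x y, LeB J x y ↔ LeB (gen J) x y

/-- COVZ: codes of null sets in the real line. If `covN ≤ #D` take a covering family `F` of null
sets and a surjection from `D` to `F`; it suffices: for every null `A ⊆ ℝ` there is `c : ℕ → ℕ` with
all initial sums `Small`, such that for all `y` with the coherence property, the real
`x = lim y j / 2 ^ j` (so `y j / 2 ^ j ≤ x ≤ (y j + 1) / 2 ^ j`), if `x ∈ A` then `y j = k` for
infinitely many `n`, where `(c n).unpair = (j, k)`. For this cover `A`, for each `m`, by countably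
many sets with sum of the diameters `< 2 ^ (-m) / 100` (e.g. `MeasureTheory.hausdorffMeasure_real`
and `Measure.hausdorffMeasure_apply`, or open sets/intervals); a set of diameter at most `2 ^ (-j)`
which contains `x` gives three candidates `k - 1, k, k + 1` for `y j`. Enumerate all. -/
def S_COVZ : Prop := ∀ D : Type, CovBig D → #D < covN

/-- the product measure -/
noncomputable abbrev mu (M : Type) : Measure (M → unitInterval) :=
  Measure.infinitePi (fun _ : M => (volume : Measure unitInterval))

/-- the sigma algebra generated by the coordinates in `S` -/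
abbrev sg {M : Type} (S : Set M) : MeasurableSpace (M → unitInterval) :=
  ⨆ i ∈ S, MeasurableSpace.comap (fun ω : M → unitInterval => ω i) inferInstance

/-- SUP: a measurable set depends on countably many coordinates. (`MeasurableSpace.pi` is the
supremum of the comaps; induction.) -/
def S_SUP : Prop := ∀ (M : Type) (p : Set (M → unitInterval)), MeasurableSet p →
  ∃ S : Set M, S.Countable ∧ MeasurableSet[sg S] p

/-- CCCR: the random forcing is nonempty and ccc (finite measure: an uncountable family has
uncountably many members of measure at least `1 / n`, and `n + 1` of them cannot be pairwise almost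
disjoint; two measurable sets whose intersection has positive measure are compatible). -/
def S_CCCR : Prop := ∀ M : Type, Nonempty (RR M) ∧
  ∀ A : Set (RR M), (∀ p ∈ A, ∀ q ∈ A, p ≠ q → ¬ ∃ r, r ≤ p ∧ r ≤ q) → A.Countable

/-- NAME: evaluation of names. Take for each `n` a maximal antichain (countable by CCCR) of
conditions `q ≤ p` with `∃ v, q ∈ meets (x n v)`, enumerate it, let `g n ω = v` for the first member
`q` with `ω ∈ q`, where `v` is chosen with `q ∈ meets (x n v)`, and `g n ω = 0` if there is none (such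
`ω` form a null subset of `p`). Supports by SUP. -/
def S_NAME : Prop := ∀ (M : Type) (x : ℕ → ℕ → Set (RR M)) (p : RR M), p ∈ IsFun x →
  ∃ (S : Set M) (g : ℕ → (M → unitInterval) → ℕ), S.Countable ∧
    (∀ n v, MeasurableSet[sg S] {ω | g n ω = v}) ∧
    ∀ q ≤ p, ∀ n v, (∀ ω ∈ q.1, g n ω = v) → q ∈ meets (x n v)

/-- a forcing is bounding: every function is eventually bounded by a ground model function -/
def Bding (P : Type) [Preorder P] : Prop := ∀ (x : ℕ → ℕ → Set P) (p : P), p ∈ IsFun x →
  ∃ h : ℕ → ℕ, p ∈ fex fun N => fall fun n => fimp (fground (N ≤ n)) (fall fun v =>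
    fimp (meets (x n v)) (fground (v ≤ h n)))

/-- BDR: from NAME. Choose `h n` such that `mu {ω | h n < g n ω} ≤ 2 ^ (-n)`; below `q ≤ p` choose
`N` with `∑ n ≥ N, 2 ^ (-n) < mu q` and remove these sets for `n ≥ N` from `q`. -/
def S_BDR : Prop := S_NAME → ∀ M : Type, Bding (RR M)

/-- TRANS: a bounding forcing preserves the statements (use names `n v ↦ {q | h n = v}` for
functions `h` of the ground model). -/
def S_TRANS : Prop := ∀ (P : Type) [Preorder P], Bding P → ∀ J : Set (Set ℕ), IsBase J →
  ∀ (T : Type) (p : P), (BddAll J T → p ∈ BddAllN P J T) ∧ (Unbdd J T → p ∈ UnbddN P J T) ∧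
    (NotDom J T → p ∈ NotDomN P J T) ∧ (Domin J T → p ∈ DominN P J T)

/-- IND: independence and Borel-Cantelli. For `v` with `v.unpair = (j, k)` the events
`{ω | g n ω = v}` (in `sg S`) and `{ω | ⌊2 ^ j * ω m⌋₊ = k}` (in `sg {m}`) are independent (e.g.
`ProbabilityTheory.iIndepFun_infinitePi`, `ProbabilityTheory.indep_iSup_of_disjoint`), the
second has measure at most `2 ^ (-j)`. So the event number `n` (restricted to `q`, an element of
`sg S`) has measure at most `∫_q 2 ^ (-j n)`, with sum at most `1`. -/
def S_IND : Prop := ∀ (M : Type) (S : Set M) (m : M) (g : ℕ → (M → unitInterval) → ℕ)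
  (q : Set (M → unitInterval)), m ∉ S → (∀ n v, MeasurableSet[sg S] {ω | g n ω = v}) →
  MeasurableSet[sg S] q → (∀ᵐ ω ∂(mu M), ω ∈ q → ∀ N, Small ((List.range N).map fun n => g n ω)) →
  ∀ᵐ ω ∂(mu M), ω ∈ q → ∃ N, ∀ n, N ≤ n →
    ⌊(2 : ℝ) ^ (g n ω).unpair.1 * (ω m : ℝ)⌋₊ ≠ (g n ω).unpair.2

/-- COVR: from NAME, SUP, IND. For a family `c` of names, below `q`, take the evaluations `g d` and
the supports `S d` of the names and of `q` and `m` outside all; `y` is the name
`j v ↦ {r | ∀ ω ∈ r.1, ⌊2 ^ j * ω m⌋₊ = v}`. By IND below each condition there is a stronger condition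
`r` and `N` such that all `ω ∈ r` and all `n ≥ N` satisfy the conclusion (take `N` with
`{ω ∈ r | N works}` of positive measure). -/
def S_COVR : Prop := S_NAME → S_SUP → S_IND → ∀ (M D : Type),
  (∀ A : D → Set M, (∀ d, (A d).Countable) → ∀ B : Set M, B.Countable →
    ∃ m, m ∉ B ∧ ∀ d, m ∉ A d) → ∀ p : RR M, p ∈ CovBigN (RR M) D

/-- Z1: the first sentence gives the ideal. For a tower `c` at `t` (linear order, `r t X ·` monotone),
let `J_t` be generated by the finite sets and the sets `{n | c a n < e X n}`, `r t X a`; it is proper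
by the tower property. A function with index `X`, `r t X a`, is `≤_{J_t} c a`. By `Cap`: every family
indexed by `Ω (t - 1)` has an upper bound `c a` modulo `J_t`; `{c a | a}` is unbounded modulo `J_t`
(if `f` bounds it, `f + 1 ≤ c a ≤ f`), it is dominating modulo `J_t`. The required ideal is
`{S | {n | 2 n ∈ S} ∈ J_1, {n | 2 n + 1 ∈ S} ∈ J_2}`. With `Ω 0 = K, Ω 1 = A, Ω 2 = B`:
`b ≤ #K` by `J_0`, `#K < b_J` since families indexed by `K` are bounded modulo `J_1` and modulo `J_2`
(`Cap (Ω 1) (r 2)` and `#K ≤ #A`), `b_J ≤ #A` by the tower 1, `#A < d_J` by `Cap (Ω 1) (r 2)`,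
`d_J ≤ #B` (index the dominating family by `A × B`, both infinite),
`#B < d` by the tower 3 and `Cap (Ω 2) (r 3)`. -/
def S_Z1 : Prop := ∀ (T D N : Type) (Ω : Fin 4 → Type) (r : ∀ t, N → Ω t → Prop),
  Phi1For T D N Ω r → ∃ J, IsIdeal J ∧ BddAll FinI T ∧ Unbdd FinI (Ω 0) ∧ BddAll J (Ω 0) ∧
    Unbdd J (Ω 1) ∧ NotDom J (Ω 1) ∧ Domin J (Ω 2) ∧ NotDom FinI (Ω 2) ∧ Domin FinI D

end Pool.Agent.H631.DB
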