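import Mathlib
import Pool.Agent.H631.DB.Stm2

/-!
# Task DB-COVR (helper296, for helper631)
-/

set_option autoImplicit false

namespace Pool.Agent.H631.DB.PCOVR

open Pool.Agent.H631.DB MeasureTheory Pool.Agent.Helper669.Forcing

variable {M : Type}

theorem sg_le (S : Set M) : sg S ≤ (MeasurableSpace.pi : MeasurableSpace (M → unitInterval)) :=
  iSup₂_le fun i _ => (measurable_pi_apply i).comap_le

theorem sg_mono {S S' : Set M} (h : S ⊆ S') : sg S ≤ sg S' :=
  iSup₂_le fun i hi => le_iSup₂_of_le i (h hi) le_rfl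

theorem ne (r : RR M) : r.1.Nonempty := nonempty_of_measure_ne_zero r.2.2

/-- a positive set covered by countably many sets has a positive piece -/
theorem pos (r : RR M) (E : ℕ → Set (M → unitInterval)) (hE : ∀ n, MeasurableSet (E n))
    (hcov : ∀ᵐ ω ∂(mu M), ω ∈ r.1 → ∃ n, ω ∈ E n) :
    ∃ n, ∃ r' : RR M, r' ≤ r ∧ r'.1 = r.1 ∩ E n := by
  by_contra hcon
  push Not at hcon
  have h0 : ∀ n, mu M (r.1 ∩ E n) = 0 := by
    intro n
    by_contra hn
    exact hcon n ⟨r.1 ∩ E n, r.2.1.inter (hE n), hn⟩ (fun ω hω => hω.1) rfl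
  apply r.2.2
  refine measure_mono_null (t := {ω | ¬ (ω ∈ r.1 → ∃ n, ω ∈ E n)} ∪ ⋃ n, (r.1 ∩ E n)) ?_ ?_
  · intro ω hω
    by_cases h : ∃ n, ω ∈ E n
    · obtain ⟨n, hn⟩ := h
      exact Or.inr (Set.mem_iUnion.2 ⟨n, hω, hn⟩)
    · left
      intro hc
      exact h (hc hω)
  · exact measure_union_null (ae_iff.1 hcov) (measure_iUnion_null h0)

/-- the digits function -/
noncomputable def fl (m : M) (j : ℕ) (ω : M → unitInterval) : ℕ := ⌊(2 : ℝ) ^ j * (ω m : ℝ)⌋₊

theorem meas_fl (m : M) (j : ℕ) : Measurable (fl m j) :=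
  Nat.measurable_floor.comp (measurable_const.mul
    (measurable_subtype_coe.comp (measurable_pi_apply m)))

theorem fl_succ (m : M) (j : ℕ) (ω : M → unitInterval) :
    fl m (j + 1) ω = 2 * fl m j ω ∨ fl m (j + 1) ω = 2 * fl m j ω + 1 := by
  unfold fl
  have h0 : (0 : ℝ) ≤ (ω m : ℝ) := (ω m).2.1
  have hx : (0 : ℝ) ≤ (2 : ℝ) ^ j * (ω m : ℝ) := by positivity
  have hy : (2 : ℝ) ^ (j + 1) * (ω m : ℝ) = 2 * ((2 : ℝ) ^ j * (ω m : ℝ)) := by ring
  rw [hy]
  have h1 := Nat.floor_le hx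
  have h2 := Nat.lt_floor_add_one ((2 : ℝ) ^ j * (ω m : ℝ))
  have h3 : 2 * ⌊(2 : ℝ) ^ j * (ω m : ℝ)⌋₊ ≤ ⌊2 * ((2 : ℝ) ^ j * (ω m : ℝ))⌋₊ := by
    apply Nat.le_floor
    push_cast
    linarith
  have h4 : ⌊2 * ((2 : ℝ) ^ j * (ω m : ℝ))⌋₊ < 2 * ⌊(2 : ℝ) ^ j * (ω m : ℝ)⌋₊ + 2 := by
    rw [Nat.floor_lt (by positivity)]
    push_cast
    linarith
  omega

/-- the name of the digits -/
def yy (m : M) (j v : ℕ) : Set (RR M) := {r | ∀ ω ∈ r.1, fl m j ω = v}

theorem down_yy (m : M) (j v : ℕ) : Down (yy m j v) :=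
  fun _ hp _ hq ω hω => hp ω (hq hω)

theorem yy_isFun (m : M) (r : RR M) : r ∈ IsFun (yy m) := by
  refine ⟨fun j => mem_fex.2 fun q _ => ?_, fun j v v' => mem_fimp.2 fun q _ hh => ?_⟩
  · obtain ⟨v, q', hq', hq2⟩ := pos q (fun v => {ω | fl m j ω = v})
      (fun v => measurableSet_eq_fun (meas_fl m j) measurable_const)
      (Filter.Eventually.of_forall fun ω _ => ⟨fl m j ω, rfl⟩)
    refine ⟨q', hq', v, meets_of_mem fun ω hω => ?_⟩
    rw [hq2] at hω
    exact hω.2
  · obtain ⟨q1, hq1, h1⟩ := exists_of_meets (down_yy m j v) hh.1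
    obtain ⟨q2, hq2, h2⟩ := exists_of_meets (down_yy m j v') (down_meets _ _ hh.2 _ hq1)
    obtain ⟨ω, hω⟩ := ne q2
    refine ⟨q, le_rfl, ?_⟩
    have e1 := h1 ω (hq2 hω)
    have e2 := h2 ω hω
    exact e1.symm.trans e2

/-- COVR -/
theorem th_COVR : S_CCCR → S_COVR := by
  intro _ hNAME hSUP hIND M D hM p
  refine mem_fall.2 fun c => mem_fimp.2 fun q _ hq => ⟨q, le_rfl, ?_⟩
  have hN := fun d => hNAME M (c d) q (hq d).1
  choose S g hScount hgm hgq using hN
  obtain ⟨B, hBc, hBm⟩ := hSUP M q.1 q.2.1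
  obtain ⟨m, hmB, hmS⟩ := hM S hScount B hBc
  have hgm' : ∀ d n v, MeasurableSet {ω | g d n ω = v} := fun d n v => sg_le _ _ (hgm d n v)
  have hgmeas : ∀ d n, Measurable (g d n) := fun d n =>
    measurable_to_countable' fun v => hgm' d n v
  -- the sums are small
  have hsmall : ∀ d, ∀ᵐ ω ∂(mu M), ω ∈ q.1 → ∀ N, Small ((List.range N).map fun n => g d n ω) := by
    intro d
    have h1 : ∀ s : List ℕ, ∀ᵐ ω ∂(mu M), ω ∈ q.1 →
        (∀ i, i < s.length → g d i ω = s.getD i 0) → Small s := by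
      intro s
      by_cases hs : Small s
      · exact Filter.Eventually.of_forall fun ω _ _ => hs
      · rw [ae_iff]
        by_contra hne
        have hmeas : MeasurableSet (q.1 ∩ ⋂ i, ⋂ (_ : i < s.length),
            {ω | g d i ω = s.getD i 0}) :=
          q.2.1.inter (MeasurableSet.iInter fun i => MeasurableSet.iInter fun _ => hgm' d i _)
        have hpos : mu M (q.1 ∩ ⋂ i, ⋂ (_ : i < s.length), {ω | g d i ω = s.getD i 0}) ≠ 0 := by
          intro h0
          apply hne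
          refine measure_mono_null ?_ h0
          intro ω hω
          simp only [Set.mem_ofPred_eq, not_forall] at hω
          obtain ⟨h1, h2, _⟩ := hω
          refine ⟨h1, ?_⟩
          simp only [Set.mem_iInter]
          exact fun i hi => h2 i hi
        have hle : (⟨_, hmeas, hpos⟩ : RR M) ≤ q := fun ω hω => hω.1
        have hinit : (⟨_, hmeas, hpos⟩ : RR M) ∈ InitSeg s (c d) := by
          intro i hi
          refine hgq d _ hle i _ ?_
          intro ω hω
          have h3 := hω.2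
          simp only [Set.mem_iInter] at h3
          exact h3 i hi
        obtain ⟨_, _, h3⟩ := mem_fimp.1 ((hq d).2 s) _ hle hinit
        exact hs h3
    have h2 := ae_all_iff.2 h1
    filter_upwards [h2] with ω hω hωq N
    refine hω _ hωq ?_
    intro i hi
    rw [List.length_map, List.length_range] at hi
    rw [List.getD_eq_getElem _ _ (by rw [List.length_map, List.length_range]; exact hi)]
    simp
  refine mem_fex.2 fun q' hq' => ⟨q', le_rfl, yy m, yy_isFun m q', ?_, ?_⟩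
  · intro j v w
    refine mem_fimp.2 fun q1 _ hh => ⟨q1, le_rfl, ?_⟩
    obtain ⟨q2, hq2, h1⟩ := exists_of_meets (down_yy m j v) hh.1
    obtain ⟨q3, hq3, h2⟩ := exists_of_meets (down_yy m (j + 1) w) (down_meets _ _ hh.2 _ hq2)
    obtain ⟨ω, hω⟩ := ne q3
    have e1 := h1 ω (hq3 hω)
    have e2 := h2 ω hω
    have e3 := fl_succ m j ω
    rw [e1, e2] at e3
    exact e3
  · intro d
    refine mem_fex.2 fun r hr => ?_
    have hI := hIND M (S d ∪ B) m (g d) q.1 (fun h => h.elim (hmS d) hmB)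
      (fun n v => sg_mono Set.subset_union_left _ (hgm d n v))
      (sg_mono Set.subset_union_right _ hBm) (hsmall d)
    have hE : ∀ N, MeasurableSet
        {ω : M → unitInterval | ∀ n, N ≤ n → fl m (g d n ω).unpair.1 ω ≠ (g d n ω).unpair.2} := by
      intro N
      have : {ω : M → unitInterval | ∀ n, N ≤ n →
          fl m (g d n ω).unpair.1 ω ≠ (g d n ω).unpair.2} =
          ⋂ n, ⋂ (_ : N ≤ n), ⋂ v, ({ω | g d n ω = v}ᶜ ∪ {ω | fl m v.unpair.1 ω = v.unpair.2}ᶜ) := by
        ext ω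
        simp only [Set.mem_ofPred_eq, Set.mem_iInter, Set.mem_union, Set.mem_compl_iff]
        constructor
        · intro h n hn v
          by_cases hv : g d n ω = v
          · right
            rw [← hv]
            exact h n hn
          · exact Or.inl hv
        · intro h n hn
          exact (h n hn (g d n ω)).resolve_left (fun h => h rfl)
      rw [this]
      refine MeasurableSet.iInter fun n => MeasurableSet.iInter fun _ => MeasurableSet.iInter
        fun v => ((hgm' d n v).compl.union ?_)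
      exact (measurableSet_eq_fun (meas_fl m _) measurable_const).compl
    have hcov : ∀ᵐ ω ∂(mu M), ω ∈ r.1 → ∃ N, ω ∈
        {ω : M → unitInterval | ∀ n, N ≤ n → fl m (g d n ω).unpair.1 ω ≠ (g d n ω).unpair.2} := by
      filter_upwards [hI] with ω hω hωr
      exact hω (hq' (hr hωr))
    obtain ⟨N, r', hr', hr2⟩ := pos r _ hE hcov
    refine ⟨r', hr', N, ?_⟩
    intro n
    refine mem_fimp.2 fun q1 hq1 hNn => ⟨q1, le_rfl, fun v => ?_⟩
    refine mem_fimp.2 fun q2 hq2 hmeets => ?_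
    obtain ⟨v', q3, hq3, hq4⟩ := pos q2 (fun v => {ω | g d n ω = v})
      (fun v => hgm' d n v) (Filter.Eventually.of_forall fun ω _ => ⟨g d n ω, rfl⟩)
    have hq3q : q3 ≤ q := hq3.trans (hq2.trans (hq1.trans (hr'.trans (hr.trans hq'))))
    have hv : v = v' := by
      refine IsFun.unique (down_IsFun _ _ (hq d).1 _ hq3q) (down_meets _ _ hmeets _ hq3)
        (hgq d q3 hq3q n v' ?_)
      intro ω hω
      rw [hq4] at hω
      exact hω.2
    subst hv
    refine ⟨q3, hq3, ?_⟩
    intro q5 hq5 hmy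
    obtain ⟨q6, hq6, h6⟩ := exists_of_meets (down_yy m _ _) hmy
    obtain ⟨ω, hω⟩ := ne q6
    have hω3 : ω ∈ q3.1 := hq5 (hq6 hω)
    have hωr : ω ∈ r'.1 := hq1 (hq2 (hq3 hω3))
    rw [hr2] at hωr
    rw [hq4] at hω3
    have e1 : g d n ω = v := hω3.2
    have e2 := hωr.2 n hNn
    rw [e1] at e2
    exact e2 (h6 ω hω)

end Pool.Agent.H631.DB.PCOVR
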