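import Pool.Agent.H631.DB.Stm2

set_option autoImplicit false

namespace Pool.Agent.H631.DB.PCOVZ

open Cardinal MeasureTheory Set Pool.Agent.H631.DB
open scoped ENNReal

theorem exJ {a : ℝ≥0∞} (h0 : 0 < a) (h1 : a ≤ 1) :
    ∃ J : ℕ, a ≤ (2⁻¹ : ℝ≥0∞) ^ J ∧ (2⁻¹ : ℝ≥0∞) ^ J ≤ 2 * a := by
  have htop : a ≠ ⊤ := ne_top_of_le_ne_top ENNReal.one_ne_top h1
  have hx0 : 0 < a.toReal := ENNReal.toReal_pos h0.ne' htop
  have hx1 : a.toReal ≤ 1 := by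
    rw [← ENNReal.toReal_one]
    exact ENNReal.toReal_mono ENNReal.one_ne_top h1
  obtain ⟨J, hJ1, hJ2⟩ := exists_nat_pow_near_of_lt_one hx0 hx1 (y := (1 / 2 : ℝ)) (by norm_num)
    (by norm_num)
  have ha : a = ENNReal.ofReal a.toReal := (ENNReal.ofReal_toReal htop).symm
  have hw : (2⁻¹ : ℝ≥0∞) ^ J = ENNReal.ofReal ((1 / 2 : ℝ) ^ J) := by
    rw [ENNReal.ofReal_pow (by norm_num)]
    congr 1
    rw [one_div, ENNReal.ofReal_inv_of_pos (by norm_num)]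
    norm_num
  refine ⟨J, ?_, ?_⟩
  · rw [hw, ha]
    exact ENNReal.ofReal_le_ofReal hJ2
  · have h2 : (2 : ℝ≥0∞) = ENNReal.ofReal 2 := by norm_num
    rw [hw, ha, h2, ← ENNReal.ofReal_mul (by norm_num)]
    refine ENNReal.ofReal_le_ofReal ?_
    rw [pow_succ] at hJ1
    linarith

theorem cov1 {A : Set ℝ} (hA : volume A = 0) {ε : ℝ≥0∞} (hε : 0 < ε) (hε1 : ε ≤ 2⁻¹) :
    ∃ J K : ℕ → ℕ, ∑' n, (2⁻¹ : ℝ≥0∞) ^ J n ≤ 6 * ε ∧
      ∀ x ∈ A, ∀ y : ℕ → ℕ, (∀ j, (y j : ℝ) ≤ 2 ^ j * x ∧ 2 ^ j * x ≤ y j + 1) →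
        ∃ n, ∃ i : Fin 4, y (J n) = K n + i := by
  rw [← hausdorffMeasure_real, Measure.hausdorffMeasure_apply] at hA
  have h1 := le_of_eq hA
  rw [iSup_le_iff] at h1
  have h2 := h1 1
  rw [iSup_le_iff] at h2
  have h3 := lt_of_le_of_lt (h2 one_pos) hε
  rw [iInf_lt_iff] at h3
  obtain ⟨t, h4⟩ := h3
  rw [iInf_lt_iff] at h4
  obtain ⟨ht, h5⟩ := h4
  rw [iInf_lt_iff] at h5
  obtain ⟨-, h6⟩ := h5
  obtain ⟨Dn, hDn⟩ : ∃ Dn : ℕ → ℝ≥0∞, ∀ n, Dn n = ⨆ _ : (t n).Nonempty,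
    Metric.ediam (t n) ^ (1 : ℝ) := ⟨_, fun _ => rfl⟩
  have h7 : ∑' n, Dn n < ε := by
    rw [tsum_congr hDn]
    exact h6
  have hpow : ∀ n : ℕ, (2⁻¹ : ℝ≥0∞) ^ n ≤ 1 := fun n =>
    pow_le_one' (ENNReal.inv_le_one.2 one_le_two) n
  have hpos : ∀ n : ℕ, 0 < (2⁻¹ : ℝ≥0∞) ^ n := fun n =>
    ENNReal.pow_pos (ENNReal.inv_pos.2 ENNReal.ofNat_ne_top) n
  have ha0 : ∀ n, 0 < Dn n + ε * (2⁻¹ : ℝ≥0∞) ^ n := fun n =>
    lt_of_lt_of_le (ENNReal.mul_pos hε.ne' (hpos n).ne') le_add_self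
  have ha1 : ∀ n, Dn n + ε * (2⁻¹ : ℝ≥0∞) ^ n ≤ 1 := by
    intro n
    have h8 : Dn n ≤ 2⁻¹ := (ENNReal.le_tsum n).trans (h7.le.trans hε1)
    have h9 : ε * (2⁻¹ : ℝ≥0∞) ^ n ≤ 2⁻¹ := by
      calc ε * (2⁻¹ : ℝ≥0∞) ^ n ≤ 2⁻¹ * 1 := mul_le_mul' hε1 (hpow n)
        _ = 2⁻¹ := mul_one _
    calc Dn n + ε * (2⁻¹ : ℝ≥0∞) ^ n ≤ 2⁻¹ + 2⁻¹ := add_le_add h8 h9
      _ = 1 := ENNReal.inv_two_add_inv_two
  choose J hJ1 hJ2 using fun n => exJ (ha0 n) (ha1 n)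
  classical
  obtain ⟨b, hb⟩ : ∃ b : ℕ → ℝ, ∀ n, (t n).Nonempty → b n ∈ t n := by
    refine ⟨fun n => if h : (t n).Nonempty then h.choose else 0, fun n h => ?_⟩
    show (if h : (t n).Nonempty then h.choose else 0) ∈ t n
    rw [dif_pos h]
    exact h.choose_spec
  refine ⟨J, fun n => ⌈2 ^ J n * b n - 2⌉₊, ?_, ?_⟩
  · calc ∑' n, (2⁻¹ : ℝ≥0∞) ^ J n ≤ ∑' n, 2 * (Dn n + ε * (2⁻¹ : ℝ≥0∞) ^ n) :=
          ENNReal.tsum_le_tsum hJ2
      _ = 2 * (∑' n, Dn n + ε * 2) := by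
          rw [ENNReal.tsum_mul_left, ENNReal.tsum_add, ENNReal.tsum_mul_left,
            ENNReal.tsum_geometric, ENNReal.one_sub_inv_two, inv_inv]
      _ ≤ 2 * (ε + ε * 2) := by gcongr
      _ = 6 * ε := by ring
  · intro x hx y hy
    obtain ⟨n, hn⟩ := mem_iUnion.1 (ht hx)
    have hne : (t n).Nonempty := ⟨x, hn⟩
    have hd : edist x (b n) ≤ (2⁻¹ : ℝ≥0∞) ^ J n := by
      refine (Metric.edist_le_ediam_of_mem hn (hb n hne)).trans ?_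
      refine le_trans ?_ (hJ1 n)
      refine le_trans ?_ le_self_add
      rw [hDn n]
      refine le_trans (le_of_eq (ENNReal.rpow_one _).symm) ?_
      exact le_iSup (fun _ : (t n).Nonempty => Metric.ediam (t n) ^ (1 : ℝ)) hne
    have hd2 : |x - b n| ≤ (1 / 2 : ℝ) ^ J n := by
      rw [edist_dist, Real.dist_eq] at hd
      have hw : (2⁻¹ : ℝ≥0∞) ^ J n = ENNReal.ofReal ((1 / 2 : ℝ) ^ J n) := by
        rw [ENNReal.ofReal_pow (by norm_num)]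
        congr 1
        rw [one_div, ENNReal.ofReal_inv_of_pos (by norm_num)]
        norm_num
      rw [hw] at hd
      exact (ENNReal.ofReal_le_ofReal_iff (by positivity)).1 hd
    have hp : (0 : ℝ) < 2 ^ J n := by positivity
    have hd3 : |2 ^ J n * x - 2 ^ J n * b n| ≤ 1 := by
      rw [← mul_sub, abs_mul, abs_of_pos hp]
      calc 2 ^ J n * |x - b n| ≤ 2 ^ J n * (1 / 2 : ℝ) ^ J n :=
            mul_le_mul_of_nonneg_left hd2 hp.le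
        _ = 1 := by
            rw [← mul_pow]
            norm_num
    obtain ⟨hd4, hd5⟩ := abs_le.1 hd3
    obtain ⟨hy1, hy2⟩ := hy (J n)
    have hK1 : ⌈2 ^ J n * b n - 2⌉₊ ≤ y (J n) := by
      rw [Nat.ceil_le]
      linarith
    have hK2 : y (J n) ≤ ⌈2 ^ J n * b n - 2⌉₊ + 3 := by
      have h8 := Nat.le_ceil (2 ^ J n * b n - 2)
      have h9 : (y (J n) : ℝ) ≤ ((⌈2 ^ J n * b n - 2⌉₊ + 3 : ℕ) : ℝ) := by
        push_cast
        linarith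
      exact_mod_cast h9
    refine ⟨n, ⟨y (J n) - ⌈2 ^ J n * b n - 2⌉₊, by omega⟩, ?_⟩
    show y (J n) = ⌈2 ^ J n * b n - 2⌉₊ + (y (J n) - ⌈2 ^ J n * b n - 2⌉₊)
    omega

theorem sum_range_list (f : ℕ → ℝ) (n : ℕ) :
    ((List.range n).map f).sum = ∑ i ∈ Finset.range n, f i := by
  induction n with
  | zero => simp
  | succ n ih => rw [List.range_succ, List.map_append, List.sum_append, ih,
      Finset.sum_range_succ]; simp

theorem code {A : Set ℝ} (hA : volume A = 0) : ∃ c : ℕ → ℕ,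
    (∀ s : List ℕ, (∀ i, i < s.length → c i = s.getD i 0) → Pool.Agent.H631.DB.Small s) ∧
    ∀ x ∈ A, ∀ y : ℕ → ℕ, (∀ j, (y j : ℝ) ≤ 2 ^ j * x ∧ 2 ^ j * x ≤ y j + 1) →
      ∀ N, ∃ n, N ≤ n ∧ y (c n).unpair.1 = (c n).unpair.2 := by
  have hε : ∀ m : ℕ, 0 < (2⁻¹ : ℝ≥0∞) ^ (m + 6) := fun n =>
    ENNReal.pow_pos (ENNReal.inv_pos.2 ENNReal.ofNat_ne_top) _
  have hε1 : ∀ m : ℕ, (2⁻¹ : ℝ≥0∞) ^ (m + 6) ≤ 2⁻¹ := by
    intro m
    calc (2⁻¹ : ℝ≥0∞) ^ (m + 6) ≤ (2⁻¹ : ℝ≥0∞) ^ 1 :=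
          pow_le_pow_right_of_le_one' (ENNReal.inv_le_one.2 one_le_two) (by omega)
      _ = 2⁻¹ := pow_one _
  choose J K hJ hK using fun m : ℕ => cov1 hA (hε m) (hε1 m)
  obtain ⟨e⟩ : Nonempty (ℕ ≃ ℕ × ℕ × Fin 4) := nonempty_equiv_of_countable
  obtain ⟨c, hc⟩ : ∃ c : ℕ → ℕ, ∀ a, c a =
    Nat.pair (J (e a).1 (e a).2.1) (K (e a).1 (e a).2.1 + (e a).2.2) := ⟨_, fun _ => rfl⟩
  have hc1 : ∀ a, (c a).unpair.1 = J (e a).1 (e a).2.1 := by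
    intro a
    rw [hc, Nat.unpair_pair]
  have hc2 : ∀ a, (c a).unpair.2 = K (e a).1 (e a).2.1 + (e a).2.2 := by
    intro a
    rw [hc, Nat.unpair_pair]
  have htot : ∑' a, (2⁻¹ : ℝ≥0∞) ^ (c a).unpair.1 ≤ 1 := by
    have e1 : ∑' a, (2⁻¹ : ℝ≥0∞) ^ (c a).unpair.1 =
        ∑' z : ℕ × ℕ × Fin 4, (2⁻¹ : ℝ≥0∞) ^ (J z.1 z.2.1) := by
      rw [← e.tsum_eq]
      exact tsum_congr fun a => by rw [hc1]
    rw [e1, ENNReal.tsum_prod']
    have e2 : ∀ m : ℕ, ∑' z : ℕ × Fin 4, (2⁻¹ : ℝ≥0∞) ^ (J m z.1) ≤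
        24 * (2⁻¹ : ℝ≥0∞) ^ (m + 6) := by
      intro m
      rw [ENNReal.tsum_prod']
      have e3 : ∀ n : ℕ, ∑' _i : Fin 4, (2⁻¹ : ℝ≥0∞) ^ (J m n) = 4 * (2⁻¹ : ℝ≥0∞) ^ (J m n) := by
        intro n
        rw [tsum_fintype, Finset.sum_const, Finset.card_univ, Fintype.card_fin, nsmul_eq_mul]
        norm_num
      calc ∑' n, ∑' _i : Fin 4, (2⁻¹ : ℝ≥0∞) ^ (J m n) = 4 * ∑' n, (2⁻¹ : ℝ≥0∞) ^ (J m n) := by
            rw [tsum_congr e3, ENNReal.tsum_mul_left]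
        _ ≤ 4 * (6 * (2⁻¹ : ℝ≥0∞) ^ (m + 6)) := by
            gcongr
            exact hJ m
        _ = 24 * (2⁻¹ : ℝ≥0∞) ^ (m + 6) := by ring
    calc ∑' m : ℕ, ∑' z : ℕ × Fin 4, (2⁻¹ : ℝ≥0∞) ^ (J m z.1) ≤
          ∑' m : ℕ, 24 * (2⁻¹ : ℝ≥0∞) ^ (m + 6) := ENNReal.tsum_le_tsum e2
      _ = 24 * (2 * (2⁻¹ : ℝ≥0∞) ^ 6) := by
          rw [ENNReal.tsum_mul_left]
          congr 1
          simp_rw [pow_add]
          rw [ENNReal.tsum_mul_right, ENNReal.tsum_geometric, ENNReal.one_sub_inv_two, inv_inv]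
      _ ≤ 1 := by
          have h2 : (2⁻¹ : ℝ≥0∞) = ENNReal.ofReal (1 / 2) := by
            rw [one_div, ENNReal.ofReal_inv_of_pos (by norm_num)]
            norm_num
          have h3 : (2 : ℝ≥0∞) = ENNReal.ofReal 2 := by norm_num
          have h4 : (24 : ℝ≥0∞) = ENNReal.ofReal 24 := by norm_num
          rw [h2, h3, h4, ← ENNReal.ofReal_pow (by norm_num), ← ENNReal.ofReal_mul (by norm_num),
            ← ENNReal.ofReal_mul (by norm_num), ← ENNReal.ofReal_one]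
          exact ENNReal.ofReal_le_ofReal (by norm_num)
  refine ⟨c, ?_, ?_⟩
  · intro s hs
    have hs2 : s = (List.range s.length).map c := by
      refine List.ext_getElem (by simp) fun i h1 h2 => ?_
      rw [List.getElem_map, List.getElem_range, hs i h1]
      exact (List.getD_eq_getElem s 0 h1).symm
    unfold Pool.Agent.H631.DB.Small
    rw [hs2, List.map_map, sum_range_list]
    have h1 : ENNReal.ofReal (∑ i ∈ Finset.range s.length,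
        ((fun v => (1 / 2 : ℝ) ^ v.unpair.1) ∘ c) i) ≤ ENNReal.ofReal 1 := by
      rw [ENNReal.ofReal_sum_of_nonneg (fun i _ => by
        show 0 ≤ (1 / 2 : ℝ) ^ (c i).unpair.1
        positivity), ENNReal.ofReal_one]
      refine le_trans (le_of_eq ?_) ((ENNReal.sum_le_tsum (Finset.range s.length)).trans htot)
      refine Finset.sum_congr rfl fun i _ => ?_
      show ENNReal.ofReal ((1 / 2 : ℝ) ^ (c i).unpair.1) = (2⁻¹ : ℝ≥0∞) ^ (c i).unpair.1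
      rw [ENNReal.ofReal_pow (by norm_num)]
      congr 1
      rw [one_div, ENNReal.ofReal_inv_of_pos (by norm_num)]
      norm_num
    exact (ENNReal.ofReal_le_ofReal_iff zero_le_one).1 h1
  · intro x hx y hy N
    obtain ⟨m, hm⟩ := Infinite.exists_notMem_finset ((Finset.range N).image fun a => (e a).1)
    obtain ⟨n, i, hni⟩ := hK m x hx y hy
    refine ⟨e.symm (m, n, i), ?_, ?_⟩
    · by_contra hlt
      refine hm (Finset.mem_image.2 ⟨e.symm (m, n, i), Finset.mem_range.2 (not_le.1 hlt), ?_⟩)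
      rw [Equiv.apply_symm_apply]
    · rw [hc1, hc2, Equiv.apply_symm_apply]
      exact hni

theorem real_of {y : ℕ → ℕ} (hy : ∀ j, y (j + 1) = 2 * y j ∨ y (j + 1) = 2 * y j + 1) :
    ∃ x : ℝ, ∀ j, (y j : ℝ) ≤ 2 ^ j * x ∧ 2 ^ j * x ≤ y j + 1 := by
  have hmono : Monotone (fun j : ℕ => (y j : ℝ) / 2 ^ j) := by
    refine monotone_nat_of_le_succ fun j => ?_
    have h1 : 2 * (y j : ℝ) ≤ y (j + 1) := by
      rcases hy j with h | h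
      · rw [h]; push_cast; linarith
      · rw [h]; push_cast; linarith
    rw [div_le_div_iff₀ (by positivity) (by positivity), pow_succ]
    have hp : (0 : ℝ) < 2 ^ j := by positivity
    nlinarith
  have hanti : Antitone (fun j : ℕ => ((y j : ℝ) + 1) / 2 ^ j) := by
    refine antitone_nat_of_succ_le fun j => ?_
    have h1 : (y (j + 1) : ℝ) ≤ 2 * y j + 1 := by
      rcases hy j with h | h
      · rw [h]; push_cast; linarith
      · rw [h]; push_cast; linarith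
    rw [div_le_div_iff₀ (by positivity) (by positivity), pow_succ]
    have hp : (0 : ℝ) < 2 ^ j := by positivity
    nlinarith
  have hle : (fun j : ℕ => (y j : ℝ) / 2 ^ j) ≤ fun j : ℕ => ((y j : ℝ) + 1) / 2 ^ j := by
    intro j
    show (y j : ℝ) / 2 ^ j ≤ ((y j : ℝ) + 1) / 2 ^ j
    gcongr
    linarith
  have h := hmono.ciSup_mem_iInter_Icc_of_antitone hanti hle
  refine ⟨⨆ n, (y n : ℝ) / 2 ^ n, fun j => ?_⟩
  have h2 := mem_iInter.1 h j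
  have hp : (0 : ℝ) < 2 ^ j := by positivity
  have h3 := (div_le_iff₀ hp).1 h2.1
  have h4 := (le_div_iff₀ hp).1 h2.2
  rw [mul_comm]
  exact ⟨h3, h4⟩

theorem th_COVZ : S_COVZ := by
  classical
  intro D hD
  by_contra hlt
  rw [not_lt] at hlt
  have hne : {κ | ∃ F : Set (Set ℝ), #F = κ ∧ (∀ A ∈ F, MeasureTheory.volume A = 0) ∧
      ⋃₀ F = Set.univ}.Nonempty := by
    refine ⟨_, Set.range (fun x : ℝ => ({x} : Set ℝ)), rfl, ?_, ?_⟩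
    · rintro _ ⟨x, rfl⟩
      exact Real.volume_singleton
    · refine eq_univ_of_forall fun x => ?_
      exact mem_sUnion.2 ⟨{x}, ⟨x, rfl⟩, rfl⟩
  obtain ⟨F, hF1, hF2, hF3⟩ := csInf_mem hne
  have hle : #F ≤ #D := by
    rw [hF1]
    exact hlt
  obtain ⟨i⟩ := hle
  obtain ⟨AD, hAD⟩ : ∃ AD : D → {A : Set ℝ // volume A = 0}, ∀ A : F, (AD (i A)).1 = A.1 := by
    refine ⟨fun d => if h : ∃ A : F, i A = d then ⟨h.choose.1, hF2 _ h.choose.2⟩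
      else ⟨∅, measure_empty⟩, fun A => ?_⟩
    have h : ∃ B : F, i B = i A := ⟨A, rfl⟩
    show (if h : ∃ B : F, i B = i A then (⟨h.choose.1, hF2 _ h.choose.2⟩ :
      {A : Set ℝ // volume A = 0}) else ⟨∅, measure_empty⟩).1 = A.1
    rw [dif_pos h]
    exact congrArg Subtype.val (i.injective h.choose_spec)
  choose c hc1 hc2 using fun d => code (AD d).2
  obtain ⟨y, hy1, hy2⟩ := hD c hc1
  obtain ⟨x, hx⟩ := real_of hy1
  have hxF : x ∈ ⋃₀ F := by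
    rw [hF3]
    exact mem_univ x
  obtain ⟨A, hA, hxA⟩ := mem_sUnion.1 hxF
  obtain ⟨N, hN⟩ := hy2 (i ⟨A, hA⟩)
  have hxA2 : x ∈ (AD (i ⟨A, hA⟩)).1 := by
    rw [hAD]
    exact hxA
  obtain ⟨n, hn1, hn2⟩ := hc2 (i ⟨A, hA⟩) x hxA2 y hx N
  exact hN n hn1 hn2

end Pool.Agent.H631.DB.PCOVZ
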