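import Pool.Agent.H631.DB.Stm1

/-!
# DOM: the generic functions dominate
-/

set_option autoImplicit false

namespace Pool.Agent.H631.DB.PDOM

open Pool.Agent.H631.DB Pool.Agent.Helper669.Forcing

theorem th_DOM : S_CCC → S_COH → S_BOUND → S_DOM := by
  intro hccc hcoh hb M I D Γ ev hs p
  refine mem_fex.2 fun p1 _ => ⟨p1, le_rfl, fun k => coh Γ (ev k), fun k => hcoh M I Γ (ev k) p1, ?_⟩
  intro ψ
  refine mem_fimp.2 fun q _ hψ => ⟨q, le_rfl, ?_⟩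
  obtain ⟨X, hX⟩ := exists_raw (hccc M I Γ) hψ
  obtain ⟨l, h1, m, h2⟩ := hs X
  refine mem_fex.2 fun r hr => ⟨r, le_rfl, l, ?_⟩
  exact hb M I Γ (ev l) m X h2 h1 ψ r (down_IsFun _ _ hψ _ hr) (hX.mono hr)

end Pool.Agent.H631.DB.PDOM
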