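import Pool.Agent.H631.DB.Stm1

/-!
`evn` is a name of a function.
-/

set_option autoImplicit false
set_option linter.unusedSectionVars false

namespace Pool.Agent.H631.DB.PEVN

open Cardinal Pool.Agent.Helper669.Forcing Pool.Agent.H631.DB

theorem th_EVN : S_EVN := by
  intro M I Γ X p
  refine mem_fand.2 ⟨mem_fall.2 fun n => mem_fex.2 fun q _ => ?_,
    mem_fall.2 fun n => mem_fall.2 fun v => mem_fall.2 fun v' => mem_fimp.2 fun q _ hq => ?_⟩
  · obtain ⟨t, ht, v, hv⟩ := Val.dense (Γ := Γ) low_univ (PP.toC q) X n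
    exact ⟨t, ht, v, meets_of_mem (P := PP Γ) hv⟩
  · obtain ⟨h1, h2⟩ := mem_fand.1 hq
    obtain ⟨r, hr, s, hs, hrs⟩ := h1 q le_rfl
    obtain ⟨r', hr', s', hs', hrs'⟩ := h2 r hr
    have e1 : Val (le Γ Set.univ) (PP.toC r') X n v :=
      Val.mono (Γ := Γ) low_univ hs (hr'.trans hrs : r' ≤ s)
    have e2 : Val (le Γ Set.univ) (PP.toC r') X n v' :=
      Val.mono (Γ := Γ) low_univ hs' hrs'
    exact ⟨q, le_rfl, Val.unique e1 e2⟩

end Pool.Agent.H631.DB.PEVN
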