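import Pool.Agent.H631.DB.Stm1

/-!
# FORCE: assembly (helper83 for helper631)
-/

set_option autoImplicit false
set_option linter.unusedSectionVars false

namespace Pool.Agent.H631.DB.PFORCE

open Cardinal Pool.Agent.Helper669.Forcing Pool.Agent.H631.DB

theorem th_FORCE : S_CCC → S_COH → S_EVN → S_BDD → S_DOM → S_TOWER → S_CAP → S_TL → S_SUPP →
    S_TYPES → S_FORCE := by
  intro hCCC hCOH hEVN hBDD hDOM hTOW hCAP hTL hSUPP hTYPES R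
  obtain ⟨T, Ω, iL, iW, iN, Λ, code, hR, hT, hcode, hN, hTb, h01, h12, h23⟩ := hTYPES R
  obtain ⟨t1, t2, t3, t4, t5, t6⟩ := @hTL Ω iL iW Λ code
  have hU : ∀ t, ∀ f : Unit → Ω t, ∃ β, ∀ k, f k < β := by
    intro t f
    obtain ⟨β, hβ⟩ := hN t fun _ => f ()
    exact ⟨β, fun k => hβ 0⟩
  have hsU := @hSUPP Ω iL iW iN Λ Unit
  have hsT := @hSUPP Ω iL iW iN Λ T
  have hs0 := @hSUPP Ω iL iW iN Λ (Ω 0)
  have hs1 := @hSUPP Ω iL iW iN Λ (Ω 1)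
  have hs2 := @hSUPP Ω iL iW iN Λ (Ω 2)
  refine ⟨T, (∀ t, Ω t), Nm Λ (Ix Ω), Ω, fun t X a => Supp (Tl t a) X, PP (GB code),
    inferInstance, hR, hT, ⟨Cond.one⟩, ?_, ?_⟩
  · intro A hA
    by_contra hc
    obtain ⟨p, hp, q, hq, hne, r, h1, h2⟩ := hCCC Λ (Ix Ω) (GB code) A hc
    exact hA p hp q hq hne ⟨r, h1, h2⟩
  · intro p
    refine mem_fand.2 ⟨?_, mem_fand.2 ⟨?_, mem_fex.2 fun q hq => ⟨q, le_rfl, evn (GB code), ?_⟩⟩⟩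
    · refine hBDD Λ (Ix Ω) T (GB code) (fun X => ?_) p
      obtain ⟨x, hx⟩ := hsT.2 hN hTb X
      refine ⟨Ix.ev x, fun t => ⟨?_, code (X t), t6 hcode x (X t) (hx t)⟩⟩
      rw [t5]
      exact hx t
    · refine hDOM Λ (Ix Ω) (∀ t, Ω t) (GB code) Ix.ev (fun X => ?_) p
      obtain ⟨x, hx⟩ := hsU.2 hN hU fun _ => X
      refine ⟨x, ?_, code X, t6 hcode x X (hx ())⟩
      rw [t5]
      exact hx ()
    · refine mem_fand.2 ⟨fun X => hEVN Λ (Ix Ω) (GB code) X q, mem_fand.2 ⟨?_, mem_fand.2 ⟨?_,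
        mem_fand.2 ⟨?_, mem_fand.2 ⟨?_, ?_⟩⟩⟩⟩⟩
      · exact hCAP Λ (Ix Ω) (Ω 0) Unit (GB code) (Tl 0)
          (fun X => hsU.1 0 (hN 0) (hU 0) X) q
      · exact hCAP Λ (Ix Ω) (Ω 1) (Ω 0) (GB code) (Tl 1)
          (fun X => hs0.1 1 (hN 1) h01 X) q
      · exact hCAP Λ (Ix Ω) (Ω 2) (Ω 1) (GB code) (Tl 2)
          (fun X => hs1.1 2 (hN 2) h12 X) q
      · exact hCAP Λ (Ix Ω) (Ω 3) (Ω 2) (GB code) (Tl 3)
          (fun X => hs2.1 3 (hN 3) h23 X) q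
      · intro t
        exact hTOW Λ (Ix Ω) (Ω t) (GB code) (Ix.co t) (Tl t)
          (fun a b h => by cases h; rfl) (t1 t) (t2 t) (t3 t) (t4 t) q

end Pool.Agent.H631.DB.PFORCE
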