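import Mathlib
import Pool.Graph.R_seed8.Helper669.Forcing

/-!
# The sentences: bounding and dominating numbers modulo ideals, covering of the null ideal

Each statement comes in two versions: the plain one, and its literal translation into the forcing
language (functions are given by names of their graphs).
-/

set_option autoImplicit false
set_option linter.unusedSectionVars false

namespace Pool.Agent.H631.DB

open Cardinal Pool.Agent.Helper669.Forcing

/-! ### Ideals and cardinals -/

/-- `J` is an ideal on `ℕ`: proper, and it contains every finite set. -/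
def IsIdeal (J : Set (Set ℕ)) : Prop :=
  (∀ S ∈ J, ∀ S', S' ⊆ S → S' ∈ J) ∧ (∀ S ∈ J, ∀ S' ∈ J, S ∪ S' ∈ J) ∧
    (∀ S : Set ℕ, S.Finite → S ∈ J) ∧ Set.univ ∉ J

/-- the ideal of the finite sets -/
def FinI : Set (Set ℕ) := {S | S.Finite}

/-- `f ≤_J g` -/
def LeJ (J : Set (Set ℕ)) (f g : ℕ → ℕ) : Prop := {n | g n < f n} ∈ J

/-- the bounding number modulo `J` -/
noncomputable def bnum (J : Set (Set ℕ)) : Cardinal.{0} :=
  sInf {κ | ∃ F : Set (ℕ → ℕ), #F = κ ∧ ¬ ∃ g, ∀ f ∈ F, LeJ J f g}

/-- the dominating number modulo `J` -/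
noncomputable def dnum (J : Set (Set ℕ)) : Cardinal.{0} :=
  sInf {κ | ∃ F : Set (ℕ → ℕ), #F = κ ∧ ∀ f, ∃ g ∈ F, LeJ J f g}

/-- the covering number of the null ideal: the least cardinality of a family of Lebesgue null sets
of reals whose union is the real line -/
noncomputable def covN : Cardinal.{0} :=
  sInf {κ | ∃ F : Set (Set ℝ), #F = κ ∧ (∀ A ∈ F, MeasureTheory.volume A = 0) ∧
    ⋃₀ F = Set.univ}

/-- `J` is a base of an ideal on `ℕ`. -/
def IsBase (J : Set (Set ℕ)) : Prop :=
  (∀ S ∈ J, ∀ S' ∈ J, ∃ U ∈ J, S ∪ S' ⊆ U) ∧ (∀ F : Set ℕ, F.Finite → ∃ U ∈ J, F ⊆ U) ∧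
    Set.univ ∉ J

/-- the ideal generated by a base -/
def gen (J : Set (Set ℕ)) : Set (Set ℕ) := {S | ∃ U ∈ J, S ⊆ U}

/-! ### Plain statements; `J` is a family of subsets of `ℕ` -/

/-- `x` is below `y` outside a set in `J` -/
def LeB (J : Set (Set ℕ)) (x y : ℕ → ℕ) : Prop := ∃ S : J, ∀ n, n ∉ S.1 → x n ≤ y n

/-- every family indexed by `T` is bounded -/
def BddAll (J : Set (Set ℕ)) (T : Type) : Prop :=
  ∀ f : T → ℕ → ℕ, ∃ h : ℕ → ℕ, ∀ t, LeB J (f t) h

/-- some family indexed by `T` is unbounded -/
def Unbdd (J : Set (Set ℕ)) (T : Type) : Prop :=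
  ∃ c : T → ℕ → ℕ, ∀ f : ℕ → ℕ, ∃ t, ¬ LeB J (c t) f

/-- no family indexed by `T` is dominating -/
def NotDom (J : Set (Set ℕ)) (T : Type) : Prop :=
  ∀ f : T → ℕ → ℕ, ∃ g : ℕ → ℕ, ∀ t, ¬ LeB J g (f t)

/-- some family indexed by `T` is dominating -/
def Domin (J : Set (Set ℕ)) (T : Type) : Prop :=
  ∃ h : T → ℕ → ℕ, ∀ f : ℕ → ℕ, ∃ t, LeB J f (h t)

/-- The sum of `2 ^ (-j)` over the members of the list is at most `1`, where a number `v` with
`v.unpair = (j, k)` stands for the dyadic interval `[k / 2 ^ j, (k + 1) / 2 ^ j)`. -/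
def Small (s : List ℕ) : Prop := (s.map fun v => (1 / 2 : ℝ) ^ v.unpair.1).sum ≤ 1

/-- For every family, indexed by `D`, of codes of null sets (sequences of dyadic intervals with
sum of lengths at most `1`; the null set consists of the points in infinitely many of them)
there is a real (given by the integer parts `y j` of its products with `2 ^ j`) which is in none
of the coded null sets. -/
def CovBig (D : Type) : Prop :=
  ∀ c : D → ℕ → ℕ, (∀ d, ∀ s : List ℕ, (∀ i, i < s.length → c d i = s.getD i 0) → Small s) →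
    ∃ y : ℕ → ℕ, (∀ j, y (j + 1) = 2 * y j ∨ y (j + 1) = 2 * y j + 1) ∧
      ∀ d, ∃ N, ∀ n, N ≤ n → y (c d n).unpair.1 ≠ (c d n).unpair.2

/-- for every family of functions indexed by `Y` there is a step `a` such that all of them have
indices which occur at the step `a` -/
def Cap {N A : Type} (Y : Type) (r : N → A → Prop) (e : N → ℕ → ℕ) : Prop :=
  ∀ f : Y → ℕ → ℕ, ∃ a, ∀ k, ∃ X, r X a ∧ e X = f k

/-- there is a tower of functions with the finite intersection property -/
def Tower {N A : Type} (r : N → A → Prop) (e : N → ℕ → ℕ) : Prop :=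
  ∃ c : A → ℕ → ℕ, ∀ l : List (N × A), (∀ z ∈ l, r z.1 z.2) → ∀ m, ∃ n, m ≤ n ∧
    ∀ z : N × A, z ∈ l → e z.1 n ≤ c z.2 n

/-- The sentence about the first extension. `N` is a set of indices of all the functions, and
`r t X a` says that the function with the index `X` occurs at the step `a` of the tower `t`. -/
def Phi1For (T D N : Type) (Ω : Fin 4 → Type) (r : ∀ t, N → Ω t → Prop) : Prop :=
  BddAll FinI T ∧ Domin FinI D ∧ ∃ e : N → ℕ → ℕ, Cap Unit (r 0) e ∧ Cap (Ω 0) (r 1) e ∧
    Cap (Ω 1) (r 2) e ∧ Cap (Ω 2) (r 3) e ∧ ∀ t, Tower (r t) e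

/-- The sentence about the second extension. -/
def Phi2For (J : Set (Set ℕ)) (T K A B D : Type) : Prop :=
  BddAll FinI T ∧ Unbdd FinI K ∧ BddAll J K ∧ Unbdd J A ∧ NotDom J A ∧ Domin J B ∧
    NotDom FinI B ∧ Domin FinI D ∧ CovBig D

/-! ### The sentences of the forcing language -/

section Sentence

variable {P : Type} [Preorder P]

/-- Forcing version of `x n ≤ y n`. -/
def LeN (x y : ℕ → ℕ → Set P) (n : ℕ) : Set P :=
  fall fun v => fall fun w => fimp (fand (meets (x n v)) (meets (y n w))) (fground (v ≤ w))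

/-- Forcing version of `LeB`. -/
def LeBN (J : Set (Set ℕ)) (x y : ℕ → ℕ → Set P) : Set P :=
  fex fun S : J => fall fun n => fimp (fground (n ∉ S.1)) (LeN x y n)

variable (P)

/-- Forcing version of `BddAll`. -/
def BddAllN (J : Set (Set ℕ)) (T : Type) : Set P :=
  fall fun f : T → ℕ → ℕ → Set P => fimp (fall fun t => IsFun (f t))
    (fex fun h : ℕ → ℕ → Set P => fand (IsFun h) (fall fun t => LeBN J (f t) h))

/-- Forcing version of `Unbdd`. -/
def UnbddN (J : Set (Set ℕ)) (T : Type) : Set P :=
  fex fun c : T → ℕ → ℕ → Set P => fand (fall fun t => IsFun (c t))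
    (fall fun f : ℕ → ℕ → Set P => fimp (IsFun f) (fex fun t => fnot (LeBN J (c t) f)))

/-- Forcing version of `NotDom`. -/
def NotDomN (J : Set (Set ℕ)) (T : Type) : Set P :=
  fall fun f : T → ℕ → ℕ → Set P => fimp (fall fun t => IsFun (f t))
    (fex fun g : ℕ → ℕ → Set P => fand (IsFun g) (fall fun t => fnot (LeBN J g (f t))))

/-- Forcing version of `Domin`. -/
def DominN (J : Set (Set ℕ)) (T : Type) : Set P :=
  fex fun h : T → ℕ → ℕ → Set P => fand (fall fun t => IsFun (h t))
    (fall fun f : ℕ → ℕ → Set P => fimp (IsFun f) (fex fun t => LeBN J f (h t)))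

/-- Forcing version of `CovBig`. -/
def CovBigN (D : Type) : Set P :=
  fall fun c : D → ℕ → ℕ → Set P =>
    fimp (fall fun d => fand (IsFun (c d))
      (fall fun s : List ℕ => fimp (InitSeg s (c d)) (fground (Small s))))
    (fex fun y : ℕ → ℕ → Set P => fand (IsFun y)
      (fand (fall fun j => fall fun v => fall fun w =>
          fimp (fand (meets (y j v)) (meets (y (j + 1) w)))
            (fground (w = 2 * v ∨ w = 2 * v + 1)))
        (fall fun d => fex fun N => fall fun n => fimp (fground (N ≤ n)) (fall fun v =>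
          fimp (meets (c d n v)) (fnot (meets (y v.unpair.1 v.unpair.2)))))))

/-- Forcing version of: for every family of functions indexed by `Y` there is a step `a` such that
all of them have indices which occur at the step `a`. -/
def CapN {N A : Type} (Y : Type) (r : N → A → Prop) (e : N → ℕ → ℕ → Set P) : Set P :=
  fall fun f : Y → ℕ → ℕ → Set P => fimp (fall fun k => IsFun (f k))
    (fex fun a => fall fun k => fex fun X => fand (fground (r X a)) (SameReal (e X) (f k)))

/-- Forcing version of: there is a tower of functions with the finite intersection property. -/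
def TowerN {N A : Type} (r : N → A → Prop) (e : N → ℕ → ℕ → Set P) : Set P :=
  fex fun c : A → ℕ → ℕ → Set P => fand (fall fun a => IsFun (c a))
    (fall fun l : List (N × A) => fimp (fground (∀ z ∈ l, r z.1 z.2)) (fall fun m =>
      fex fun n => fand (fground (m ≤ n)) (fall fun z : N × A => fimp (fground (z ∈ l))
        (LeN (e z.1) (c z.2) n))))

/-- Forcing version of `Phi1For`. -/
def Phi1Holds (T D N : Type) (Ω : Fin 4 → Type) (r : ∀ t, N → Ω t → Prop) : Set P :=
  fand (BddAllN P FinI T) (fand (DominN P FinI D)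
    (fex fun e : N → ℕ → ℕ → Set P => fand (fall fun X => IsFun (e X))
      (fand (CapN P Unit (r 0) e) (fand (CapN P (Ω 0) (r 1) e) (fand (CapN P (Ω 1) (r 2) e)
        (fand (CapN P (Ω 2) (r 3) e) (fall fun t => TowerN P (r t) e)))))))

/-- Forcing version of `Phi2For`. -/
def Phi2Holds (J : Set (Set ℕ)) (T K A B D : Type) : Set P :=
  fand (BddAllN P FinI T) (fand (UnbddN P FinI K) (fand (BddAllN P J K) (fand (UnbddN P J A)
    (fand (NotDomN P J A) (fand (DominN P J B) (fand (NotDomN P FinI B)
      (fand (DominN P FinI D) (CovBigN P D))))))))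

end Sentence

/-! ### Random forcing -/

open MeasureTheory in
/-- The random forcing on `M → [0, 1]`: the measurable sets of positive measure. -/
def RR (M : Type) : Type :=
  {p : Set (M → unitInterval) // MeasurableSet p ∧
    Measure.infinitePi (fun _ : M => (volume : Measure unitInterval)) p ≠ 0}

instance (M : Type) : Preorder (RR M) where
  le p q := p.1 ⊆ q.1
  le_refl p := subset_rfl
  le_trans _ _ _ h1 h2 := h1.trans h2

end Pool.Agent.H631.DB
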