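import Pool.Agent.H631.DB.Basic
import Pool.Agent.H631.DB.Lang

/-!
# The preorder of the conditions, raw names
-/

set_option autoImplicit false
set_option linter.unusedSectionVars false

namespace Pool.Agent.H631.DB

open Classical Pool.Agent.Helper669.Forcing

variable {M I : Type}

/-- the conditions, with the order given by the parameters -/
def PP (_Γ : Par M I) : Type := Cond M I

variable {Γ : Par M I}

/-- an element of `PP Γ` as a condition -/
abbrev PP.toC (r : PP Γ) : Cond M I := r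

noncomputable instance : Preorder (PP Γ) where
  le q p := le Γ Set.univ q p
  le_refl p := le_refl' Set.univ p
  le_trans _ _ _ h1 h2 := le_trans' low_univ h1 h2

theorem PP.le_def {q p : PP Γ} : q ≤ p ↔ le Γ Set.univ q p := Iff.rfl

/-- the countable chain condition -/
def CCC (Γ : Par M I) : Prop :=
  ∀ A : Set (Cond M I), ¬ A.Countable → ∃ p ∈ A, ∃ q ∈ A, p ≠ q ∧
    ∃ r, le Γ Set.univ r p ∧ le Γ Set.univ r q

theorem exists_predense {Γ : Par M I} (hccc : CCC Γ) (φ : Set (Cond M I)) :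
    ∃ g : ℕ → Option (Cond M I), (∀ m u, g m = some u → u ∈ φ) ∧
      ∀ p ∈ φ, ∃ m a, g m = some a ∧ ∃ r, le Γ Set.univ r p ∧ le Γ Set.univ r a := by
  have : ∃ A, Maximal (fun A : Set (Cond M I) => A ⊆ φ ∧
      ∀ p ∈ A, ∀ q ∈ A, p ≠ q → ¬ ∃ r, le Γ Set.univ r p ∧ le Γ Set.univ r q) A := by
    apply zorn_subset {A : Set (Cond M I) | A ⊆ φ ∧
      ∀ p ∈ A, ∀ q ∈ A, p ≠ q → ¬ ∃ r, le Γ Set.univ r p ∧ le Γ Set.univ r q}
    intro c hc hchain
    refine ⟨⋃₀ c, ⟨Set.sUnion_subset fun A hA => (hc hA).1, ?_⟩,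
      fun s hs => Set.subset_sUnion_of_mem hs⟩
    rintro p ⟨A, hA, hpA⟩ q ⟨B, hB, hqB⟩ hne
    rcases hchain.total hA hB with h | h
    · exact (hc hB).2 p (h hpA) q hqB hne
    · exact (hc hA).2 p hpA q (h hqB) hne
  obtain ⟨A, ⟨h1, h2⟩, hmax⟩ := this
  have hcount : A.Countable := by
    by_contra hcon
    obtain ⟨p, hp, q, hq, hne, h⟩ := hccc A hcon
    exact h2 p hp q hq hne h
  have hdense : ∀ p ∈ φ, ∃ a ∈ A, ∃ r, le Γ Set.univ r p ∧ le Γ Set.univ r a := by
    intro p hp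
    by_contra hcon
    push Not at hcon
    have hpA : p ∉ A := fun h => hcon p h p (le_refl' Set.univ p) (le_refl' Set.univ p)
    apply hpA
    refine hmax (y := insert p A) ⟨Set.insert_subset hp h1, ?_⟩ (Set.subset_insert p A)
      (Set.mem_insert p A)
    rintro x (rfl | hx) y (rfl | hy) hne
    · exact absurd rfl hne
    · rintro ⟨r, hr1, hr2⟩
      exact hcon y hy r hr1 hr2
    · rintro ⟨r, hr1, hr2⟩
      exact hcon x hx r hr2 hr1
    · exact h2 x hx y hy hne
  rcases A.eq_empty_or_nonempty with h | h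
  · refine ⟨fun _ => none, fun m u hu => by simp at hu, fun p hp => ?_⟩
    obtain ⟨a, ha, -⟩ := hdense p hp
    rw [h] at ha
    exact absurd ha (Set.notMem_empty a)
  · obtain ⟨g, hg⟩ := hcount.exists_eq_range h
    refine ⟨fun m => some (g m), ?_, fun p hp => ?_⟩
    · intro m u hu
      have : g m = u := Option.some_injective _ hu
      exact h1 (by rw [hg, ← this]; exact Set.mem_range_self m)
    · obtain ⟨a, ha, hr⟩ := hdense p hp
      rw [hg] at ha
      obtain ⟨m, rfl⟩ := ha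
      exact ⟨m, g m, rfl, hr⟩

/-- names for functions can be replaced by raw names -/
theorem rawF {Γ : Par M I} (hccc : CCC Γ) (x : ℕ → ℕ → Set (PP Γ)) (p : PP Γ)
    (hp : p ∈ IsFun x) : ∃ X : Nm M I, ∀ q : PP Γ, q ≤ p → ∀ n v,
      Val (le Γ Set.univ) q X n v → q ∈ meets (x n v) := by
  let φ : ℕ → Set (Cond M I) := fun n => {q | le Γ Set.univ q p.toC ∧ ∃ v, (q : PP Γ) ∈ meets (x n v)}
  choose g hg1 hg2 using fun n => exists_predense hccc (φ n)
  let val : ℕ → Cond M I → ℕ := fun n u =>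
    if h : ∃ v, (u : PP Γ) ∈ meets (x n v) then Classical.choose h else 0
  have hval : ∀ n (u : Cond M I), (∃ v, (u : PP Γ) ∈ meets (x n v)) →
      (u : PP Γ) ∈ meets (x n (val n u)) := by
    intro n u h
    simp only [val, dif_pos h]
    exact Classical.choose_spec h
  refine ⟨fun n m => (g n m).map fun u => (u, val n u), ?_⟩
  intro q hq n v hv
  rcases hv with ⟨m, u, h1, h2, _⟩ | ⟨_, h2⟩
  · obtain ⟨u', hu', he⟩ := Option.map_eq_some_iff.1 h1
    have h3 : u' = u := (Prod.mk.inj he).1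
    have h4 : val n u' = v := (Prod.mk.inj he).2
    rw [h3] at hu' h4
    have h5 : u ∈ φ n := hg1 n m u hu'
    have h6 := hval n u h5.2
    rw [h4] at h6
    exact down_meets (P := PP Γ) _ u h6 q h2
  · exfalso
    obtain ⟨r, hr, v', hv'⟩ := IsFun.total (down_IsFun x p hp q hq) n
    have h3 : r.toC ∈ φ n := ⟨(hr.trans hq : r ≤ p), v', hv'⟩
    obtain ⟨m, a, hm, s, hs, hs'⟩ := hg2 n r.toC h3
    refine h2 m a (val n a) ?_ ⟨s, ?_, hs'⟩
    · show (g n m).map _ = _
      rw [hm]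
      rfl
    · exact le_trans' low_univ hs hr

/-- names for numbers can be replaced by raw names -/
theorem rawE {Γ : Par M I} (hccc : CCC Γ) {C : Type} (E : C → ℕ → Set (PP Γ)) (c : C)
    (p : PP Γ) (hp : p ∈ IsFun E) : ∃ X : Nm M I, ∀ q : PP Γ, q ≤ p → ∀ v,
      Val (le Γ Set.univ) q X 0 v → q ∈ meets (E c v) := by
  obtain ⟨X, hX⟩ := rawF hccc (fun _ v => E c v) p ⟨fun _ => hp.1 c, fun _ v v' => hp.2 c v v'⟩
  exact ⟨X, fun q hq v hv => hX q hq 0 v hv⟩

/-- `X` is a raw name for the function named by `x`, below `q` -/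
def RawOf (Γ : Par M I) (q : PP Γ) (X : Nm M I) (x : ℕ → ℕ → Set (PP Γ)) : Prop :=
  ∀ q' : PP Γ, q' ≤ q → ∀ n v, Val (le Γ Set.univ) q' X n v → q' ∈ meets (x n v)

theorem RawOf.mono {q q1 : PP Γ} {X : Nm M I} {x : ℕ → ℕ → Set (PP Γ)} (h : RawOf Γ q X x)
    (hq : q1 ≤ q) : RawOf Γ q1 X x := fun q' hq' n v hv => h q' (hq'.trans hq) n v hv

theorem exists_raw (hccc : CCC Γ) {x : ℕ → ℕ → Set (PP Γ)} {q : PP Γ} (hq : q ∈ IsFun x) :
    ∃ X : Nm M I, RawOf Γ q X x := rawF hccc x q hq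

/-- the name of the generic function with the coordinate `j` -/
def coh (Γ : Par M I) (j : I) : ℕ → ℕ → Set (PP Γ) := fun n b =>
  {r | n < (PP.toC r j).stem.length ∧ (PP.toC r j).stem.getD n 0 = b}

/-- the name of the function with the raw name `X` -/
def evn (Γ : Par M I) (X : Nm M I) : ℕ → ℕ → Set (PP Γ) := fun n v =>
  {q | Val (le Γ Set.univ) (PP.toC q) X n v}

/-! ### The index set -/

/-- the coordinates: `ev x` dominating functions, `co t a` Cohen functions -/
inductive Ix (Ω : Fin 4 → Type) : Type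
  | ev (x : ∀ t, Ω t) : Ix Ω
  | co (t : Fin 4) (a : Ω t) : Ix Ω

variable {Ω : Fin 4 → Type} [∀ t, LinearOrder (Ω t)] [∀ t, WellFoundedLT (Ω t)]

/-- the order of the coordinates -/
def Ix.lt : Ix Ω → Ix Ω → Prop
  | .ev y, .ev x => ∀ t, y t < x t
  | .co t a, .ev x => a < x t
  | _, .co _ _ => False

theorem Ix.not_lt_co (i : Ix Ω) (t : Fin 4) (a : Ω t) : ¬ Ix.lt i (.co t a) := by
  cases i <;> exact fun h => h

theorem Ix.lt_wf : WellFounded (Ix.lt (Ω := Ω)) := by
  have h1 : ∀ (t : Fin 4) (a : Ω t), Acc (Ix.lt (Ω := Ω)) (.co t a) := fun t a =>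
    ⟨_, fun i hi => absurd hi (Ix.not_lt_co i t a)⟩
  have h2 : ∀ (k : Ω 0) (x : ∀ t, Ω t), x 0 = k → Acc (Ix.lt (Ω := Ω)) (.ev x) := by
    intro k
    induction k using WellFoundedLT.induction with
    | ind k ih =>
      intro x hx
      refine ⟨_, fun i hi => ?_⟩
      rcases i with y | ⟨t, a⟩
      · exact ih (y 0) (hx ▸ hi 0) y rfl
      · exact h1 t a
  refine ⟨fun i => ?_⟩
  rcases i with y | ⟨t, a⟩
  · exact h2 _ y rfl
  · exact h1 t a

theorem Ix.lt_tr (i j k : Ix Ω) (h1 : Ix.lt i j) (h2 : Ix.lt j k) : Ix.lt i k := by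
  rcases j with y | ⟨t, a⟩
  · rcases k with x | ⟨t1, a1⟩
    · rcases i with z | ⟨t2, a2⟩
      · exact fun t => lt_trans (h1 t) (h2 t)
      · exact lt_trans (show a2 < y t2 from h1) (h2 t2)
    · exact absurd h2 (Ix.not_lt_co _ _ _)
  · exact absurd h1 (Ix.not_lt_co _ _ _)

/-- the coordinates smaller than `ev x` -/
def blw (x : ∀ t, Ω t) : Set (Ix Ω) := {i | Ix.lt i (.ev x)}

/-- the coordinates which are below `a` in the direction `t` -/
def Tl (t : Fin 4) (a : Ω t) : Set (Ix Ω) := {i | match i with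
  | .ev x => x t < a
  | .co s b => ∀ h : s = t, (h ▸ b : Ω t) < a}

open Classical in
/-- the requirements -/
noncomputable def reqB {Λ : Type} (code : Nm Λ (Ix Ω) → Λ) :
    Ix Ω → Λ → Option (Nm Λ (Ix Ω))
  | .ev x, a => if h : ∃ X : Nm Λ (Ix Ω), code X = a ∧ Supp (blw x) X then
      some h.choose else none
  | _, _ => none

/-- the parameters -/
noncomputable def GB {Λ : Type} (code : Nm Λ (Ix Ω) → Λ) : Par Λ (Ix Ω) where
  lt := Ix.lt
  wf := Ix.lt_wf
  tr := Ix.lt_tr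
  req := reqB code

end Pool.Agent.H631.DB
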