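import Pool.Agent.H631.DB.Stm2

set_option autoImplicit false

namespace Pool.Agent.H631.DB.PIND

open Pool.Agent.H631.DB MeasureTheory ProbabilityTheory
open scoped ENNReal

variable {M : Type}

instance : IsProbabilityMeasure (mu M) := by
  unfold mu
  infer_instance

theorem sg_le (S : Set M) : sg S ≤ (inferInstance : MeasurableSpace (M → unitInterval)) := by
  refine iSup₂_le fun i _ => ?_
  exact (measurable_pi_apply i).comap_le

theorem indep (S : Set M) (m : M) (hm : m ∉ S) : Indep (sg S) (sg {m}) (mu M) := by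
  have h1 : iIndepFun (fun (i : M) (ω : M → unitInterval) => ω i) (mu M) :=
    iIndepFun_infinitePi (P := fun _ : M => (volume : Measure unitInterval))
      (X := fun _ x => x) (fun _ => measurable_id)
  rw [iIndepFun_iff_iIndep] at h1
  exact indep_iSup_of_disjoint (fun i => (measurable_pi_apply i).comap_le) h1
    (Set.disjoint_singleton_right.2 hm)

theorem meas_A (m : M) (j k : ℕ) :
    MeasurableSet[sg {m}] {ω : M → unitInterval | ⌊(2 : ℝ) ^ j * (ω m : ℝ)⌋₊ = k} := by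
  have h1 : MeasurableSet {t : unitInterval | ⌊(2 : ℝ) ^ j * (t : ℝ)⌋₊ = k} := by
    have h2 : Measurable fun t : unitInterval => ⌊(2 : ℝ) ^ j * (t : ℝ)⌋₊ :=
      Nat.measurable_floor.comp (measurable_const.mul measurable_subtype_coe)
    exact h2 (measurableSet_singleton k)
  have h3 : MeasurableSpace.comap (fun ω : M → unitInterval => ω m) inferInstance ≤ sg {m} :=
    le_iSup₂_of_le m rfl le_rfl
  exact h3 _ ⟨_, h1, rfl⟩

theorem mu_A (m : M) (j k : ℕ) :
    mu M {ω : M → unitInterval | ⌊(2 : ℝ) ^ j * (ω m : ℝ)⌋₊ = k} ≤ ENNReal.ofReal ((1 / 2) ^ j) := by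
  have h1 : MeasurableSet {t : unitInterval | ⌊(2 : ℝ) ^ j * (t : ℝ)⌋₊ = k} := by
    have h2 : Measurable fun t : unitInterval => ⌊(2 : ℝ) ^ j * (t : ℝ)⌋₊ :=
      Nat.measurable_floor.comp (measurable_const.mul measurable_subtype_coe)
    exact h2 (measurableSet_singleton k)
  have h2 := (measurePreserving_eval_infinitePi (fun _ : M => (volume : Measure unitInterval))
    m).measure_preimage h1.nullMeasurableSet
  have h3 : mu M {ω : M → unitInterval | ⌊(2 : ℝ) ^ j * (ω m : ℝ)⌋₊ = k} =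
      volume {t : unitInterval | ⌊(2 : ℝ) ^ j * (t : ℝ)⌋₊ = k} := h2
  rw [h3, Measure.Subtype.volume_def, comap_subtype_coe_apply measurableSet_Icc]
  have h4 : ((↑) '' {t : unitInterval | ⌊(2 : ℝ) ^ j * (t : ℝ)⌋₊ = k} : Set ℝ) ⊆
      Set.Ico ((k : ℝ) * (1 / 2) ^ j) ((k + 1 : ℝ) * (1 / 2) ^ j) := by
    rintro _ ⟨t, ht, rfl⟩
    have h0 : (0 : ℝ) ≤ (2 : ℝ) ^ j * (t : ℝ) := mul_nonneg (by positivity) t.2.1
    have h5 := (Nat.floor_eq_iff h0).1 ht
    have h6 : (2 : ℝ) ^ j * (1 / 2) ^ j = 1 := by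
      rw [← mul_pow]
      norm_num
    have h7 : (0 : ℝ) < (1 / 2) ^ j := by positivity
    constructor
    · have := mul_le_mul_of_nonneg_right h5.1 h7.le
      calc (k : ℝ) * (1 / 2) ^ j ≤ 2 ^ j * (t : ℝ) * (1 / 2) ^ j := this
        _ = (2 ^ j * (1 / 2) ^ j) * t := by ring
        _ = t := by rw [h6, one_mul]
    · have := mul_lt_mul_of_pos_right h5.2 h7
      calc (t : ℝ) = (2 ^ j * (1 / 2) ^ j) * t := by rw [h6, one_mul]
        _ = 2 ^ j * (t : ℝ) * (1 / 2) ^ j := by ring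
        _ < (k + 1 : ℝ) * (1 / 2) ^ j := this
  refine (measure_mono h4).trans ?_
  rw [Real.volume_Ico]
  refine le_of_eq ?_
  congr 1
  ring

theorem th_IND : S_IND := by
  intro M S m g q hm hg hq hs
  classical
  -- the weights
  let w : ℕ → ℝ≥0∞ := fun v => ENNReal.ofReal ((1 / 2) ^ v.unpair.1)
  let B : ℕ → ℕ → Set (M → unitInterval) := fun n v => {ω | g n ω = v} ∩ q
  have hB : ∀ n v, MeasurableSet[sg S] (B n v) := fun n v => (hg n v).inter hq
  have hB' : ∀ n v, MeasurableSet (B n v) := fun n v => sg_le S _ (hB n v)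
  let A : ℕ → Set (M → unitInterval) := fun v =>
    {ω | ⌊(2 : ℝ) ^ v.unpair.1 * (ω m : ℝ)⌋₊ = v.unpair.2}
  let f : ℕ → (M → unitInterval) → ℝ≥0∞ := fun n ω =>
    ∑' v, (B n v).indicator (fun _ => w v) ω
  let E : ℕ → Set (M → unitInterval) := fun n =>
    {ω | ω ∈ q ∧ ⌊(2 : ℝ) ^ (g n ω).unpair.1 * (ω m : ℝ)⌋₊ = (g n ω).unpair.2}
  have hE : ∀ n, mu M (E n) ≤ ∫⁻ ω, f n ω ∂(mu M) := by
    intro n
    have h1 : E n ⊆ ⋃ v, B n v ∩ A v := by
      rintro ω ⟨h1, h2⟩
      exact Set.mem_iUnion.2 ⟨g n ω, ⟨rfl, h1⟩, h2⟩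
    refine (measure_mono h1).trans ((measure_iUnion_le _).trans ?_)
    have h2 : ∫⁻ ω, f n ω ∂(mu M) = ∑' v, ∫⁻ ω, (B n v).indicator (fun _ => w v) ω ∂(mu M) :=
      lintegral_tsum fun v => (measurable_const.indicator (hB' n v)).aemeasurable
    rw [h2]
    refine ENNReal.tsum_le_tsum fun v => ?_
    rw [lintegral_indicator (hB' n v), setLIntegral_const,
      (Indep_iff _ _ _).1 (indep S m hm) _ _ (hB n v) (meas_A m _ _), mul_comm]
    exact mul_le_mul_left (mu_A m _ _) _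
  have hf : ∀ n ω, ω ∈ q → f n ω = w (g n ω) := by
    intro n ω h
    change ∑' v, (B n v).indicator (fun _ => w v) ω = _
    rw [tsum_eq_single (g n ω)]
    · exact Set.indicator_of_mem (show ω ∈ B n (g n ω) from ⟨rfl, h⟩) _
    · intro v hv
      exact Set.indicator_of_notMem (fun h1 => hv h1.1.symm) _
  have hf0 : ∀ n ω, ω ∉ q → f n ω = 0 := by
    intro n ω h
    change ∑' v, (B n v).indicator (fun _ => w v) ω = _
    rw [ENNReal.tsum_eq_zero]
    intro v
    exact Set.indicator_of_notMem (fun h1 => h h1.2) _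
  have hsum : ∀ᵐ ω ∂(mu M), ∑' n, f n ω ≤ 1 := by
    filter_upwards [hs] with ω hω
    by_cases h : ω ∈ q
    · rw [tsum_congr fun n => hf n ω h, ENNReal.tsum_eq_iSup_nat]
      refine iSup_le fun N => ?_
      have h1 := hω h N
      unfold Pool.Agent.H631.DB.Small at h1
      rw [← ENNReal.ofReal_sum_of_nonneg (fun i _ => by positivity)]
      rw [← ENNReal.ofReal_one]
      refine ENNReal.ofReal_le_ofReal ?_
      rw [List.map_map] at h1
      convert h1 using 1
      rw [Finset.sum_eq_multiset_sum]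
      rfl
    · rw [tsum_congr fun n => hf0 n ω h, tsum_zero]
      exact zero_le_one
  have htot : ∑' n, mu M (E n) ≠ ∞ := by
    have h1 : ∑' n, mu M (E n) ≤ 1 := by
      calc ∑' n, mu M (E n) ≤ ∑' n, ∫⁻ ω, f n ω ∂(mu M) := ENNReal.tsum_le_tsum hE
        _ = ∫⁻ ω, ∑' n, f n ω ∂(mu M) := (lintegral_tsum fun n => (Measurable.ennreal_tsum
            fun v => measurable_const.indicator (hB' n v)).aemeasurable).symm
        _ ≤ ∫⁻ _, 1 ∂(mu M) := lintegral_mono_ae hsum
        _ = 1 := by simp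
    exact ne_top_of_le_ne_top ENNReal.one_ne_top h1
  filter_upwards [ae_eventually_notMem htot] with ω hω hq'
  obtain ⟨N, hN⟩ := Filter.eventually_atTop.1 hω
  exact ⟨N, fun n hn h => hN n hn ⟨hq', h⟩⟩

end Pool.Agent.H631.DB.PIND
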