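import Pool.Agent.H631.DB.Stm1

/-!
# Stems can be extended
-/

set_option autoImplicit false

namespace Pool.Agent.H631.DB.PLONG

open Pool.Agent.Helper669.Forcing Pool.Agent.H631.DB

variable {M I : Type} {Γ : Par M I}

theorem one_step (j : I) (p : Cond M I) :
    ∃ p', le Γ Set.univ p' p ∧ (p' j).stem.length = (p j).stem.length + 1 ∧ (p' j).pr = (p j).pr ∧
      ∀ i, ¬ Γ.lt i j → i ≠ j → p' i = p i := by
  classical
  obtain ⟨t, ht, hv⟩ := Val.decideF (Γ := Γ) (low_below j) (p j).pr
    (fun k => (Γ.req j k).getD fun _ _ => none) (fun _ => (p j).stem.length) p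
  choose! w hw using hv
  set vm : ℕ := ∑ k ∈ (p j).pr, w k with hvm
  set p' : Cond M I := upd (mix (below Γ j) t p) j ⟨(p j).stem ++ [vm], (p j).pr⟩ with hp'
  have hj : p' j = ⟨(p j).stem ++ [vm], (p j).pr⟩ := upd_same _ _ _
  have hb : ∀ i, Γ.lt i j → p' i = t i := by
    intro i hi
    have hne : i ≠ j := by
      rintro rfl
      exact not_lt_self i hi
    rw [hp', upd_of_ne _ _ hne]
    exact mix_mem t p hi
  have hn : ∀ i, ¬ Γ.lt i j → i ≠ j → p' i = p i := by
    intro i hi hne
    rw [hp', upd_of_ne _ _ hne]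
    exact mix_notMem t p hi
  refine ⟨p', ?_, ?_, ?_, hn⟩
  · intro i _
    by_cases hij : i = j
    · subst hij
      rw [ext_iff, hj]
      refine ⟨List.prefix_append _ _, Finset.Subset.refl _, ?_⟩
      intro k hk x hx l hl hl' s hs v hval
      have hl1 : l = (p i).stem.length := by
        simp only [List.length_append, List.length_singleton] at hl'
        omega
      subst hl1
      have h1 := hw k hk
      rw [hx, Option.getD_some] at h1
      have hst : le Γ (below Γ i) s t :=
        le_congr (low_below i) (fun _ _ => rfl) (fun l hl => hb l hl) hs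
      have h2 := h1.mono (low_below i) hst
      have h3 := hval.unique h2
      rw [h3]
      have h4 : ((p i).stem ++ [vm]).getD (p i).stem.length 0 = vm := by
        rw [List.getD_append_right _ _ _ _ le_rfl, Nat.sub_self]
        rfl
      show w k ≤ ((p i).stem ++ [vm]).getD (p i).stem.length 0
      rw [h4]
      exact Finset.single_le_sum (f := w) (fun _ _ => Nat.zero_le _) hk
    · by_cases hlt : Γ.lt i j
      · exact ext_congr i (fun l hl => (hb l (Γ.tr _ _ _ hl hlt)).symm) (hb i hlt).symm rfl (ht i hlt)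
      · exact ext_of_eq (hn i hlt hij)
  · rw [hj]
    simp
  · rw [hj]

theorem th_LONG : S_LONG := by
  intro M I Γ j N
  induction N with
  | zero =>
    intro p
    exact ⟨p, le_refl' _ p, Nat.zero_le _, rfl, fun _ _ _ => rfl⟩
  | succ N ih =>
    intro p
    obtain ⟨p1, h1, h2, h3, h4⟩ := ih p
    obtain ⟨p2, g1, g2, g3, g4⟩ := one_step (Γ := Γ) j p1
    refine ⟨p2, le_trans' low_univ g1 h1, ?_, g3.trans h3, fun i hi hne => (g4 i hi hne).trans (h4 i hi hne)⟩
    rw [g2]
    omega

end Pool.Agent.H631.DB.PLONG
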