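import Pool.Agent.H631.DB.Stm2

set_option autoImplicit false

namespace Pool.Agent.H631.DB.PNAME

open Cardinal MeasureTheory Pool.Agent.Helper669.Forcing Pool.Agent.H631.DB

/-- maximal antichains -/
theorem max_anti {P : Type} [Preorder P] (D : Set P) : ∃ A ⊆ D,
    (∀ p ∈ A, ∀ q ∈ A, p ≠ q → ¬ ∃ r, r ≤ p ∧ r ≤ q) ∧ ∀ d ∈ D, ∃ a ∈ A, ∃ r, r ≤ d ∧ r ≤ a := by
  let F : Set (Set P) := {A | A ⊆ D ∧ ∀ p ∈ A, ∀ q ∈ A, p ≠ q → ¬ ∃ r, r ≤ p ∧ r ≤ q}
  obtain ⟨m, hm⟩ := zorn_subset F (by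
    intro c hc hch
    refine ⟨⋃₀ c, ⟨?_, ?_⟩, fun s hs => Set.subset_sUnion_of_mem hs⟩
    · exact Set.sUnion_subset fun s hs => (hc hs).1
    · rintro p ⟨s, hs, hp⟩ q ⟨s', hs', hq⟩ hpq
      rcases hch.total hs hs' with h | h
      · exact (hc hs').2 p (h hp) q hq hpq
      · exact (hc hs).2 p hp q (h hq) hpq)
  refine ⟨m, hm.1.1, hm.1.2, ?_⟩
  intro d hd
  by_contra hcon
  have hno : ∀ a ∈ m, ¬ ∃ r, r ≤ d ∧ r ≤ a := fun a ha h => hcon ⟨a, ha, h⟩
  have hins : insert d m ∈ F := by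
    refine ⟨Set.insert_subset hd hm.1.1, ?_⟩
    rintro p (rfl | hp) q (rfl | hq) hpq
    · exact absurd rfl hpq
    · exact hno q hq
    · rintro ⟨r, h1, h2⟩
      exact hno p hp ⟨r, h2, h1⟩
    · exact hm.1.2 p hp q hq hpq
  have hdm : d ∈ m := hm.2 hins (Set.subset_insert d m) (Set.mem_insert d m)
  exact hno d hdm ⟨d, le_rfl, le_rfl⟩

theorem sg_mono {M : Type} {S S' : Set M} (h : S ⊆ S') : sg S ≤ sg S' :=
  biSup_mono h

theorem th_NAME : S_CCCR → S_SUP → S_NAME := by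
  classical
  intro hccc hsup M x p hp
  have hdense : ∀ n, ∀ q ≤ p, ∃ r ≤ q, ∃ v, r ∈ meets (x n v) := fun n => mem_fex.1 (hp.1 n)
  -- antichains
  have hA : ∀ n, ∃ (a : ℕ → RR M) (v : ℕ → ℕ), (∀ k, a k ∈ meets (x n (v k))) ∧
      (∀ j k, a j ≠ a k → ¬ ∃ r, r ≤ a j ∧ r ≤ a k) ∧ ∀ q ≤ p, ∃ k, ∃ r, r ≤ q ∧ r ≤ a k := by
    intro n
    obtain ⟨A, hA1, hA2, hA3⟩ := max_anti {q : RR M | q ≤ p ∧ ∃ v, q ∈ meets (x n v)}
    have hA4 : ∀ q ≤ p, ∃ a ∈ A, ∃ r, r ≤ q ∧ r ≤ a := by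
      intro q hq
      obtain ⟨r, hr, v, hv⟩ := hdense n q hq
      obtain ⟨a, ha, r', h1, h2⟩ := hA3 r ⟨hr.trans hq, v, hv⟩
      exact ⟨a, ha, r', h1.trans hr, h2⟩
    have hne : A.Nonempty := by
      obtain ⟨a, ha, -⟩ := hA4 p le_rfl
      exact ⟨a, ha⟩
    obtain ⟨a, ha⟩ := ((hccc M).2 A hA2).exists_eq_range hne
    have hmem : ∀ k, a k ∈ A := fun k => by
      rw [ha]
      exact Set.mem_range_self k
    choose v hv using fun k => (hA1 (hmem k)).2
    refine ⟨a, v, hv, fun j k h => hA2 _ (hmem j) _ (hmem k) h, ?_⟩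
    intro q hq
    obtain ⟨b, hb, r, h1, h2⟩ := hA4 q hq
    rw [ha] at hb
    obtain ⟨k, rfl⟩ := hb
    exact ⟨k, r, h1, h2⟩
  choose a v hav hanti hmax using hA
  choose T hT1 hT2 using fun n k => hsup M (a n k).1 (a n k).2.1
  set S : Set M := ⋃ n, ⋃ k, T n k with hS
  have hmeas : ∀ n k, MeasurableSet[sg S] (a n k).1 := fun n k =>
    sg_mono (Set.subset_iUnion_of_subset n (Set.subset_iUnion _ k)) _ (hT2 n k)
  let g : ℕ → (M → unitInterval) → ℕ := fun n ω =>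
    if h : ∃ k, ω ∈ (a n k).1 then v n (Nat.find h) else 0
  have hg1 : ∀ n ω k, ω ∈ (a n k).1 → (∀ j < k, ω ∉ (a n j).1) → g n ω = v n k := by
    intro n ω k h1 h2
    have h : ∃ k, ω ∈ (a n k).1 := ⟨k, h1⟩
    have h3 : Nat.find h = k := (Nat.find_eq_iff h).2 ⟨h1, h2⟩
    change (if h : ∃ k, ω ∈ (a n k).1 then v n (Nat.find h) else 0) = v n k
    rw [dif_pos h, h3]
  have hg0 : ∀ n ω, (∀ k, ω ∉ (a n k).1) → g n ω = 0 := by
    intro n ω h
    change (if h : ∃ k, ω ∈ (a n k).1 then v n (Nat.find h) else 0) = 0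
    rw [dif_neg (by rintro ⟨k, hk⟩; exact h k hk)]
  refine ⟨S, g, ?_, ?_, ?_⟩
  · exact Set.countable_iUnion fun n => Set.countable_iUnion fun k => hT1 n k
  · intro n w
    have e : {ω | g n ω = w} = (⋃ k, ((a n k).1 ∩ (⋂ j, ⋂ _ : j < k, ((a n j).1)ᶜ)) ∩ {_ω | v n k = w}) ∪
        ((⋂ k, ((a n k).1)ᶜ) ∩ {_ω | 0 = w}) := by
      apply Set.Subset.antisymm
      · intro ω hω
        have hω' : g n ω = w := hω
        by_cases h : ∃ k, ω ∈ (a n k).1
        · left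
          refine Set.mem_iUnion.2 ⟨Nat.find h, ⟨Nat.find_spec h, ?_⟩, ?_⟩
          · refine Set.mem_iInter.2 fun j => Set.mem_iInter.2 fun hj => ?_
            exact Nat.find_min h hj
          · change v n (Nat.find h) = w
            rw [← hω']
            exact (hg1 n ω _ (Nat.find_spec h) (fun j hj => Nat.find_min h hj)).symm
        · right
          have h' : ∀ k, ω ∉ (a n k).1 := fun k hk => h ⟨k, hk⟩
          refine ⟨Set.mem_iInter.2 h', ?_⟩
          change 0 = w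
          rw [← hω', hg0 n ω h']
      · rintro ω (h | h)
        · obtain ⟨k, ⟨h1, h2⟩, h3⟩ := Set.mem_iUnion.1 h
          have h4 : g n ω = v n k := hg1 n ω k h1 fun j hj => Set.mem_iInter.1 (Set.mem_iInter.1 h2 j) hj
          exact h4.trans h3
        · have h4 := hg0 n ω (fun k => Set.mem_iInter.1 h.1 k)
          exact h4.trans h.2
    rw [e]
    refine MeasurableSet.union (MeasurableSet.iUnion fun k => MeasurableSet.inter (MeasurableSet.inter (hmeas n k)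
      (MeasurableSet.iInter fun j => MeasurableSet.iInter fun _ => (hmeas n j).compl)) (MeasurableSet.const _)) ?_
    exact MeasurableSet.inter (MeasurableSet.iInter fun k => (hmeas n k).compl) (MeasurableSet.const _)
  · intro q hq n w hw q' hq'
    obtain ⟨k0, r0, h1, h2⟩ := hmax n q' (hq'.trans hq)
    have hex : ∃ k, a n k = a n k0 := ⟨k0, rfl⟩
    set k := Nat.find hex with hk
    have hk1 : a n k = a n k0 := Nat.find_spec hex
    have hk2 : ∀ j < k, a n j ≠ a n k := fun j hj => by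
      rw [hk1]
      exact Nat.find_min hex hj
    rw [← hk1] at h2
    have hnull : ∀ j < k, mu M ((a n j).1 ∩ (a n k).1) = 0 := by
      intro j hj
      by_contra hpos
      exact hanti n j k (hk2 j hj) ⟨⟨(a n j).1 ∩ (a n k).1, (a n j).2.1.inter (a n k).2.1, hpos⟩,
        Set.inter_subset_left, Set.inter_subset_right⟩
    have hN : mu M (⋃ j ∈ Finset.range k, ((a n j).1 ∩ (a n k).1)) = 0 := by
      refine le_antisymm (le_trans (measure_biUnion_finset_le _ _) ?_) (by positivity)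
      exact le_of_eq (Finset.sum_eq_zero fun j hj => hnull j (Finset.mem_range.1 hj))
    have hm : MeasurableSet (⋃ j ∈ Finset.range k, ((a n j).1 ∩ (a n k).1)) :=
      Finset.measurableSet_biUnion _ fun j _ => (a n j).2.1.inter (a n k).2.1
    have hr1 : mu M (r0.1 \ ⋃ j ∈ Finset.range k, ((a n j).1 ∩ (a n k).1)) ≠ 0 := by
      rw [measure_sdiff_null hN]
      exact r0.2.2
    let r1 : RR M := ⟨r0.1 \ ⋃ j ∈ Finset.range k, ((a n j).1 ∩ (a n k).1), r0.2.1.diff hm, hr1⟩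
    have hr1r0 : r1 ≤ r0 := Set.sdiff_subset
    have hval : ∀ ω ∈ r1.1, g n ω = v n k := by
      intro ω hω
      refine hg1 n ω k (h2 hω.1) ?_
      intro j hj hωj
      exact hω.2 (Set.mem_biUnion (x := j) (by simpa using hj) ⟨hωj, h2 hω.1⟩)
    have hne : r1.1.Nonempty := by
      by_contra hem
      rw [Set.not_nonempty_iff_eq_empty] at hem
      apply r1.2.2
      rw [hem, measure_empty]
    obtain ⟨ω, hω⟩ := hne
    have hvw : v n k = w := by
      rw [← hval ω hω]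
      exact hw ω (hq' (h1 (hr1r0 hω)))
    have hmt := hav n k
    rw [hvw] at hmt
    obtain ⟨r2, hr2, s, hs, hle⟩ := hmt r1 (hr1r0.trans h2)
    exact ⟨r2, (hr2.trans hr1r0).trans h1, s, hs, hle⟩

end Pool.Agent.H631.DB.PNAME
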