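import Pool.Agent.H631.DB.Stm2

set_option autoImplicit false

namespace Pool.Agent.H631.DB.PSUP

open MeasureTheory Pool.Agent.H631.DB

theorem sg_mono {M : Type} {S T : Set M} (h : S ⊆ T) : sg S ≤ sg T :=
  iSup₂_le fun i hi => le_iSup₂_of_le (f := fun (i : M) (_ : i ∈ T) =>
    MeasurableSpace.comap (fun ω : M → unitInterval => ω i) inferInstance) i (h hi) le_rfl

/-- the sets which depend on countably many coordinates -/
@[reducible] def cs (M : Type) : MeasurableSpace (M → unitInterval) where
  MeasurableSet' p := ∃ S : Set M, S.Countable ∧ MeasurableSet[sg S] p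
  measurableSet_empty := ⟨∅, Set.countable_empty, @MeasurableSet.empty _ (sg ∅)⟩
  measurableSet_compl := by
    rintro p ⟨S, hS, hp⟩
    exact ⟨S, hS, @MeasurableSet.compl _ p (sg S) hp⟩
  measurableSet_iUnion := by
    intro f hf
    choose S hS hf using hf
    refine ⟨⋃ n, S n, Set.countable_iUnion hS, ?_⟩
    refine @MeasurableSet.iUnion _ _ (sg (⋃ n, S n)) _ f fun n => ?_
    exact sg_mono (Set.subset_iUnion S n) _ (hf n)

theorem th_SUP : S_SUP := by
  intro M p hp
  have h : (MeasurableSpace.pi : MeasurableSpace (M → unitInterval)) ≤ cs M := by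
    refine iSup_le fun i => ?_
    intro s hs
    refine ⟨{i}, Set.countable_singleton i, ?_⟩
    exact (le_iSup₂_of_le (f := fun (j : M) (_ : j ∈ ({i} : Set M)) =>
      MeasurableSpace.comap (fun ω : M → unitInterval => ω j) inferInstance) i rfl le_rfl) s hs
  exact h p hp

end Pool.Agent.H631.DB.PSUP
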