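import Pool.Agent.H631.DB.Stm1

/-!
# SUPP: bounds of supports
-/

set_option autoImplicit false
set_option linter.unusedSectionVars false

namespace Pool.Agent.H631.DB.PSUPP

open Classical Pool.Agent.H631.DB

variable {Ω : Fin 4 → Type} [∀ t, LinearOrder (Ω t)] [∀ t, WellFoundedLT (Ω t)]
  [∀ t, Nonempty (Ω t)]

/-- the component of a coordinate in the direction `t` -/
noncomputable def cmp (t : Fin 4) : Ix Ω → Ω t
  | .ev x => x t
  | .co s b => if h : s = t then h ▸ b else Classical.arbitrary _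

theorem cmp_co (s : Fin 4) (b : Ω s) : cmp s (Ix.co s b) = b := by
  simp [cmp]

theorem mem_Tl (t : Fin 4) (a : Ω t) (i : Ix Ω) (h : cmp t i < a) : i ∈ Tl t a := by
  rcases i with x | ⟨s, b⟩
  · exact h
  · intro hs
    subst hs
    rw [cmp_co] at h
    exact h

theorem mem_blw (x : ∀ t, Ω t) (i : Ix Ω) (h : ∀ t, cmp t i < x t) : i ∈ blw x := by
  rcases i with y | ⟨s, b⟩
  · exact h
  · have h1 := h s
    rw [cmp_co] at h1
    exact h1

theorem bdd_countable {α : Type} [LinearOrder α] [Nonempty α]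
    (h : ∀ f : ℕ → α, ∃ β, ∀ n, f n < β) {S : Set α} (hS : S.Countable) :
    ∃ β, ∀ s ∈ S, s < β := by
  rcases S.eq_empty_or_nonempty with h0 | h0
  · exact ⟨Classical.arbitrary _, fun s hs => by
      rw [h0] at hs
      exact absurd hs (Set.notMem_empty s)⟩
  · obtain ⟨f, hf⟩ := hS.exists_eq_range h0
    obtain ⟨β, hβ⟩ := h f
    refine ⟨β, fun s hs => ?_⟩
    rw [hf] at hs
    obtain ⟨n, rfl⟩ := hs
    exact hβ n

/-- the coordinates which occur in a raw name -/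
def crd {M I : Type} (X : Nm M I) : Set I :=
  {i | ∃ n m u v, X n m = some (u, v) ∧ u i ≠ CV.top}

theorem crd_countable {M I : Type} (X : Nm M I) : (crd X).Countable := by
  have h : crd X ⊆ ⋃ n, ⋃ m, {i | ∃ u v, X n m = some (u, v) ∧ u i ≠ CV.top} := by
    rintro i ⟨n, m, u, v, h1, h2⟩
    exact Set.mem_iUnion.2 ⟨n, Set.mem_iUnion.2 ⟨m, u, v, h1, h2⟩⟩
  refine Set.Countable.mono h (Set.countable_iUnion fun n => Set.countable_iUnion fun m => ?_)
  rcases hX : X n m with _ | ⟨u, v⟩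
  · refine Set.countable_empty.mono ?_
    rintro i ⟨u, v, h1, -⟩
    exact absurd h1 (by simp)
  · refine (u.2.countable).mono ?_
    rintro i ⟨u', v', h1, h2⟩
    have h3 : u = u' := (Prod.mk.inj (Option.some_injective _ h1)).1
    rw [h3]
    exact h2

theorem supp_of {M I : Type} (X : Nm M I) (T : Set I) (h : crd X ⊆ T) : Supp T X := by
  intro n m u v hu i hi
  by_contra hne
  exact hi (h ⟨n, m, u, v, hu, hne⟩)

theorem dir (Λ Y : Type) (t : Fin 4) (h1 : ∀ f : ℕ → Ω t, ∃ β, ∀ n, f n < β)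
    (h2 : ∀ f : Y → Ω t, ∃ β, ∀ k, f k < β) (X : Y → Nm Λ (Ix Ω)) :
    ∃ a : Ω t, ∀ k, ∀ i ∈ crd (X k), cmp t i < a := by
  have h3 : ∀ k, ∃ β : Ω t, ∀ i ∈ crd (X k), cmp t i < β := by
    intro k
    obtain ⟨β, hβ⟩ := bdd_countable h1 ((crd_countable (X k)).image (cmp t))
    exact ⟨β, fun i hi => hβ _ (Set.mem_image_of_mem _ hi)⟩
  choose b hb using h3
  obtain ⟨a, ha⟩ := h2 b
  exact ⟨a, fun k i hi => (hb k i hi).trans (ha k)⟩

theorem th_SUPP : S_SUPP := by
  intro Ω _ _ _ Λ Y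
  refine ⟨fun t h1 h2 X => ?_, fun h1 h2 X => ?_⟩
  · obtain ⟨a, ha⟩ := dir Λ Y t h1 h2 X
    exact ⟨a, fun k => supp_of _ _ fun i hi => mem_Tl t a i (ha k i hi)⟩
  · choose x hx using fun t => dir Λ Y t (h1 t) (h2 t) X
    exact ⟨x, fun k => supp_of _ _ fun i hi => mem_blw x i fun t => hx t k i hi⟩

end Pool.Agent.H631.DB.PSUPP
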