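import Pool.Agent.H631.DB.Stm1

set_option autoImplicit false

namespace Pool.Agent.H631.DB.PTL

open Pool.Agent.H631.DB

theorem th_TL : S_TL := by
  intro Ω _ _ Λ code
  refine ⟨?_, ?_, ?_, ?_, ?_, ?_⟩
  · intro t a j hj i hi
    rcases j with x | ⟨s, b⟩
    · have hx : x t < a := hj
      rcases i with y | ⟨s, b⟩
      · have hy : ∀ t, y t < x t := hi
        exact lt_trans (hy t) hx
      · have hb : b < x s := hi
        intro h
        subst h
        exact lt_trans hb hx
    · exact absurd hi (Ix.not_lt_co i s b)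
  · intro t a a' haa i hi
    rcases i with y | ⟨s, b⟩
    · have hy : y t < a := hi
      exact lt_of_lt_of_le hy haa
    · have hb : ∀ h : s = t, (h ▸ b : Ω t) < a := hi
      intro h
      exact lt_of_lt_of_le (hb h) haa
  · intro t a h
    have hb : ∀ h : t = t, (h ▸ a : Ω t) < a := h
    exact lt_irrefl a (hb rfl)
  · intro t a k
    rfl
  · intro x
    rfl
  · intro hinj x X hX
    have h : ∃ Y : Nm Λ (Ix Ω), code Y = code X ∧ Supp (blw x) Y := ⟨X, rfl, hX⟩
    show reqB code (.ev x) (code X) = some X
    simp only [reqB]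
    rw [dif_pos h]
    congr 1
    exact hinj h.choose_spec.1

end Pool.Agent.H631.DB.PTL
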