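import Pool.Agent.H631.DB.Fr

/-!
# The statements of the parts (the first forcing)

Models for the proofs: Pool/Agent/H631/EV/{Amalg,Fan,Forced,Book,Card}.lean on main (the same
pattern, another requirement).
-/

set_option autoImplicit false
set_option linter.unusedSectionVars false

namespace Pool.Agent.H631.DB

open Cardinal Pool.Agent.Helper669.Forcing

/-- LONG: stems can be extended. Let `n` be the length of the stem at `j`; decide (`Val.decideF` with
the set `below Γ j`) the values at `n` of the names of the promises of `p` at `j` by `t`, which is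
stronger than `p` on `below Γ j`; take `mix (below Γ j) t p` and append the maximum of these values to
the stem at `j`. The case `N` by induction. -/
def S_LONG : Prop := ∀ (M I : Type) (Γ : Par M I) (j : I) (N : ℕ) (p : Cond M I),
  ∃ p', le Γ Set.univ p' p ∧ N ≤ (p' j).stem.length ∧ (p' j).pr = (p j).pr ∧
    ∀ i, ¬ Γ.lt i j → i ≠ j → p' i = p i

/-- CCC: delta system (`Pool.Graph.R_seed8.Helper126.Fact`, `Helper126.delta_system`, see `fanset` in
EV/Fan.lean) and equal stems on the root; merge coordinatewise: at each coordinate the longer stem and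
the union of the promises (`ext_same_stem`, `ext_top`, `ext_of_eq`). -/
def S_CCC : Prop := ∀ (M I : Type) (Γ : Par M I), CCC Γ

/-- COH: `coh` is a name of a function (from LONG); see `coh_isFun` in EV/Forced.lean. -/
def S_COH : Prop := ∀ (M I : Type) (Γ : Par M I) (j : I) (p : PP Γ), p ∈ IsFun (coh Γ j)

/-- EVN: `evn` is a name of a function (`Val.dense`, `Val.unique`, `Val.mono`). -/
def S_EVN : Prop := ∀ (M I : Type) (Γ : Par M I) (X : Nm M I) (p : PP Γ), p ∈ IsFun (evn Γ X)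

/-- BOUND: the generic function at `j` dominates the functions named in the promises. Compare
`evade` in EV/Forced.lean. Add the promise `m` at `j`; from the length of the stem on the values are
at least the values of the named function. -/
def S_BOUND : Prop := ∀ (M I : Type) (Γ : Par M I) (j : I) (m : M) (X : Nm M I),
  Γ.req j m = some X → Supp (below Γ j) X → ∀ (f : ℕ → ℕ → Set (PP Γ)) (q : PP Γ), q ∈ IsFun f →
  RawOf Γ q X f → q ∈ LeBN FinI f (coh Γ j)

/-- BDD: from BOUND (compare `evadeAll` in EV/Forced.lean). -/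
def S_BDD : Prop := ∀ (M I T : Type) (Γ : Par M I),
  (∀ X : T → Nm M I, ∃ j, ∀ t, Supp (below Γ j) (X t) ∧ ∃ m, Γ.req j m = some (X t)) →
  ∀ p : PP Γ, p ∈ BddAllN (PP Γ) FinI T

/-- DOM: from BOUND (compare `evading` in EV/Forced.lean). -/
def S_DOM : Prop := ∀ (M I D : Type) (Γ : Par M I) (ev : D → I),
  (∀ X : Nm M I, ∃ d, Supp (below Γ (ev d)) X ∧ ∃ m, Γ.req (ev d) m = some X) →
  ∀ p : PP Γ, p ∈ DominN (PP Γ) FinI D

/-- TOW1: for a finite set `F` of pairs `(X, a)` with `Supp (U a) X`, and `n` not less than the lengths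
of the stems at `c a`. By induction on the number of the `a`'s; let `a` be the largest one; apply the
induction hypothesis to the pairs with smaller second component (the coordinate `c a` is not
changed); then decide (`Val.decideF` in `U a`, and `mix`, `mix_le`; this does not change `c a`, since
`c a ∉ U a`) the values at `n` of the names `X` with `(X, a) ∈ F`; extend the stem at `c a` by zeros to
the length `n` and append the maximum of these values (`ext_noreq`). For `b > a` the coordinate `c b`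
is not changed, since `c b ∉ U b ⊇ U a`. `Val.toUniv`, `Val.mono`. -/
def S_TOW1 : Prop := ∀ (M I A : Type) [LinearOrder A] (Γ : Par M I) (c : A → I) (U : A → Set I),
  Function.Injective c → (∀ a, Low Γ (U a)) → Monotone U → (∀ a, c a ∉ U a) →
  (∀ a k, Γ.req (c a) k = none) → ∀ (F : Finset (Nm M I × A)) (n : ℕ) (p : Cond M I),
  (∀ z ∈ F, Supp (U z.2) z.1) → (∀ z ∈ F, (p (c z.2)).stem.length ≤ n) →
  ∃ q, le Γ Set.univ q p ∧
    (∀ z ∈ F, n < (q (c z.2)).stem.length ∧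
      ∃ v, Val (le Γ Set.univ) q z.1 n v ∧ v ≤ (q (c z.2)).stem.getD n 0) ∧
    ∀ b, (∀ z ∈ F, z.2 < b) → q (c b) = p (c b)

/-- TOWER: from TOW1, COH, EVN; compare `meetInf`, `infEqual` in EV/Forced.lean. -/
def S_TOWER : Prop := ∀ (M I A : Type) [LinearOrder A] (Γ : Par M I) (c : A → I) (U : A → Set I),
  Function.Injective c → (∀ a, Low Γ (U a)) → Monotone U → (∀ a, c a ∉ U a) →
  (∀ a k, Γ.req (c a) k = none) →
  ∀ p : PP Γ, p ∈ TowerN (P := PP Γ) (fun (X : Nm M I) (a : A) => Supp (U a) X) (evn Γ)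

/-- CAP: by `exists_raw`. -/
def S_CAP : Prop := ∀ (M I A Y : Type) (Γ : Par M I) (U : A → Set I),
  (∀ X : Y → Nm M I, ∃ a, ∀ k, Supp (U a) (X k)) →
  ∀ p : PP Γ, p ∈ CapN (P := PP Γ) Y (fun (X : Nm M I) (a : A) => Supp (U a) X) (evn Γ)

/-- TL: the sets `Tl`; the requirement of a valid name. -/
def S_TL : Prop := ∀ (Ω : Fin 4 → Type) [∀ t, LinearOrder (Ω t)] [∀ t, WellFoundedLT (Ω t)]
  (Λ : Type) (code : Nm Λ (Ix Ω) → Λ),
  (∀ t (a : Ω t), Low (GB code) (Tl t a)) ∧ (∀ t, Monotone (Tl (Ω := Ω) t)) ∧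
  (∀ t (a : Ω t), Ix.co t a ∉ Tl t a) ∧ (∀ t (a : Ω t) k, (GB code).req (.co t a) k = none) ∧
  (∀ x : ∀ t, Ω t, below (GB code) (.ev x) = blw x) ∧
  (Function.Injective code → ∀ (x : ∀ t, Ω t) (X : Nm Λ (Ix Ω)), Supp (blw x) X →
    (GB code).req (.ev x) (code X) = some X)

/-- SUPP: bounds of supports (compare `supp_bdd` in EV/Book.lean): a family of raw names indexed by
`Y` has a bound in the direction `t`, respectively a common bound, if families indexed by `Y` are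
bounded in `Ω t`. -/
def S_SUPP : Prop := ∀ (Ω : Fin 4 → Type) [∀ t, LinearOrder (Ω t)] [∀ t, WellFoundedLT (Ω t)]
  [∀ t, Nonempty (Ω t)] (Λ Y : Type), 
  (∀ t, (∀ f : ℕ → Ω t, ∃ β, ∀ n, f n < β) → (∀ f : Y → Ω t, ∃ β, ∀ k, f k < β) →
    ∀ X : Y → Nm Λ (Ix Ω), ∃ a, ∀ k, Supp (Tl t a) (X k)) ∧
  ((∀ t, ∀ f : ℕ → Ω t, ∃ β, ∀ n, f n < β) → (∀ t, ∀ f : Y → Ω t, ∃ β, ∀ k, f k < β) →
    ∀ X : Y → Nm Λ (Ix Ω), ∃ x, ∀ k, Supp (blw x) (X k))

/-- TYPES: successor cardinals `Ω 0 = (succ #T).ord.ToType`, `Ω 1 = (succ #(Ω 0)).ord.ToType` and so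
on; `Λ` large with an injection `code`. (See EV/Card.lean: `bdd_succ`, `mk_CV`, `mk_Cond`, `mk_Nm`,
`mk_Ix`.) `T := R ⊕ Set ℕ`. -/
def S_TYPES : Prop := ∀ R : Type, ∃ (T : Type) (Ω : Fin 4 → Type) (_ : ∀ t, LinearOrder (Ω t))
  (_ : ∀ t, WellFoundedLT (Ω t)) (_ : ∀ t, Nonempty (Ω t)) (Λ : Type) (code : Nm Λ (Ix Ω) → Λ),
  Nonempty (R ↪ T) ∧ Uncountable T ∧ Function.Injective code ∧
  (∀ t, ∀ f : ℕ → Ω t, ∃ β, ∀ n, f n < β) ∧ (∀ t, ∀ f : T → Ω t, ∃ β, ∀ k, f k < β) ∧
  (∀ f : Ω 0 → Ω 1, ∃ β, ∀ k, f k < β) ∧ (∀ f : Ω 1 → Ω 2, ∃ β, ∀ k, f k < β) ∧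
  ∀ f : Ω 2 → Ω 3, ∃ β, ∀ k, f k < β

/-- FORCE: assembly, from all the other statements, with `N := Nm Λ (Ix Ω)`, `D := ∀ t, Ω t`,
`r t X a := Supp (Tl t a) X`, `P := PP (GB code)`, `e := evn`. -/
def S_FORCE : Prop := ∀ R : Type, ∃ (T D N : Type) (Ω : Fin 4 → Type) (r : ∀ t, N → Ω t → Prop)
  (P : Type) (_ : Preorder P), Nonempty (R ↪ T) ∧ Uncountable T ∧ Nonempty P ∧
  (∀ A : Set P, (∀ p ∈ A, ∀ q ∈ A, p ≠ q → ¬ ∃ r, r ≤ p ∧ r ≤ q) → A.Countable) ∧
  ∀ p : P, p ∈ Phi1Holds P T D N Ω r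

end Pool.Agent.H631.DB
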