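import Mathlib
import Pool.Agent.H631.DB.Stm1

/-!
# Task DB-TOW1 (helper296, for helper631)
-/

set_option autoImplicit false

namespace Pool.Agent.H631.DB.PTOW1

open Pool.Agent.H631.DB

theorem main {M I A : Type} [LinearOrder A] (Γ : Par M I) (c : A → I) (U : A → Set I)
    (hc : Function.Injective c) (hU : ∀ a, Low Γ (U a)) (hmono : Monotone U)
    (hcU : ∀ a, c a ∉ U a) (hreq : ∀ a k, Γ.req (c a) k = none) (n : ℕ) (S : Finset A) :
    ∀ (F : Finset (Nm M I × A)) (p : Cond M I), (∀ z ∈ F, z.2 ∈ S) →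
    (∀ z ∈ F, Supp (U z.2) z.1) → (∀ a ∈ S, (p (c a)).stem.length ≤ n) →
    ∃ q, le Γ Set.univ q p ∧
      (∀ z ∈ F, n < (q (c z.2)).stem.length ∧
        ∃ v, Val (le Γ Set.univ) q z.1 n v ∧ v ≤ (q (c z.2)).stem.getD n 0) ∧
      ∀ b, (∀ a ∈ S, a < b) → q (c b) = p (c b) := by
  classical
  induction S using Finset.induction_on_max with
  | empty =>
    intro F p hF _ _
    refine ⟨p, le_refl' _ p, fun z hz => ?_, fun _ _ => rfl⟩
    exact absurd (hF z hz) (Finset.notMem_empty _)
  | insert a S hS ih =>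
    intro F p hF hsupp hlen
    obtain ⟨q1, h1, h2, h3⟩ := ih (F.filter (fun z => z.2 ∈ S)) p
      (fun z hz => (Finset.mem_filter.1 hz).2) (fun z hz => hsupp z (Finset.mem_filter.1 hz).1)
      (fun x hx => hlen x (Finset.mem_insert_of_mem hx))
    obtain ⟨t, ht, hval⟩ := Val.decideF (hU a) (F.filter (fun z => z.2 = a)) (fun z => z.1)
      (fun _ => n) q1
    obtain ⟨q2, hq2⟩ : ∃ q2, q2 = mix (U a) t q1 := ⟨_, rfl⟩
    have h21 : le Γ Set.univ q2 q1 := by rw [hq2]; exact mix_le (hU a) ht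
    have h2t : le Γ (U a) q2 t := by rw [hq2]; exact mix_eq (hU a) t q1
    have hq2c : ∀ b, a ≤ b → q2 (c b) = q1 (c b) := by
      intro b hb
      rw [hq2]
      exact mix_notMem t q1 (fun h => hcU b (hmono hb h))
    have hq1a : q1 (c a) = p (c a) := h3 a hS
    have hva : ∀ z : Nm M I × A, ∃ v, z ∈ F → z.2 = a → Val (le Γ Set.univ) q2 z.1 n v := by
      intro z
      by_cases hz : z ∈ F ∧ z.2 = a
      · obtain ⟨v, hv⟩ := hval z (Finset.mem_filter.2 hz)
        have hs := hsupp z hz.1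
        rw [hz.2] at hs
        exact ⟨v, fun _ _ => Val.toUniv (hU a) hs (Val.mono (hU a) hv h2t)⟩
      · exact ⟨0, fun h h' => absurd ⟨h, h'⟩ hz⟩
    choose val hva using hva
    obtain ⟨m, hm⟩ : ∃ m, ∀ z ∈ F, val z ≤ m := ⟨F.sup val, fun z hz => Finset.le_sup hz⟩
    obtain ⟨l, hl⟩ : ∃ l : List ℕ, l = (q2 (c a)).stem ++
        List.replicate (n - (q2 (c a)).stem.length) 0 := ⟨_, rfl⟩
    have hll : l.length = n := by
      have h5 := hlen a (Finset.mem_insert_self _ _)
      rw [← hq1a, ← hq2c a le_rfl] at h5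
      rw [hl, List.length_append, List.length_replicate]
      omega
    obtain ⟨q3, hq3⟩ : ∃ q3, q3 = upd q2 (c a) ⟨l ++ [m], (q2 (c a)).pr⟩ := ⟨_, rfl⟩
    have hq3a : q3 (c a) = ⟨l ++ [m], (q2 (c a)).pr⟩ := by rw [hq3, upd_same]
    have hq3j : ∀ j, j ≠ c a → q3 j = q2 j := by
      intro j hj
      rw [hq3]
      exact upd_of_ne q2 _ hj
    have h32 : le Γ Set.univ q3 q2 := by
      intro j _
      by_cases hj : j = c a
      · subst hj
        refine ext_noreq (hreq a) ?_ ?_
        · rw [hq3a]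
          show (q2 (c a)).stem <+: l ++ [m]
          rw [hl, List.append_assoc]
          exact List.prefix_append _ _
        · rw [hq3a]
      · exact ext_of_eq (hq3j j hj)
    have h31 := le_trans' low_univ h32 h21
    refine ⟨q3, le_trans' low_univ h31 h1, ?_, ?_⟩
    · intro z hz
      rcases Finset.mem_insert.1 (hF z hz) with hza | hzS
      · rw [hza, hq3a]
        show n < (l ++ [m]).length ∧ ∃ v, Val (le Γ Set.univ) q3 z.1 n v ∧ v ≤ (l ++ [m]).getD n 0
        refine ⟨?_, val z, Val.mono low_univ (hva z hz hza) h32, ?_⟩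
        · rw [List.length_append, hll, List.length_singleton]
          omega
        · rw [List.getD_append_right _ _ _ _ hll.le, hll, Nat.sub_self]
          exact hm z hz
      · obtain ⟨h5, v, h6, h7⟩ := h2 z (Finset.mem_filter.2 ⟨hz, hzS⟩)
        have h8 := ext_stem (h31 (c z.2) (Set.mem_univ _))
        refine ⟨h5.trans_le h8.length_le, v, Val.mono low_univ h6 h31, ?_⟩
        rw [getD_prefix h8 h5]
        exact h7
    · intro b hb
      have hab : a < b := hb a (Finset.mem_insert_self _ _)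
      rw [hq3j (c b) (fun h => absurd (hc h) hab.ne'), hq2c b hab.le,
        h3 b (fun x hx => hb x (Finset.mem_insert_of_mem hx))]

/-- TOW1 -/
theorem th_TOW1 : S_TOW1 := by
  classical
  intro M I A _ Γ c U hc hU hmono hcU hreq F n p hsupp hlen
  obtain ⟨q, h1, h2, h3⟩ := main Γ c U hc hU hmono hcU hreq n (F.image Prod.snd) F p
    (fun z hz => Finset.mem_image_of_mem _ hz) hsupp (fun a ha => by
      obtain ⟨z, hz, rfl⟩ := Finset.mem_image.1 ha
      exact hlen z hz)
  refine ⟨q, h1, h2, fun b hb => h3 b fun a ha => ?_⟩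
  obtain ⟨z, hz, rfl⟩ := Finset.mem_image.1 ha
  exact hb z hz

end Pool.Agent.H631.DB.PTOW1
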