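import Pool.Agent.H631.DB.Stm1

/-!
TOWER (helper808 for helper631)
-/

set_option autoImplicit false

namespace Pool.Agent.H631.DB.PTOWER

open Pool.Agent.Helper669.Forcing Pool.Agent.H631.DB

theorem le_stem {M I : Type} {Γ : Par M I} {q p : PP Γ} (h : q ≤ p) (j : I) :
    (PP.toC p j).stem <+: (PP.toC q j).stem := ext_stem (h j (Set.mem_univ j))

theorem th_TOWER : S_LONG → S_COH → S_EVN → S_TOW1 → S_TOWER := by
  classical
  intro _ hcoh _ htow M I A _ Γ c U hc hU hmono hcU hreq p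
  refine mem_fex_of_mem (P := PP Γ) (fun a => coh Γ (c a)) ?_
    ⟨fun a => hcoh M I Γ (c a) p, fun l => mem_fimp.2 fun q _ hl => ⟨q, le_rfl, fun m =>
      mem_fex.2 fun q' _ => ?_⟩⟩
  · exact down_fand (down_fall fun a => down_IsFun _) (down_fall fun l => down_fimp _ _)
  have hl' : ∀ z ∈ l, Supp (U z.2) z.1 := hl
  obtain ⟨n, hn⟩ : ∃ n, n = m + (l.map fun z => (PP.toC q' (c z.2)).stem.length).sum := ⟨_, rfl⟩
  have hn1 : m ≤ n := by omega
  have hn2 : ∀ z ∈ l, (PP.toC q' (c z.2)).stem.length ≤ n := by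
    intro z hz
    have := List.single_le_sum (l := l.map fun z => (PP.toC q' (c z.2)).stem.length)
      (fun _ _ => Nat.zero_le _) _ (List.mem_map.2 ⟨z, hz, rfl⟩)
    omega
  obtain ⟨r, hr, h1, -⟩ := htow M I A Γ c U hc hU hmono hcU hreq l.toFinset n (PP.toC q')
    (fun z hz => hl' z (List.mem_toFinset.1 hz)) (fun z hz => hn2 z (List.mem_toFinset.1 hz))
  refine ⟨(r : PP Γ), hr, n, hn1, fun z => mem_fimp.2 fun s hs hz => ⟨s, le_rfl, fun v w =>
    mem_fimp.2 fun u hu h => ⟨u, le_rfl, ?_⟩⟩⟩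
  have hz' : z ∈ l := hz
  obtain ⟨h2, v0, h3, h4⟩ := h1 z (List.mem_toFinset.2 hz')
  obtain ⟨u1, hu1, s1, hs1, hle1⟩ := h.1 u le_rfl
  obtain ⟨u2, hu2, s2, hs2, hle2⟩ := h.2 u1 hu1
  have h5 : Val (le Γ Set.univ) (PP.toC s1) z.1 n v := hs1
  have h6 : n < (PP.toC s2 (c z.2)).stem.length ∧ (PP.toC s2 (c z.2)).stem.getD n 0 = w := hs2
  have hle2r : u2 ≤ (r : PP Γ) := hu2.trans (hu1.trans (hu.trans hs))
  have h7 : Val (le Γ Set.univ) (PP.toC u2) z.1 n v :=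
    h5.mono low_univ (show le Γ Set.univ (PP.toC u2) (PP.toC s1) from hu2.trans hle1)
  have h8 : Val (le Γ Set.univ) (PP.toC u2) z.1 n v0 :=
    h3.mono low_univ (show le Γ Set.univ (PP.toC u2) r from hle2r)
  have h9 : v = v0 := h7.unique h8
  have e1 := getD_prefix (le_stem hle2 (c z.2)) h6.1
  have e2 := getD_prefix (le_stem hle2r (c z.2)) h2
  show v ≤ w
  rw [h9, ← h6.2, ← e1, e2]
  exact h4

end Pool.Agent.H631.DB.PTOWER
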