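import Pool.Agent.H631.DB.Stm2

/-!
# TRANS: a bounding forcing preserves the statements (helper528)
-/

set_option autoImplicit false

namespace Pool.Agent.H631.DB.PTRANS

open Pool.Agent.Helper669.Forcing Pool.Agent.H631.DB

variable {P : Type} [Preorder P]

/-- the name of a function of the ground model -/
def nm (P : Type) (h : ℕ → ℕ) : ℕ → ℕ → Set P := fun n v => {_q | h n = v}

theorem meets_nm {h : ℕ → ℕ} {n v : ℕ} {p : P} : p ∈ meets (nm P h n v) ↔ h n = v := by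
  constructor
  · intro hp
    obtain ⟨_, _, s, hs, _⟩ := hp p le_rfl
    exact hs
  · intro hv
    exact meets_of_mem (N := nm P h n v) hv

theorem isFun_nm (h : ℕ → ℕ) (p : P) : p ∈ IsFun (nm P h) := by
  refine ⟨fun n => ?_, fun n v w => ?_⟩
  · exact mem_fex_of_mem (h n) (down_meets _) (meets_nm.2 rfl)
  · refine mem_fimp.2 fun q _ hq => ⟨q, le_rfl, ?_⟩
    rw [mem_fground]
    exact (meets_nm.1 hq.1).symm.trans (meets_nm.1 hq.2)

/-- `x` is eventually bounded by `k` -/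
def Bd (x : ℕ → ℕ → Set P) (k : ℕ → ℕ) : Set P :=
  fex fun N => fall fun n => fimp (fground (N ≤ n)) (fall fun v =>
    fimp (meets (x n v)) (fground (v ≤ k n)))

theorem enlarge {J : Set (Set ℕ)} (hJ : IsBase J) {S : Set ℕ} (hS : S ∈ J) (N : ℕ) :
    ∃ U ∈ J, S ⊆ U ∧ ∀ n, n ∉ U → N ≤ n := by
  obtain ⟨F, hF, hF'⟩ := hJ.2.1 {n | n < N} (Set.finite_lt_nat N)
  obtain ⟨U, hU, hU'⟩ := hJ.1 S hS F hF
  refine ⟨U, hU, fun x hx => hU' (Or.inl hx), fun n hn => ?_⟩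
  by_contra hlt
  exact hn (hU' (Or.inr (hF' (not_le.1 hlt))))

theorem bd_apply {x : ℕ → ℕ → Set P} {k : ℕ → ℕ} {N : ℕ} {r : P}
    (h : r ∈ fall fun n => fimp (fground (N ≤ n)) (fall fun v =>
      fimp (meets (x n v)) (fground (v ≤ k n)))) {n v : ℕ} (hn : N ≤ n) {s : P} (hs : s ≤ r)
    (hv : s ∈ meets (x n v)) : v ≤ k n := by
  obtain ⟨r1, hr1, h1⟩ := mem_fimp.1 (h n) s hs hn
  obtain ⟨r2, _, h2⟩ := mem_fimp.1 (h1 v) r1 le_rfl (down_meets _ _ hv _ hr1)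
  exact h2

theorem L1 {J : Set (Set ℕ)} (hJ : IsBase J) {x : ℕ → ℕ → Set P} {k h : ℕ → ℕ} {q : P}
    (hx : q ∈ Bd x k) (hk : LeB J k h) : q ∈ LeBN J x (nm P h) := by
  obtain ⟨S, hS⟩ := hk
  refine mem_fex.2 fun q' hq' => ?_
  obtain ⟨r, hr, N, hN⟩ := mem_fex.1 hx q' hq'
  obtain ⟨U, hU, hSU, hUN⟩ := enlarge hJ S.2 N
  refine ⟨r, hr, ⟨U, hU⟩, fun n => ?_⟩
  refine mem_fimp.2 fun s hs hn => ⟨s, le_rfl, fun v w => ?_⟩
  refine mem_fimp.2 fun s' hs' hvw => ⟨s', le_rfl, ?_⟩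
  rw [mem_fground] at hn ⊢
  have h1 := bd_apply hN (hUN n hn) (hs'.trans hs) hvw.1
  have h2 := hS n fun h => hn (hSU h)
  have h3 : h n = w := meets_nm.1 hvw.2
  rw [← h3]
  exact h1.trans h2

theorem L2 {J : Set (Set ℕ)} (hJ : IsBase J) {f : ℕ → ℕ → Set P} {k h : ℕ → ℕ} {q : P}
    (hf : q ∈ IsFun f) (hx : q ∈ Bd f h) (hk : q ∈ LeBN J (nm P k) f) : LeB J k h := by
  obtain ⟨r, hr, S, hS⟩ := mem_fex.1 hk q le_rfl
  obtain ⟨r', hr', N, hN⟩ := mem_fex.1 hx r hr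
  obtain ⟨U, hU, hSU, hUN⟩ := enlarge hJ S.2 N
  refine ⟨⟨U, hU⟩, fun n hn => ?_⟩
  have hn' : n ∉ S.1 := fun h => hn (hSU h)
  obtain ⟨s, hs, v, hv⟩ := IsFun.total (down_IsFun f _ hf _ (hr'.trans hr)) n
  have h1 := bd_apply hN (hUN n hn) hs hv
  obtain ⟨s1, hs1, h2⟩ := mem_fimp.1 (hS n) s (hs.trans hr') hn'
  obtain ⟨s2, _, h3⟩ := mem_fimp.1 (h2 (k n) v) s1 le_rfl
    ⟨meets_nm.2 rfl, down_meets _ _ hv _ hs1⟩
  exact le_trans h3 h1

theorem th_TRANS : S_TRANS := by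
  intro P _ hP J hJ T p
  refine ⟨fun hB => ?_, fun hB => ?_, fun hB => ?_, fun hB => ?_⟩
  · intro f
    refine mem_fimp.2 fun q _ hq => ⟨q, le_rfl, ?_⟩
    choose k hk using fun t => hP (f t) q (hq t)
    obtain ⟨h, hh⟩ := hB k
    refine mem_fex_of_mem (nm P h) (down_fand (down_IsFun _) (down_fall fun _ => down_fex _)) ?_
    exact ⟨isFun_nm h q, fun t => L1 hJ (hk t) (hh t)⟩
  · obtain ⟨c, hc⟩ := hB
    refine mem_fex_of_mem (fun t => nm P (c t)) (down_fand (down_fall fun _ => down_IsFun _)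
      (down_fall fun _ => down_fimp _ _)) ⟨fun t => isFun_nm (c t) p, fun f => ?_⟩
    refine mem_fimp.2 fun q _ hq => ⟨q, le_rfl, ?_⟩
    obtain ⟨k, hk⟩ := hP f q hq
    obtain ⟨t, ht⟩ := hc k
    refine mem_fex_of_mem t (down_fnot _) fun q' hq' h' => ht ?_
    exact L2 hJ (down_IsFun f _ hq _ hq') (down_fex _ _ hk _ hq') h'
  · intro f
    refine mem_fimp.2 fun q _ hq => ⟨q, le_rfl, ?_⟩
    choose k hk using fun t => hP (f t) q (hq t)
    obtain ⟨g, hg⟩ := hB k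
    refine mem_fex_of_mem (nm P g) (down_fand (down_IsFun _) (down_fall fun _ => down_fnot _)) ?_
    refine ⟨isFun_nm g q, fun t q' hq' h' => hg t ?_⟩
    exact L2 hJ (down_IsFun (f t) _ (hq t) _ hq') (down_fex _ _ (hk t) _ hq') h'
  · obtain ⟨c, hc⟩ := hB
    refine mem_fex_of_mem (fun t => nm P (c t)) (down_fand (down_fall fun _ => down_IsFun _)
      (down_fall fun _ => down_fimp _ _)) ⟨fun t => isFun_nm (c t) p, fun f => ?_⟩
    refine mem_fimp.2 fun q _ hq => ⟨q, le_rfl, ?_⟩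
    obtain ⟨k, hk⟩ := hP f q hq
    obtain ⟨t, ht⟩ := hc k
    exact mem_fex_of_mem t (down_fex _) (L1 hJ hk ht)

end Pool.Agent.H631.DB.PTRANS
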