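import Pool.Agent.H631.DB.Stm1

/-!
# TYPES: the cardinalities
-/

set_option autoImplicit false
set_option linter.unusedSectionVars false

namespace Pool.Agent.H631.DB.PTYPES

open Classical Cardinal
open scoped Cardinal
open Pool.Agent.H631.DB

theorem mk_CV {M : Type} {c : Cardinal.{0}} (hc : ℵ₀ ≤ c) (hM : #M ≤ c) : #(CV M) ≤ c := by
  let f : CV M → List ℕ × Finset M := fun v => (v.stem, v.pr)
  have hf : Function.Injective f := by
    rintro ⟨a, b⟩ ⟨a', b'⟩ h
    simp only [f, Prod.mk.injEq] at h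
    rw [h.1, h.2]
  refine (Cardinal.mk_le_of_injective hf).trans ?_
  rw [Cardinal.mk_prod, Cardinal.lift_id, Cardinal.lift_id]
  have h1 : #(Finset M) ≤ c := by
    rcases finite_or_infinite M with h | h
    · exact (Cardinal.lt_aleph0_of_finite _).le.trans hc
    · rw [Cardinal.mk_finset_of_infinite]
      exact hM
  calc #(List ℕ) * #(Finset M) ≤ ℵ₀ * c := mul_le_mul' Cardinal.mk_le_aleph0 h1
    _ = c := Cardinal.aleph0_mul_eq hc

theorem mk_Cond {M I : Type} {c : Cardinal.{0}} (hc : ℵ₀ ≤ c) (hM : #M ≤ c)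
    (hI : #I ≤ c) : #(Cond M I) ≤ c := by
  let f : Cond M I → Finset (I × CV M) := fun u => u.supp.image fun i => (i, u i)
  have hf : Function.Injective f := by
    intro u w h
    have key : ∀ u w : Cond M I, f u = f w → ∀ i : I, u i ≠ CV.top → w i = u i := by
      intro u w h i hi
      have h2 : (i, u i) ∈ f u := Finset.mem_image.2 ⟨i, Cond.mem_supp.2 hi, rfl⟩
      rw [h] at h2
      obtain ⟨i', _, h3⟩ := Finset.mem_image.1 h2
      rw [Prod.mk.injEq] at h3
      obtain ⟨rfl, h4⟩ := h3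
      exact h4
    apply Cond.ext'
    intro i
    by_cases h2 : u i = CV.top
    · by_cases h3 : w i = CV.top
      · rw [h2, h3]
      · exact key w u h.symm i h3
    · exact (key u w h i h2).symm
  refine (Cardinal.mk_le_of_injective hf).trans ?_
  have h2 : #(I × CV M) ≤ c := by
    rw [Cardinal.mk_prod, Cardinal.lift_id, Cardinal.lift_id]
    calc #I * #(CV M) ≤ c * c := mul_le_mul' hI (mk_CV hc hM)
      _ = c := Cardinal.mul_eq_self hc
  rcases finite_or_infinite (I × CV M) with h3 | h3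
  · exact (Cardinal.lt_aleph0_of_finite _).le.trans hc
  · rw [Cardinal.mk_finset_of_infinite]
    exact h2

theorem mk_Nm {M I : Type} {c : Cardinal.{0}} (hc : ℵ₀ ≤ c) (hc2 : c ^ ℵ₀ = c)
    (hM : #M ≤ c) (hI : #I ≤ c) : #(Nm M I) ≤ c := by
  have h1 : #(Option (Cond M I × ℕ)) ≤ c := by
    rw [Cardinal.mk_option, Cardinal.mk_prod, Cardinal.lift_id, Cardinal.lift_id]
    have h2 : #(Cond M I) * #ℕ ≤ c :=
      (mul_le_mul' (mk_Cond hc hM hI) Cardinal.mk_le_aleph0).trans (Cardinal.mul_aleph0_eq hc).le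
    calc #(Cond M I) * #ℕ + 1 ≤ c + c := add_le_add h2 (Cardinal.one_le_aleph0.trans hc)
      _ = c := Cardinal.add_eq_self hc
  have h2 : #(ℕ → ℕ → Option (Cond M I × ℕ)) = #(Option (Cond M I × ℕ)) ^ ℵ₀ := by
    rw [← Cardinal.mk_congr (Equiv.curry ℕ ℕ (Option (Cond M I × ℕ)))]
    simp
  show #(ℕ → ℕ → Option (Cond M I × ℕ)) ≤ c
  rw [h2]
  conv_rhs => rw [← hc2]
  exact Cardinal.power_le_power_right h1

/-- small families in a successor cardinal are bounded -/
theorem bdd_succ {A : Type} {κ : Cardinal.{0}} (hκ : ℵ₀ ≤ κ) (hA : #A ≤ κ)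
    (f : A → (Order.succ κ).ord.ToType) : ∃ β, ∀ k, f k < β := by
  by_contra hcon
  push Not at hcon
  have h1 : (Set.univ : Set (Order.succ κ).ord.ToType) = ⋃ k, Set.Iic (f k) := by
    ext β
    simp only [Set.mem_univ, Set.mem_iUnion, Set.mem_Iic, true_iff]
    exact hcon β
  have h2 : ∀ k, #(Set.Iic (f k)) ≤ κ := by
    intro k
    have h30 : #(Set.Iio (f k)) < Order.succ κ := Cardinal.mk_Iio_toType_ord_lt (f k)
    have h3 : #(Set.Iio (f k)) ≤ κ := Order.lt_succ_iff.1 h30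
    have h4 : Set.Iic (f k) = insert (f k) (Set.Iio (f k)) := by
      ext β
      simp only [Set.mem_Iic, Set.mem_insert_iff, Set.mem_Iio]
      exact le_iff_eq_or_lt
    rw [h4]
    refine (Cardinal.mk_insert_le).trans ?_
    exact (add_le_add h3 (Cardinal.one_le_aleph0.trans hκ)).trans
      (Cardinal.add_eq_self hκ).le
  have h3 : Order.succ κ ≤ κ := by
    rw [← Cardinal.mk_ord_toType (Order.succ κ), ← Cardinal.mk_univ, h1]
    refine (Cardinal.mk_iUnion_le _).trans ?_
    calc #A * _ ≤ κ * κ := mul_le_mul' hA (ciSup_le' h2)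
      _ = κ := Cardinal.mul_eq_self hκ
  exact absurd h3 (not_le.2 (Order.lt_succ _))

/-- the successor cardinals -/
noncomputable def kap (R : Type) : ℕ → Cardinal.{0}
  | 0 => #(R ⊕ Set ℕ)
  | n + 1 => Order.succ (kap R n)

/-- the well-orders -/
abbrev Om (R : Type) (t : Fin 4) : Type := (Order.succ (kap R t.val)).ord.ToType

/-- an embedding of the coordinates -/
def ixEmb {Ω : Fin 4 → Type} : Ix Ω → Set (Σ t, Ω t) ⊕ (Σ t, Ω t)
  | .ev x => Sum.inl {b | x b.1 = b.2}
  | .co t a => Sum.inr ⟨t, a⟩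

theorem ixEmb_inj {Ω : Fin 4 → Type} : Function.Injective (ixEmb (Ω := Ω)) := by
  intro i j h
  rcases i with x | ⟨t, a⟩
  · rcases j with y | ⟨s, b⟩
    · have h1 : {b : Σ t, Ω t | x b.1 = b.2} = {b : Σ t, Ω t | y b.1 = b.2} := Sum.inl.inj h
      have h2 : x = y := by
        funext t
        have h3 : (⟨t, x t⟩ : Σ t, Ω t) ∈ {b : Σ t, Ω t | x b.1 = b.2} := rfl
        rw [h1] at h3
        exact (show y t = x t from h3).symm
      rw [h2]
    · exact absurd h (by simp [ixEmb])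
  · rcases j with y | ⟨s, b⟩
    · exact absurd h (by simp [ixEmb])
    · have h1 : (⟨t, a⟩ : Σ t, Ω t) = ⟨s, b⟩ := Sum.inr.inj h
      cases h1
      rfl

theorem kap_aleph (R : Type) (n : ℕ) : ℵ₀ ≤ kap R n := by
  induction n with
  | zero =>
    have h : Infinite (R ⊕ Set ℕ) := inferInstance
    exact Cardinal.aleph0_le_mk _
  | succ n ih => exact ih.trans (Order.lt_succ _).le

theorem kap_mono (R : Type) (n : ℕ) : kap R 0 ≤ kap R n := by
  induction n with
  | zero => exact le_rfl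
  | succ n ih => exact ih.trans (Order.lt_succ _).le

theorem mk_Om (R : Type) (t : Fin 4) : #(Om R t) = kap R (t.val + 1) :=
  Cardinal.mk_ord_toType _

theorem th_TYPES : S_TYPES := by
  intro R
  have hunc : Uncountable (R ⊕ Set ℕ) := by
    rw [← Cardinal.aleph0_lt_mk_iff]
    have h1 : ℵ₀ < #(Set ℕ) := by
      rw [Cardinal.mk_set]
      exact (Cardinal.cantor _).trans_le' (by simp)
    refine h1.trans_le ?_
    rw [Cardinal.mk_sum, Cardinal.lift_id, Cardinal.lift_id]
    exact le_add_self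
  have hne : ∀ t, Nonempty (Om R t) := by
    intro t
    rw [← Cardinal.mk_ne_zero_iff, mk_Om]
    exact (Cardinal.aleph0_pos.trans_le (kap_aleph R _)).ne'
  -- the set of all pairs
  have hB : ℵ₀ ≤ #(Σ t, Om R t) := by
    have h1 : #(Om R 0) ≤ #(Σ t, Om R t) :=
      Cardinal.mk_le_of_injective (f := fun a : Om R 0 => (⟨0, a⟩ : Σ t, Om R t)) (by
        intro a b hab
        simpa using hab)
    rw [mk_Om] at h1
    exact (kap_aleph R _).trans h1
  have hΛc : #(Set (Σ t, Om R t)) = 2 ^ #(Σ t, Om R t) := Cardinal.mk_set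
  have hBΛ : #(Σ t, Om R t) < #(Set (Σ t, Om R t)) := by
    rw [hΛc]
    exact Cardinal.cantor _
  have hΛ : ℵ₀ ≤ #(Set (Σ t, Om R t)) := hB.trans hBΛ.le
  have hpow : #(Set (Σ t, Om R t)) ^ ℵ₀ = #(Set (Σ t, Om R t)) := by
    rw [hΛc, ← Cardinal.power_mul, Cardinal.mul_eq_left hB hB Cardinal.aleph0_ne_zero]
  have hI : #(Ix (Om R)) ≤ #(Set (Σ t, Om R t)) := by
    refine (Cardinal.mk_le_of_injective ixEmb_inj).trans ?_
    rw [Cardinal.mk_sum, Cardinal.lift_id, Cardinal.lift_id]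
    exact (add_le_add le_rfl hBΛ.le).trans (Cardinal.add_eq_self hΛ).le
  have hN : #(Nm (Set (Σ t, Om R t)) (Ix (Om R))) ≤ #(Set (Σ t, Om R t)) :=
    mk_Nm hΛ hpow le_rfl hI
  obtain ⟨code⟩ := hN
  refine ⟨R ⊕ Set ℕ, Om R, fun t => inferInstance, fun t => inferInstance, hne,
    Set (Σ t, Om R t), code, ⟨Function.Embedding.inl⟩, hunc, code.injective, ?_, ?_, ?_, ?_, ?_⟩
  · intro t f
    exact bdd_succ (kap_aleph R _) (by rw [Cardinal.mk_nat]; exact kap_aleph R _) f
  · intro t f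
    exact bdd_succ (kap_aleph R _) (kap_mono R _) f
  · intro f
    exact bdd_succ (kap_aleph R 1) (mk_Om R 0).le f
  · intro f
    exact bdd_succ (kap_aleph R 2) (mk_Om R 1).le f
  · intro f
    exact bdd_succ (kap_aleph R 3) (mk_Om R 2).le f

end Pool.Agent.H631.DB.PTYPES
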