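import Pool.Agent.H631.DB.Unc

/-!
# UNC: uncountable sets (helper710 for helper631)
-/

set_option autoImplicit false

namespace Pool.Agent.H631.DB.PUNC

open Pool.Agent.Helper669.Forcing Pool.Agent.H631.DB

theorem part1 (P : Type) [Preorder P]
    (hccc : ∀ A : Set P, (∀ p ∈ A, ∀ q ∈ A, p ≠ q → ¬ ∃ r, r ≤ p ∧ r ≤ q) → A.Countable)
    (T : Type) (hT : Uncountable T) (p : P) : p ∈ UncN P T := by
  intro q _ hq
  obtain ⟨r, _, R, hfun, honto⟩ := mem_fex.1 hq q le_rfl
  have hA : ∀ n : ℕ, {t : T | ∃ s ≤ r, s ∈ meets (R n t)}.Countable := by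
    intro n
    have hch : ∀ t : {t : T | ∃ s ≤ r, s ∈ meets (R n t)}, ∃ s ≤ r, s ∈ meets (R n t.1) :=
      fun t => t.2
    choose g hg1 hg2 using hch
    have huni : ∀ t t' : {t : T | ∃ s ≤ r, s ∈ meets (R n t)},
        (∃ u, u ≤ g t ∧ u ≤ g t') → t = t' := by
      rintro t t' ⟨u, hu1, hu2⟩
      apply Subtype.ext
      exact IsFun.unique (down_IsFun R r hfun u (hu1.trans (hg1 t)))
        (down_meets _ _ (hg2 t) u hu1) (down_meets _ _ (hg2 t') u hu2)
    have hinj : Function.Injective g := by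
      intro t t' h
      exact huni t t' ⟨g t, le_rfl, by rw [h]⟩
    have hc : (Set.range g).Countable := by
      apply hccc
      rintro _ ⟨t, rfl⟩ _ ⟨t', rfl⟩ hne h
      exact hne (by rw [huni t t' h])
    have h1 : Countable {t : T | ∃ s ≤ r, s ∈ meets (R n t)} := by
      have h2 : Countable (Set.range g) := hc.to_subtype
      exact (Set.rangeFactorization_injective.2 hinj).countable
    exact Set.countable_coe_iff.1 h1
  have hU : (⋃ n : ℕ, {t : T | ∃ s ≤ r, s ∈ meets (R n t)}) = Set.univ := by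
    apply Set.eq_univ_of_forall
    intro t
    obtain ⟨s, hs, n, hn⟩ := mem_fex.1 (honto t) r le_rfl
    exact Set.mem_iUnion.2 ⟨n, s, hs, hn⟩
  have h3 : (Set.univ : Set T).Countable := by
    rw [← hU]
    exact Set.countable_iUnion hA
  exact Set.not_countable_univ h3

theorem th_UNC : S_UNC := by
  refine ⟨part1, fun T _ p => ⟨fun h => ?_, fun h => ?_⟩⟩
  · by_contra hcon
    rw [not_uncountable_iff] at hcon
    obtain ⟨f, hf⟩ := exists_surjective_nat T
    refine h p le_rfl (mem_fex.2 fun q _ => ⟨q, le_rfl, fun n t => {_u | f n = t}, ⟨?_, ?_⟩, ?_⟩)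
    · intro n
      exact mem_fex.2 fun q _ => ⟨q, le_rfl, f n, meets_of_mem rfl⟩
    · intro n y y'
      refine mem_fimp.2 fun q _ hh => ⟨q, le_rfl, ?_⟩
      obtain ⟨_, _, _, h1, _⟩ := hh.1 q le_rfl
      obtain ⟨_, _, _, h2, _⟩ := hh.2 q le_rfl
      have h1' : f n = y := h1
      have h2' : f n = y' := h2
      show y = y'
      rw [← h1', h2']
    · intro t
      obtain ⟨n, hn⟩ := hf t
      exact mem_fex.2 fun q _ => ⟨q, le_rfl, n, meets_of_mem hn⟩
  · exact part1 Unit (fun A _ => Set.to_countable A) T h p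

end Pool.Agent.H631.DB.PUNC
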