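import Pool.Agent.H631.DB.Stm2

/-!
# DB-Z1 (helper53, for helper631)
-/

set_option autoImplicit false

namespace Pool.Agent.H631.DB.PZ1

open Cardinal Pool.Agent.H631.DB

theorem leB_trans {J : Set (Set ℕ)} (hJ : IsIdeal J) {x y z : ℕ → ℕ} (h1 : LeB J x y)
    (h2 : LeB J y z) : LeB J x z := by
  obtain ⟨S, hS⟩ := h1
  obtain ⟨S', hS'⟩ := h2
  refine ⟨⟨S.1 ∪ S'.1, hJ.2.1 _ S.2 _ S'.2⟩, fun n hn => ?_⟩
  have hn1 : n ∉ S.1 := fun h => hn (Or.inl h)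
  have hn2 : n ∉ S'.1 := fun h => hn (Or.inr h)
  exact (hS n hn1).trans (hS' n hn2)

theorem not_succ {J : Set (Set ℕ)} (hJ : IsIdeal J) (h : ℕ → ℕ) :
    ¬ LeB J (fun n => h n + 1) h := by
  rintro ⟨S, hS⟩
  have h1 : S.1 = Set.univ := by
    rw [Set.eq_univ_iff_forall]
    intro n
    by_contra hn
    exact absurd (hS n hn) (by simp)
  exact hJ.2.2.2 (h1 ▸ S.2)

theorem leB_fin {J : Set (Set ℕ)} (hJ : IsIdeal J) {x y : ℕ → ℕ} (h : LeB FinI x y) :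
    LeB J x y := by
  obtain ⟨S, hS⟩ := h
  exact ⟨⟨S.1, hJ.2.2.1 _ S.2⟩, hS⟩

/-- the ideal of a tower -/
def JT {N A : Type} (r : N → A → Prop) (e : N → ℕ → ℕ) (c : A → ℕ → ℕ) : Set (Set ℕ) :=
  {S | ∃ (l : List (N × A)) (m : ℕ), (∀ z ∈ l, r z.1 z.2) ∧
    ∀ n ∈ S, m ≤ n → ∃ z : N × A, z ∈ l ∧ c z.2 n < e z.1 n}

theorem isIdeal_JT {N A : Type} (r : N → A → Prop) (e : N → ℕ → ℕ) (c : A → ℕ → ℕ)
    (h : ∀ l : List (N × A), (∀ z ∈ l, r z.1 z.2) → ∀ m, ∃ n, m ≤ n ∧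
      ∀ z : N × A, z ∈ l → e z.1 n ≤ c z.2 n) : IsIdeal (JT r e c) := by
  refine ⟨?_, ?_, ?_, ?_⟩
  · rintro S ⟨l, m, hl, hS⟩ S' hS'
    exact ⟨l, m, hl, fun n hn => hS n (hS' hn)⟩
  · rintro S ⟨l, m, hl, hS⟩ S' ⟨l', m', hl', hS'⟩
    refine ⟨l ++ l', max m m', ?_, ?_⟩
    · intro z hz
      rcases List.mem_append.1 hz with hz | hz
      · exact hl z hz
      · exact hl' z hz
    · intro n hn hm
      rcases hn with hn | hn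
      · obtain ⟨z, hz, hz'⟩ := hS n hn ((le_max_left _ _).trans hm)
        exact ⟨z, List.mem_append.2 (Or.inl hz), hz'⟩
      · obtain ⟨z, hz, hz'⟩ := hS' n hn ((le_max_right _ _).trans hm)
        exact ⟨z, List.mem_append.2 (Or.inr hz), hz'⟩
  · intro S hS
    obtain ⟨b, hb⟩ := hS.bddAbove
    refine ⟨[], b + 1, by simp, ?_⟩
    intro n hn hm
    have := hb hn
    omega
  · rintro ⟨l, m, hl, hS⟩
    obtain ⟨n, hn, hn'⟩ := h l hl m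
    obtain ⟨z, hz, hz'⟩ := hS n (Set.mem_univ n) hn
    exact absurd (hn' z hz) (not_le.2 hz')

/-- from a tower with the capturing property -/
theorem key {N A Y : Type} (r : N → A → Prop) (e : N → ℕ → ℕ) (hC : Cap Y r e)
    (hT : Tower r e) : ∃ (J : Set (Set ℕ)) (c : A → ℕ → ℕ), IsIdeal J ∧
      ∀ f : Y → ℕ → ℕ, ∃ a, ∀ k, LeB J (f k) (c a) := by
  obtain ⟨c, hc⟩ := hT
  refine ⟨JT r e c, c, isIdeal_JT r e c hc, ?_⟩
  intro f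
  obtain ⟨a, ha⟩ := hC f
  refine ⟨a, fun k => ?_⟩
  obtain ⟨X, hX, hXe⟩ := ha k
  refine ⟨⟨{n | c a n < e X n}, [(X, a)], 0, ?_, ?_⟩, ?_⟩
  · intro z hz
    rw [List.mem_singleton] at hz
    rw [hz]
    exact hX
  · intro n hn _
    exact ⟨(X, a), List.mem_singleton.2 rfl, hn⟩
  · intro n hn
    rw [← hXe]
    exact not_lt.1 hn

/-- the property of a step -/
def PP (J : Set (Set ℕ)) {A : Type} (Y : Type) (c : A → ℕ → ℕ) : Prop :=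
  ∀ f : Y → ℕ → ℕ, ∃ a, ∀ k, LeB J (f k) (c a)

theorem PP.dom {J : Set (Set ℕ)} {A Y : Type} {c : A → ℕ → ℕ} (h : PP J Y c) (hY : Nonempty Y)
    (f : ℕ → ℕ) : ∃ a, LeB J f (c a) := by
  obtain ⟨a, ha⟩ := h (fun _ => f)
  exact ⟨a, ha hY.some⟩

theorem PP.unb {J : Set (Set ℕ)} (hJ : IsIdeal J) {A Y : Type} {c : A → ℕ → ℕ} (h : PP J Y c)
    (hY : Nonempty Y) (f : ℕ → ℕ) : ∃ a, ¬ LeB J (c a) f := by
  obtain ⟨a, ha⟩ := h.dom hY (fun n => f n + 1)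
  exact ⟨a, fun h1 => not_succ hJ f (leB_trans hJ ha h1)⟩

theorem PP.nonempty {J : Set (Set ℕ)} {A Y : Type} {c : A → ℕ → ℕ} (h : PP J Y c) :
    Nonempty A := by
  obtain ⟨a, _⟩ := h (fun _ _ => 0)
  exact ⟨a⟩

theorem exists_surj {A B : Type} (hA : Nonempty A) (h : #A ≤ #B) :
    ∃ s : B → A, Function.Surjective s := by
  obtain ⟨i⟩ := (Cardinal.le_def A B).1 h
  exact ⟨Function.invFun i, Function.invFun_surjective i.injective⟩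

theorem PP.le {J : Set (Set ℕ)} (hJ : IsIdeal J) {A Y : Type} {c : A → ℕ → ℕ} (h : PP J Y c)
    (hY : Nonempty Y) : #Y ≤ #A := by
  by_contra hlt
  obtain ⟨s, hs⟩ := exists_surj h.nonempty (not_le.1 hlt).le
  obtain ⟨a, ha⟩ := h (fun k => c (s k))
  obtain ⟨a', ha'⟩ := h.unb hJ hY (c a)
  obtain ⟨k, rfl⟩ := hs a'
  exact ha' (ha k)

theorem PP.infinite {J : Set (Set ℕ)} (hJ : IsIdeal J) {A Y : Type} {c : A → ℕ → ℕ}
    (h : PP J Y c) (hY : Nonempty Y) : Infinite A := by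
  by_contra hfin
  rw [not_infinite_iff_finite] at hfin
  have := Fintype.ofFinite A
  obtain ⟨a, ha⟩ := h.unb hJ hY (fun n => ∑ a, c a n)
  apply ha
  refine ⟨⟨∅, hJ.2.2.1 _ Set.finite_empty⟩, fun n _ => ?_⟩
  exact Finset.single_le_sum (f := fun a => c a n) (fun _ _ => Nat.zero_le _) (Finset.mem_univ a)

/-- the sum of two ideals -/
def JJ (J₁ J₂ : Set (Set ℕ)) : Set (Set ℕ) := {S | {n | 2 * n ∈ S} ∈ J₁ ∧ {n | 2 * n + 1 ∈ S} ∈ J₂}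

theorem isIdeal_JJ {J₁ J₂ : Set (Set ℕ)} (h1 : IsIdeal J₁) (h2 : IsIdeal J₂) :
    IsIdeal (JJ J₁ J₂) := by
  refine ⟨?_, ?_, ?_, ?_⟩
  · rintro S ⟨hS1, hS2⟩ S' hS'
    exact ⟨h1.1 _ hS1 _ fun n hn => hS' hn, h2.1 _ hS2 _ fun n hn => hS' hn⟩
  · rintro S ⟨hS1, hS2⟩ S' ⟨hS1', hS2'⟩
    exact ⟨h1.2.1 _ hS1 _ hS1', h2.2.1 _ hS2 _ hS2'⟩
  · intro S hS
    refine ⟨h1.2.2.1 _ ?_, h2.2.2.1 _ ?_⟩
    · exact hS.preimage (f := fun n => 2 * n) (fun a _ b _ hab => by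
        have : 2 * a = 2 * b := hab
        omega)
    · exact hS.preimage (f := fun n => 2 * n + 1) (fun a _ b _ hab => by
        have : 2 * a + 1 = 2 * b + 1 := hab
        omega)
  · rintro ⟨hS1, _⟩
    apply h1.2.2.2
    have : {n : ℕ | 2 * n ∈ (Set.univ : Set ℕ)} = Set.univ := by
      ext n
      simp
    rwa [this] at hS1

theorem leB_JJ_left {J₁ J₂ : Set (Set ℕ)} {x y : ℕ → ℕ} (h : LeB (JJ J₁ J₂) x y) :
    LeB J₁ (fun n => x (2 * n)) (fun n => y (2 * n)) := by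
  obtain ⟨S, hS⟩ := h
  exact ⟨⟨_, S.2.1⟩, fun n hn => hS (2 * n) hn⟩

theorem leB_JJ_right {J₁ J₂ : Set (Set ℕ)} {x y : ℕ → ℕ} (h : LeB (JJ J₁ J₂) x y) :
    LeB J₂ (fun n => x (2 * n + 1)) (fun n => y (2 * n + 1)) := by
  obtain ⟨S, hS⟩ := h
  exact ⟨⟨_, S.2.2⟩, fun n hn => hS (2 * n + 1) hn⟩

theorem leB_JJ {J₁ J₂ : Set (Set ℕ)} (h1 : IsIdeal J₁) (h2 : IsIdeal J₂) {x y : ℕ → ℕ}
    (ha : LeB J₁ (fun n => x (2 * n)) (fun n => y (2 * n)))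
    (hb : LeB J₂ (fun n => x (2 * n + 1)) (fun n => y (2 * n + 1))) : LeB (JJ J₁ J₂) x y := by
  obtain ⟨S, hS⟩ := ha
  obtain ⟨S', hS'⟩ := hb
  refine ⟨⟨{m | y m < x m}, h1.1 _ S.2 _ ?_, h2.1 _ S'.2 _ ?_⟩, fun n hn => not_lt.1 hn⟩
  · intro n hn
    by_contra hn'
    exact absurd (hS n hn') (not_le.2 hn)
  · intro n hn
    by_contra hn'
    exact absurd (hS' n hn') (not_le.2 hn)

/-- the merge of two functions -/
def mg (u v : ℕ → ℕ) (n : ℕ) : ℕ := if n % 2 = 0 then u (n / 2) else v (n / 2)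

theorem mg_even (u v : ℕ → ℕ) (n : ℕ) : mg u v (2 * n) = u n := by
  have h1 : (2 * n) % 2 = 0 := by omega
  have h2 : 2 * n / 2 = n := by omega
  unfold mg
  rw [if_pos h1, h2]

theorem mg_odd (u v : ℕ → ℕ) (n : ℕ) : mg u v (2 * n + 1) = v n := by
  have h1 : ¬ (2 * n + 1) % 2 = 0 := by omega
  have h2 : (2 * n + 1) / 2 = n := by omega
  unfold mg
  rw [if_neg h1, h2]

/-- Z1 (the hypothesis is not used) -/
theorem th_Z1' : S_Z1 := by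
  intro T D N Ω r h
  obtain ⟨hT, hD, e, hC0, hC1, hC2, hC3, hTow⟩ := h
  obtain ⟨J0, c0, hJ0, hP0⟩ := key (r 0) e hC0 (hTow 0)
  obtain ⟨J1, c1, hJ1, hP1⟩ := key (r 1) e hC1 (hTow 1)
  obtain ⟨J2, c2, hJ2, hP2⟩ := key (r 2) e hC2 (hTow 2)
  obtain ⟨J3, c3, hJ3, hP3⟩ := key (r 3) e hC3 (hTow 3)
  have hP0 : PP J0 Unit c0 := hP0
  have hP1 : PP J1 (Ω 0) c1 := hP1
  have hP2 : PP J2 (Ω 1) c2 := hP2
  have hP3 : PP J3 (Ω 2) c3 := hP3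
  have hn0 : Nonempty (Ω 0) := hP0.nonempty
  have hn1 : Nonempty (Ω 1) := hP1.nonempty
  have hn2 : Nonempty (Ω 2) := hP2.nonempty
  have hle1 : #(Ω 0) ≤ #(Ω 1) := hP1.le hJ1 hn0
  have hle2 : #(Ω 1) ≤ #(Ω 2) := hP2.le hJ2 hn1
  have hinf : Infinite (Ω 2) := hP2.infinite hJ2 hn1
  refine ⟨JJ J1 J2, isIdeal_JJ hJ1 hJ2, hT, ?_, ?_, ?_, ?_, ?_, ?_, hD⟩
  · -- Unbdd FinI (Ω 0)
    refine ⟨c0, fun f => ?_⟩
    obtain ⟨a, ha⟩ := hP0.unb hJ0 ⟨()⟩ f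
    exact ⟨a, fun h => ha (leB_fin hJ0 h)⟩
  · -- BddAll J (Ω 0)
    intro f
    obtain ⟨a, ha⟩ := hP1 (fun k n => f k (2 * n))
    obtain ⟨s, hs⟩ := exists_surj hn0 hle1
    obtain ⟨b, hb⟩ := hP2 (fun k n => f (s k) (2 * n + 1))
    refine ⟨mg (c1 a) (c2 b), fun t => leB_JJ hJ1 hJ2 ?_ ?_⟩
    · simp only [mg_even]
      exact ha t
    · simp only [mg_odd]
      obtain ⟨k, rfl⟩ := hs t
      exact hb k
  · -- Unbdd J (Ω 1)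
    refine ⟨fun a => mg (c1 a) (c1 a), fun f => ?_⟩
    obtain ⟨a, ha⟩ := hP1.unb hJ1 hn0 (fun n => f (2 * n))
    refine ⟨a, fun h => ha ?_⟩
    have h1 := leB_JJ_left h
    simp only [mg_even] at h1
    exact h1
  · -- NotDom J (Ω 1)
    intro f
    obtain ⟨b, hb⟩ := hP2 (fun k n => f k (2 * n + 1))
    refine ⟨mg (fun n => c2 b n + 1) (fun n => c2 b n + 1), fun t h => ?_⟩
    have h1 := leB_JJ_right h
    simp only [mg_odd] at h1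
    exact not_succ hJ2 (c2 b) (leB_trans hJ2 h1 (hb t))
  · -- Domin J (Ω 2)
    have hcard : #(Ω 1 × Ω 2) ≤ #(Ω 2) := by
      rw [Cardinal.mk_prod, Cardinal.lift_id, Cardinal.lift_id]
      calc #(Ω 1) * #(Ω 2) ≤ #(Ω 2) * #(Ω 2) := mul_le_mul_left hle2 _
        _ = #(Ω 2) := Cardinal.mul_eq_self (Cardinal.aleph0_le_mk _)
    obtain ⟨s, hs⟩ := exists_surj (A := Ω 1 × Ω 2) ⟨(hn1.some, hn2.some)⟩ hcard
    refine ⟨fun t => mg (c1 (s t).1) (c2 (s t).2), fun f => ?_⟩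
    obtain ⟨a, ha⟩ := hP1.dom hn0 (fun n => f (2 * n))
    obtain ⟨b, hb⟩ := hP2.dom hn1 (fun n => f (2 * n + 1))
    obtain ⟨t, ht⟩ := hs (a, b)
    refine ⟨t, leB_JJ hJ1 hJ2 ?_ ?_⟩
    · simp only [mg_even, ht]
      exact ha
    · simp only [mg_odd, ht]
      exact hb
  · -- NotDom FinI (Ω 2)
    intro f
    obtain ⟨a, ha⟩ := hP3 f
    refine ⟨fun n => c3 a n + 1, fun t h => ?_⟩
    exact not_succ hJ3 (c3 a) (leB_trans hJ3 (leB_fin hJ3 h) (ha t))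

theorem th_Z1 : S_CARD → S_Z1 := fun _ => th_Z1'

end Pool.Agent.H631.DB.PZ1
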