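import Pool.Agent.H631.DB.BDD
import Pool.Agent.H631.DB.BDR
import Pool.Agent.H631.DB.BOUND
import Pool.Agent.H631.DB.CAP
import Pool.Agent.H631.DB.CARD
import Pool.Agent.H631.DB.CCC
import Pool.Agent.H631.DB.CCCR
import Pool.Agent.H631.DB.COH
import Pool.Agent.H631.DB.COVR
import Pool.Agent.H631.DB.COVZ
import Pool.Agent.H631.DB.DOM
import Pool.Agent.H631.DB.EVN
import Pool.Agent.H631.DB.FORCE
import Pool.Agent.H631.DB.IND
import Pool.Agent.H631.DB.LONG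
import Pool.Agent.H631.DB.NAME
import Pool.Agent.H631.DB.SUP
import Pool.Agent.H631.DB.SUPP
import Pool.Agent.H631.DB.TL
import Pool.Agent.H631.DB.TOW1
import Pool.Agent.H631.DB.TOWER
import Pool.Agent.H631.DB.TRANS
import Pool.Agent.H631.DB.TYPES
import Pool.Agent.H631.DB.UNC
import Pool.Agent.H631.DB.UNIT1
import Pool.Agent.H631.DB.UNIT2
import Pool.Agent.H631.DB.Z1

/-!
# Assembly
-/

set_option autoImplicit false
set_option linter.unusedSectionVars false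

namespace Pool.Agent.H631.DB

open Cardinal Pool.Agent.Helper669.Forcing

theorem force : S_FORCE :=
  PFORCE.th_FORCE PCCC.th_CCC (PCOH.th_COH PLONG.th_LONG) PEVN.th_EVN
    (PBDD.th_BDD PCCC.th_CCC (PCOH.th_COH PLONG.th_LONG)
      (PBOUND.th_BOUND PLONG.th_LONG (PCOH.th_COH PLONG.th_LONG)))
    (PDOM.th_DOM PCCC.th_CCC (PCOH.th_COH PLONG.th_LONG)
      (PBOUND.th_BOUND PLONG.th_LONG (PCOH.th_COH PLONG.th_LONG)))
    (PTOWER.th_TOWER PLONG.th_LONG (PCOH.th_COH PLONG.th_LONG) PEVN.th_EVN PTOW1.th_TOW1)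
    (PCAP.th_CAP PCCC.th_CCC) PTL.th_TL PSUPP.th_SUPP PTYPES.th_TYPES

/-- the values of the cardinals, the sets `T, K, A, B, D` being the separating ones -/
def Sep (J : Set (Set ℕ)) (T K A B D : Type) : Prop :=
  IsIdeal J ∧ #T < bnum FinI ∧ bnum FinI ≤ #K ∧ #K < bnum J ∧ bnum J ≤ #A ∧ #A < dnum J ∧
    dnum J ≤ #B ∧ #B < dnum FinI ∧ dnum FinI ≤ #D

theorem sep_of_phi1 {T D N : Type} {Ω : Fin 4 → Type} {r : ∀ t, N → Ω t → Prop}
    (h : Phi1For T D N Ω r) : ∃ J, Sep J T (Ω 0) (Ω 1) (Ω 2) D := by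
  obtain ⟨J, hJ, h1, h2, h3, h4, h5, h6, h7, h8⟩ := PZ1.th_Z1' T D N Ω r h
  have hc := PCARD.th_CARD.1
  have hF := PCARD.th_CARD.2.1
  exact ⟨J, hJ, (hc _ hF _).1.1 h1, (hc _ hF _).2.1.1 h2, (hc _ hJ _).1.1 h3,
    (hc _ hJ _).2.1.1 h4, (hc _ hJ _).2.2.1.1 h5, (hc _ hJ _).2.2.2.1 h6,
    (hc _ hF _).2.2.1.1 h7, (hc _ hF _).2.2.2.1 h8⟩

theorem name : S_NAME := PNAME.th_NAME PCCCR.th_CCCR PSUP.th_SUP

theorem exists_big (D : Type) : ∃ M : Type, ∀ A : D → Set M, (∀ d, (A d).Countable) →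
    ∀ B : Set M, B.Countable → ∃ m, m ∉ B ∧ ∀ d, m ∉ A d := by
  refine ⟨Set (Option D × ℕ), fun A hA B hB => ?_⟩
  by_contra hcon
  push Not at hcon
  have h1 : (Set.univ : Set (Set (Option D × ℕ))) = ⋃ o : Option D, o.elim B A := by
    ext m
    simp only [Set.mem_univ, Set.mem_iUnion, true_iff]
    by_cases hm : m ∈ B
    · exact ⟨none, hm⟩
    · obtain ⟨d, hd⟩ := hcon m hm
      exact ⟨some d, hd⟩
  have h2 : ∀ o : Option D, #(o.elim B A : Set (Set (Option D × ℕ))) ≤ ℵ₀ := by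
    intro o
    cases o with
    | none => exact Cardinal.mk_le_aleph0_iff.2 hB.to_subtype
    | some d => exact Cardinal.mk_le_aleph0_iff.2 (hA d).to_subtype
  have h3 : #(Set (Option D × ℕ)) ≤ #(Option D × ℕ) := by
    rw [← Cardinal.mk_univ, h1]
    refine (Cardinal.mk_iUnion_le _).trans ?_
    rw [Cardinal.mk_prod, Cardinal.lift_id, Cardinal.lift_id, Cardinal.mk_nat]
    exact mul_le_mul' le_rfl (ciSup_le' h2)
  rw [Cardinal.mk_set] at h3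
  exact absurd h3 (not_le.2 (Cardinal.cantor _))

theorem random {J : Set (Set ℕ)} {T K A B D : Type} (h : Sep J T K A B D) :
    ∃ (P : Type) (_ : Preorder P), Nonempty P ∧
      (∀ A : Set P, (∀ p ∈ A, ∀ q ∈ A, p ≠ q → ¬ ∃ r, r ≤ p ∧ r ≤ q) → A.Countable) ∧
      ∀ p : P, p ∈ Phi2Holds P J T K A B D := by
  obtain ⟨hJ, h1, h2, h3, h4, h5, h6, h7, h8⟩ := h
  obtain ⟨M, hM⟩ := exists_big D
  refine ⟨RR M, inferInstance, (PCCCR.th_CCCR M).1, (PCCCR.th_CCCR M).2, fun p => ?_⟩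
  have hB : Bding (RR M) := PBDR.th_BDR PCCCR.th_CCCR name M
  have hc := PCARD.th_CARD.1
  have hF := PCARD.th_CARD.2.1
  have hJb : IsBase J := (PCARD.th_CARD.2.2.1 J hJ).1
  have hFb : IsBase FinI := (PCARD.th_CARD.2.2.1 FinI hF).1
  have t1 := fun X : Type => PTRANS.th_TRANS (RR M) hB J hJb X p
  have t2 := fun X : Type => PTRANS.th_TRANS (RR M) hB FinI hFb X p
  exact ⟨(t2 T).1 ((hc _ hF _).1.2 h1), (t2 K).2.1 ((hc _ hF _).2.1.2 h2),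
    (t1 K).1 ((hc _ hJ _).1.2 h3), (t1 A).2.1 ((hc _ hJ _).2.1.2 h4),
    (t1 A).2.2.1 ((hc _ hJ _).2.2.1.2 h5), (t1 B).2.2.2 ((hc _ hJ _).2.2.2.2 h6),
    (t2 B).2.2.1 ((hc _ hF _).2.2.1.2 h7), (t2 D).2.2.2 ((hc _ hF _).2.2.2.2 h8),
    PCOVR.th_COVR PCCCR.th_CCCR name PSUP.th_SUP PIND.th_IND M D hM p⟩

theorem values {J : Set (Set ℕ)} {T K A B D : Type} (hJ : IsBase J)
    (h : Phi2For J T K A B D) : Sep (gen J) T K A B D ∧ #D < covN := by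
  obtain ⟨h1, h2, h3, h4, h5, h6, h7, h8, h9⟩ := h
  have hc := PCARD.th_CARD.1
  have hF := PCARD.th_CARD.2.1
  obtain ⟨hG, hle⟩ := PCARD.th_CARD.2.2.2 J hJ
  have e1 : ∀ X : Type, BddAll J X ↔ BddAll (gen J) X := fun X => by
    simp only [BddAll, hle]
  have e2 : ∀ X : Type, Unbdd J X ↔ Unbdd (gen J) X := fun X => by
    simp only [Unbdd, hle]
  have e3 : ∀ X : Type, NotDom J X ↔ NotDom (gen J) X := fun X => by
    simp only [NotDom, hle]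
  have e4 : ∀ X : Type, Domin J X ↔ Domin (gen J) X := fun X => by
    simp only [Domin, hle]
  exact ⟨⟨hG, (hc _ hF _).1.1 h1, (hc _ hF _).2.1.1 h2, (hc _ hG _).1.1 ((e1 _).1 h3),
    (hc _ hG _).2.1.1 ((e2 _).1 h4), (hc _ hG _).2.2.1.1 ((e3 _).1 h5),
    (hc _ hG _).2.2.2.1 ((e4 _).1 h6), (hc _ hF _).2.2.1.1 h7, (hc _ hF _).2.2.2.1 h8⟩,
    PCOVZ.th_COVZ D h9⟩

end Pool.Agent.H631.DB
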