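import Pool.Agent.H631.DB.Lang

/-! # Uncountable sets -/

set_option autoImplicit false
set_option linter.unusedSectionVars false

namespace Pool.Agent.H631.DB

open Cardinal Pool.Agent.Helper669.Forcing

/-- Forcing version of: there is no function from `ℕ` onto `T`. -/
def UncN (P : Type) [Preorder P] (T : Type) : Set P :=
  fnot (fex fun R : ℕ → T → Set P => fand (IsFun R) (IsOnto R))

/-- UNC: a ccc forcing preserves uncountability (if `q` forces that `R` is a function onto `T` then for
each `n` the set of the `t` with some `r ≤ q`, `r ∈ meets (R n t)`, is countable by ccc and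
`IsFun.unique`; by `IsOnto` these sets cover `T`); and the meaning over the trivial forcing (see
EV/UnitM.lean). -/
def S_UNC : Prop := (∀ (P : Type) [Preorder P],
    (∀ A : Set P, (∀ p ∈ A, ∀ q ∈ A, p ≠ q → ¬ ∃ r, r ≤ p ∧ r ≤ q) → A.Countable) →
    ∀ T : Type, Uncountable T → ∀ p : P, p ∈ UncN P T) ∧
  ∀ (T : Type) [Nonempty T] (p : Unit), p ∈ UncN Unit T ↔ Uncountable T

end Pool.Agent.H631.DB
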